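import Mathlib
import Pool.Agent.TH278.DX.Defs

/-!
# Distance to the commutant from similarity constants near one (self-adjoint case)
-/

set_option autoImplicit false

namespace Pool.Agent.TH620.J4638

open Pool.Agent.TH278.DX

variable {H : Type} [NormedAddCommGroup H] [InnerProductSpace ℂ H]

theorem re_smul_left (r : ℝ) (x y : H) :
    (inner ℂ ((r : ℂ) • x) y).re = r * (inner ℂ x y).re := by
  rw [inner_smul_left, Complex.conj_ofReal, Complex.re_ofReal_mul]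

theorem re_smul_right (r : ℝ) (x y : H) :
    (inner ℂ x ((r : ℂ) • y)).re = r * (inner ℂ x y).re := by
  rw [inner_smul_right, Complex.re_ofReal_mul]

theorem re_add_left (x y z : H) :
    (inner ℂ (x + y) z).re = (inner ℂ x z).re + (inner ℂ y z).re := by
  rw [inner_add_left, Complex.add_re]

theorem re_add_right (x y z : H) :
    (inner ℂ x (y + z)).re = (inner ℂ x y).re + (inner ℂ x z).re := by
  rw [inner_add_right, Complex.add_re]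

theorem re_sub_left (x y z : H) :
    (inner ℂ (x - y) z).re = (inner ℂ x z).re - (inner ℂ y z).re := by
  rw [inner_sub_left, Complex.sub_re]

theorem re_self (x : H) : (inner ℂ x x).re = ‖x‖ ^ 2 :=
  inner_self_eq_norm_sq (𝕜 := ℂ) x

theorem re_symm (x y : H) : (inner ℂ x y).re = (inner ℂ y x).re := by
  rw [← inner_conj_symm, Complex.conj_re]

theorem abs_re_le (x y : H) : |(inner ℂ x y).re| ≤ ‖x‖ * ‖y‖ :=
  (Complex.abs_re_le_norm _).trans (norm_inner_le_norm x y)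

/-- the norm of a symmetric operator from its quadratic form -/
theorem norm_le_of_form (D : H →L[ℂ] H) (hD : ∀ x y : H, inner ℂ (D x) y = inner ℂ x (D y)) (M : ℝ)
    (hM : 0 ≤ M) (h : ∀ x : H, |(inner ℂ (D x) x).re| ≤ M * ‖x‖ ^ 2) : ‖D‖ ≤ M := by
  refine ContinuousLinearMap.opNorm_le_bound D hM fun x => ?_
  rcases eq_or_ne (D x) 0 with h0 | h0
  · rw [h0, norm_zero]
    positivity
  have hx0 : x ≠ 0 := by
    rintro rfl
    exact h0 (map_zero D)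
  have hn : 0 < ‖D x‖ := norm_pos_iff.2 h0
  have hnx : 0 < ‖x‖ := norm_pos_iff.2 hx0
  obtain ⟨y, hy⟩ : ∃ y : H, y = ((‖x‖ / ‖D x‖ : ℝ) : ℂ) • D x := ⟨_, rfl⟩
  have hny : ‖y‖ = ‖x‖ := by
    rw [hy, norm_smul, Complex.norm_real, Real.norm_eq_abs, abs_of_nonneg (by positivity)]
    field_simp
  have h1 : (inner ℂ (D x) y).re = ‖x‖ * ‖D x‖ := by
    rw [hy, re_smul_right, re_self]
    field_simp
  have h2 : (inner ℂ (D (x + y)) (x + y)).re - (inner ℂ (D (x - y)) (x - y)).re =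
      4 * (inner ℂ (D x) y).re := by
    have e : (inner ℂ (D y) x).re = (inner ℂ (D x) y).re := by
      rw [hD y x, re_symm]
    rw [map_add, map_sub]
    simp only [inner_add_left, inner_add_right, inner_sub_left, inner_sub_right, Complex.add_re,
      Complex.sub_re]
    rw [e]
    ring
  have h3 := (abs_le.1 (h (x + y))).2
  have h4 := (abs_le.1 (h (x - y))).1
  have h5 := parallelogram_law_with_norm ℂ x y
  have h6 : ‖x‖ * ‖D x‖ ≤ M * ‖x‖ ^ 2 := by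
    rw [hny] at h5
    have h7 : M * (‖x + y‖ ^ 2 + ‖x - y‖ ^ 2) = M * (4 * ‖x‖ ^ 2) := by
      congr 1
      nlinarith
    nlinarith
  have h8 : ‖x‖ * ‖D x‖ ≤ ‖x‖ * (M * ‖x‖) := by
    calc ‖x‖ * ‖D x‖ ≤ M * ‖x‖ ^ 2 := h6
      _ = ‖x‖ * (M * ‖x‖) := by ring
  exact le_of_mul_le_mul_left h8 hnx

/-- the comparison of the quadratic forms -/
theorem form_cmp (T : H →L[ℂ] H) (hT : ∀ x y : H, inner ℂ (T x) y = inner ℂ x (T y)) {ε : ℝ}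
    (hε : 0 ≤ ε) (ht : ε * ‖T‖ ≤ 1 / 2) (u x : H) (hx : x = u + (ε : ℂ) • T u) :
    0 ≤ ‖u‖ ^ 2 - (‖x‖ ^ 2 - 2 * ε * (inner ℂ (T x) x).re) ∧
      ‖u‖ ^ 2 - (‖x‖ ^ 2 - 2 * ε * (inner ℂ (T x) x).re) ≤ 4 * ε ^ 2 * ‖T u‖ ^ 2 := by
  obtain ⟨w, hw⟩ : ∃ w, w = T u := ⟨_, rfl⟩
  rw [← hw] at hx
  have e0 : (inner ℂ u w).re = (inner ℂ w u).re := re_symm u w
  have e1 : ‖x‖ ^ 2 = ‖u‖ ^ 2 + 2 * ε * (inner ℂ w u).re + ε ^ 2 * ‖w‖ ^ 2 := by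
    rw [← re_self x, hx, re_add_left, re_add_right, re_add_right, re_smul_left, re_smul_left,
      re_smul_right, re_smul_right, re_self, re_self, e0]
    ring
  have e2 : (inner ℂ (T w) u).re = ‖w‖ ^ 2 := by
    rw [hT w u, ← hw, re_self]
  have e3 : (inner ℂ (T x) x).re = (inner ℂ w u).re + 2 * ε * ‖w‖ ^ 2 +
      ε ^ 2 * (inner ℂ (T w) w).re := by
    rw [hx, map_add, map_smul, ← hw, re_add_left, re_add_right, re_add_right, re_smul_left,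
      re_smul_left, re_smul_right, re_smul_right, re_self, e2]
    ring
  have e4 := abs_le.1 ((abs_re_le (T w) w).trans
    (mul_le_mul_of_nonneg_right (T.le_opNorm w) (norm_nonneg w)))
  have e5 : ‖u‖ ^ 2 - (‖x‖ ^ 2 - 2 * ε * (inner ℂ (T x) x).re) =
      3 * ε ^ 2 * ‖w‖ ^ 2 + 2 * ε ^ 3 * (inner ℂ (T w) w).re := by
    rw [e1, e3]
    ring
  have e6 : 2 * ε ^ 3 * |(inner ℂ (T w) w).re| ≤ ε ^ 2 * ‖w‖ ^ 2 := by
    have h1 : |(inner ℂ (T w) w).re| ≤ ‖T‖ * ‖w‖ * ‖w‖ :=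
      (abs_re_le (T w) w).trans (mul_le_mul_of_nonneg_right (T.le_opNorm w) (norm_nonneg w))
    calc 2 * ε ^ 3 * |(inner ℂ (T w) w).re| ≤ 2 * ε ^ 3 * (‖T‖ * ‖w‖ * ‖w‖) :=
          mul_le_mul_of_nonneg_left h1 (by positivity)
      _ = 2 * (ε * ‖T‖) * (ε ^ 2 * ‖w‖ ^ 2) := by ring
      _ ≤ 1 * (ε ^ 2 * ‖w‖ ^ 2) := mul_le_mul_of_nonneg_right (by linarith) (by positivity)
      _ = _ := one_mul _
  have e7 : |2 * ε ^ 3 * (inner ℂ (T w) w).re| ≤ ε ^ 2 * ‖w‖ ^ 2 := by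
    rw [abs_mul, abs_of_nonneg (by positivity : (0 : ℝ) ≤ 2 * ε ^ 3)]
    exact e6
  have e8 := abs_le.1 e7
  rw [e5, ← hw]
  constructor
  · nlinarith [sq_nonneg (ε * ‖w‖)]
  · nlinarith [sq_nonneg (ε * ‖w‖)]

/-- one value of the parameter -/
theorem core {G : Type} [Group G] [CompleteSpace H] (σ : G →* (H →L[ℂ] H)ˣ)
    (hσ : ∀ g, ((σ g : (H →L[ℂ] H)ˣ) : H →L[ℂ] H) ∈ unitary (H →L[ℂ] H))
    (T : H →L[ℂ] H) (hT : ∀ x y : H, inner ℂ (T x) y = inner ℂ x (T y)) {d ε c μ L B : ℝ}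
    (hε : 0 < ε) (ht : ε * ‖T‖ ≤ 1 / 2)
    (hd : ∀ g, ‖((σ g : (H →L[ℂ] H)ˣ) : H →L[ℂ] H) * T - T * ((σ g : (H →L[ℂ] H)ˣ) : H →L[ℂ] H)‖ ≤ d)
    (hc : ε * d ≤ (c - 1) * (1 - ε * ‖T‖))
    (hinv : ∀ π : G →* (H →L[ℂ] H)ˣ, (∃ M : ℝ, Inv π 1 M) → Bdd π c → Inv π 1 μ)
    (hL : L ≤ B) (hL0 : 0 ≤ L) (hμ : 1 ≤ μ)
    (hμB : 8 * ε * ‖T‖ ^ 2 + (μ - 1) * (1 + 10 * ε * ‖T‖) / (2 * ε) - L ≤ B) :
    ∃ C : H →L[ℂ] H, (∀ g, C * ((σ g : (H →L[ℂ] H)ˣ) : H →L[ℂ] H) =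
        ((σ g : (H →L[ℂ] H)ˣ) : H →L[ℂ] H) * C) ∧ ‖T - C‖ ≤ B := by
  have hd0 : 0 ≤ d := (norm_nonneg _).trans (hd 1)
  have hn : ‖-((ε : ℂ) • T)‖ < 1 := by
    rw [norm_neg, norm_smul, Complex.norm_real, Real.norm_eq_abs, abs_of_pos hε]
    linarith
  obtain ⟨R, hR⟩ : ∃ R : (H →L[ℂ] H)ˣ, ∀ x, (R : H →L[ℂ] H) x = x + (ε : ℂ) • T x := by
    refine ⟨Units.oneSub _ hn, fun x => ?_⟩
    rw [Units.val_oneSub]
    simp
  obtain ⟨Ri, hRi⟩ : ∃ Ri : H →L[ℂ] H, Ri = ((R⁻¹ : (H →L[ℂ] H)ˣ) : H →L[ℂ] H) := ⟨_, rfl⟩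
  have hRRi : ∀ x, (R : H →L[ℂ] H) (Ri x) = x := by
    intro x
    have := congrArg (fun f : H →L[ℂ] H => f x) (Units.mul_inv R)
    rw [hRi]
    exact this
  have hRiR : ∀ x, Ri ((R : H →L[ℂ] H) x) = x := by
    intro x
    have := congrArg (fun f : H →L[ℂ] H => f x) (Units.inv_mul R)
    rw [hRi]
    exact this
  have hRs : ∀ x y, inner ℂ ((R : H →L[ℂ] H) x) y = inner ℂ x ((R : H →L[ℂ] H) y) := by
    intro x y
    rw [hR, hR, inner_add_left, inner_add_right, inner_smul_left, inner_smul_right,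
      Complex.conj_ofReal, hT]
  have hRis : ∀ x y, inner ℂ (Ri x) y = inner ℂ x (Ri y) := by
    intro x y
    conv_lhs => rw [← hRRi y]
    rw [← hRs, hRRi]
  have h1t : (1 : ℝ) / 2 ≤ 1 - ε * ‖T‖ := by linarith
  have hRlow : ∀ x, (1 - ε * ‖T‖) * ‖x‖ ≤ ‖(R : H →L[ℂ] H) x‖ := by
    intro x
    have h1 : ‖x‖ ≤ ‖x + (ε : ℂ) • T x‖ + ‖(ε : ℂ) • T x‖ := by
      have := norm_sub_le (x + (ε : ℂ) • T x) ((ε : ℂ) • T x)
      rwa [add_sub_cancel_right] at this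
    have h2 : ‖(ε : ℂ) • T x‖ ≤ ε * (‖T‖ * ‖x‖) := by
      rw [norm_smul, Complex.norm_real, Real.norm_eq_abs, abs_of_pos hε]
      exact mul_le_mul_of_nonneg_left (T.le_opNorm x) hε.le
    rw [hR]
    linarith
  have hRilow : ∀ x, (1 - ε * ‖T‖) * ‖Ri x‖ ≤ ‖x‖ := by
    intro x
    have := hRlow (Ri x)
    rwa [hRRi] at this
  -- the unitary operators
  have hU : ∀ g x y, inner ℂ (((σ g : (H →L[ℂ] H)ˣ) : H →L[ℂ] H) x)
      (((σ g : (H →L[ℂ] H)ˣ) : H →L[ℂ] H) y) = inner ℂ x y := by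
    intro g x y
    have h1 := (Unitary.mem_iff.1 (hσ g)).1
    have h2 : (star ((σ g : (H →L[ℂ] H)ˣ) : H →L[ℂ] H)) (((σ g : (H →L[ℂ] H)ˣ) : H →L[ℂ] H) y) = y := by
      have := congrArg (fun f : H →L[ℂ] H => f y) h1
      exact this
    rw [ContinuousLinearMap.star_eq_adjoint] at h2
    rw [← ContinuousLinearMap.adjoint_inner_right, h2]
  have hUn : ∀ g x, ‖((σ g : (H →L[ℂ] H)ˣ) : H →L[ℂ] H) x‖ = ‖x‖ := by
    intro g x
    have h1 := congrArg Complex.re (hU g x x)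
    rw [re_self, re_self] at h1
    exact (sq_eq_sq₀ (norm_nonneg _) (norm_nonneg _)).1 h1
  have hUs : ∀ g y, ∃ x, ((σ g : (H →L[ℂ] H)ˣ) : H →L[ℂ] H) x = y := by
    intro g y
    refine ⟨(((σ g)⁻¹ : (H →L[ℂ] H)ˣ) : H →L[ℂ] H) y, ?_⟩
    have := congrArg (fun f : H →L[ℂ] H => f y) (Units.mul_inv (σ g))
    exact this
  -- the conjugate representation
  obtain ⟨π, hπ⟩ : ∃ π : G →* (H →L[ℂ] H)ˣ, ∀ g x, ((π g : (H →L[ℂ] H)ˣ) : H →L[ℂ] H) x =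
      Ri (((σ g : (H →L[ℂ] H)ˣ) : H →L[ℂ] H) ((R : H →L[ℂ] H) x)) := by
    refine ⟨(MulAut.conj R⁻¹).toMonoidHom.comp σ, fun g x => ?_⟩
    have h1 : ((MulAut.conj R⁻¹).toMonoidHom.comp σ) g = R⁻¹ * σ g * R := by
      show R⁻¹ * σ g * R⁻¹⁻¹ = _
      rw [inv_inv]
    rw [h1, hRi]
    rfl
  have hc1 : 1 ≤ c := by
    by_contra h
    push Not at h
    have h1 : 0 ≤ ε * d := by positivity
    nlinarith
  have hBdd : Bdd π c := by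
    intro g
    refine ContinuousLinearMap.opNorm_le_bound _ (by linarith) fun x => ?_
    rw [hπ]
    obtain ⟨Δ, hΔ⟩ : ∃ Δ : H, Δ = ((σ g : (H →L[ℂ] H)ˣ) : H →L[ℂ] H) (T x) -
      T (((σ g : (H →L[ℂ] H)ˣ) : H →L[ℂ] H) x) := ⟨_, rfl⟩
    have h1 : ((σ g : (H →L[ℂ] H)ˣ) : H →L[ℂ] H) ((R : H →L[ℂ] H) x) =
        (R : H →L[ℂ] H) (((σ g : (H →L[ℂ] H)ˣ) : H →L[ℂ] H) x) + (ε : ℂ) • Δ := by
      rw [hR, hR, map_add, map_smul, hΔ, smul_sub]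
      abel
    have h2 : ‖Δ‖ ≤ d * ‖x‖ := by
      have h3 : Δ = (((σ g : (H →L[ℂ] H)ˣ) : H →L[ℂ] H) * T -
          T * ((σ g : (H →L[ℂ] H)ˣ) : H →L[ℂ] H)) x := by rw [hΔ]; rfl
      rw [h3]
      exact (ContinuousLinearMap.le_opNorm _ x).trans
        (mul_le_mul_of_nonneg_right (hd g) (norm_nonneg x))
    rw [h1, map_add, hRiR, map_smul]
    have h3 := hRilow Δ
    have h4 : ε * ‖Ri Δ‖ ≤ (c - 1) * ‖x‖ := by
      have h5 : (1 - ε * ‖T‖) * (ε * ‖Ri Δ‖) ≤ (1 - ε * ‖T‖) * ((c - 1) * ‖x‖) := by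
        calc (1 - ε * ‖T‖) * (ε * ‖Ri Δ‖) = ε * ((1 - ε * ‖T‖) * ‖Ri Δ‖) := by ring
          _ ≤ ε * (d * ‖x‖) := mul_le_mul_of_nonneg_left (h3.trans h2) hε.le
          _ = (ε * d) * ‖x‖ := by ring
          _ ≤ ((c - 1) * (1 - ε * ‖T‖)) * ‖x‖ := mul_le_mul_of_nonneg_right hc (norm_nonneg x)
          _ = _ := by ring
      exact le_of_mul_le_mul_left h5 (by linarith)
    calc ‖((σ g : (H →L[ℂ] H)ˣ) : H →L[ℂ] H) x + (ε : ℂ) • Ri Δ‖ ≤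
        ‖((σ g : (H →L[ℂ] H)ˣ) : H →L[ℂ] H) x‖ + ‖(ε : ℂ) • Ri Δ‖ := norm_add_le _ _
      _ = ‖x‖ + ε * ‖Ri Δ‖ := by
          rw [hUn, norm_smul, Complex.norm_real, Real.norm_eq_abs, abs_of_pos hε]
      _ ≤ c * ‖x‖ := by linarith
  have hInv0 : ∃ M : ℝ, Inv π 1 M := by
    refine ⟨4 * ‖(R : H →L[ℂ] H)‖ ^ 2, ((4 : ℝ) : ℂ) • ((R : H →L[ℂ] H) * (R : H →L[ℂ] H)), ?_, ?_, ?_, ?_⟩
    · intro x y
      show inner ℂ (((4 : ℝ) : ℂ) • (R : H →L[ℂ] H) ((R : H →L[ℂ] H) x)) y =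
        inner ℂ x (((4 : ℝ) : ℂ) • (R : H →L[ℂ] H) ((R : H →L[ℂ] H) y))
      rw [inner_smul_left, inner_smul_right, Complex.conj_ofReal, hRs, hRs]
    · intro x
      show _ ≤ (inner ℂ (((4 : ℝ) : ℂ) • (R : H →L[ℂ] H) ((R : H →L[ℂ] H) x)) x).re
      rw [re_smul_left, hRs, re_self]
      have h1 := hRlow x
      have h2 : ‖x‖ ≤ 2 * ‖(R : H →L[ℂ] H) x‖ := by
        have := mul_le_mul_of_nonneg_right h1t (norm_nonneg x)
        linarith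
      have h3 := norm_nonneg x
      nlinarith
    · intro x
      show (inner ℂ (((4 : ℝ) : ℂ) • (R : H →L[ℂ] H) ((R : H →L[ℂ] H) x)) x).re ≤ _
      rw [re_smul_left, hRs, re_self]
      have h1 := (R : H →L[ℂ] H).le_opNorm x
      have h2 : ‖(R : H →L[ℂ] H) x‖ ^ 2 ≤ (‖(R : H →L[ℂ] H)‖ * ‖x‖) ^ 2 :=
        pow_le_pow_left₀ (norm_nonneg _) h1 2
      rw [mul_pow] at h2
      linarith
    · intro g x y
      show inner ℂ (((4 : ℝ) : ℂ) • (R : H →L[ℂ] H) ((R : H →L[ℂ] H) _)) _ =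
        inner ℂ (((4 : ℝ) : ℂ) • (R : H →L[ℂ] H) ((R : H →L[ℂ] H) x)) y
      rw [inner_smul_left, inner_smul_left, hRs _ (((π g : (H →L[ℂ] H)ˣ) : H →L[ℂ] H) y),
        hRs ((R : H →L[ℂ] H) x) y, hπ, hπ, hRRi, hRRi, hU]
  obtain ⟨A, hA1, hA2, hA3, hA4⟩ := hinv π hInv0 hBdd
  obtain ⟨Z, hZ⟩ : ∃ Z : H →L[ℂ] H, ∀ x, Z x = Ri (A (Ri x)) := ⟨Ri * A * Ri, fun x => rfl⟩
  have hZi : ∀ x y, inner ℂ (Z x) y = inner ℂ (A (Ri x)) (Ri y) := by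
    intro x y
    rw [hZ, hRis]
  have hZs : ∀ x y, inner ℂ (Z x) y = inner ℂ x (Z y) := by
    intro x y
    rw [hZi, hA1, hZ y, hRis]
  have hπR : ∀ g x, Ri (((σ g : (H →L[ℂ] H)ˣ) : H →L[ℂ] H) x) =
      ((π g : (H →L[ℂ] H)ˣ) : H →L[ℂ] H) (Ri x) := by
    intro g x
    rw [hπ, hRRi]
  have hZu : ∀ g x, Z (((σ g : (H →L[ℂ] H)ˣ) : H →L[ℂ] H) x) =
      ((σ g : (H →L[ℂ] H)ˣ) : H →L[ℂ] H) (Z x) := by
    intro g x
    refine ext_inner_right ℂ fun y => ?_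
    obtain ⟨y', rfl⟩ := hUs g y
    rw [hU, hZi, hπR, hπR, hA4, hZi]
  obtain ⟨C, hC⟩ : ∃ C : H →L[ℂ] H, ∀ x, C x = (((2 * ε)⁻¹ : ℝ) : ℂ) • (x - Z x) + (L : ℂ) • x :=
    ⟨(((2 * ε)⁻¹ : ℝ) : ℂ) • (1 - Z) + (L : ℂ) • 1, fun x => rfl⟩
  refine ⟨C, ?_, ?_⟩
  · intro g
    ext x
    show C (((σ g : (H →L[ℂ] H)ˣ) : H →L[ℂ] H) x) = ((σ g : (H →L[ℂ] H)ˣ) : H →L[ℂ] H) (C x)
    rw [hC, hC, hZu, map_add, map_smul, map_smul, map_sub]
  · refine norm_le_of_form (T - C) ?_ B (hL0.trans hL) ?_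
    · intro x y
      show inner ℂ (T x - C x) y = inner ℂ x (T y - C y)
      rw [inner_sub_left, inner_sub_right, hT, hC, hC, inner_add_left, inner_add_right,
        inner_smul_left, inner_smul_left, inner_smul_right, inner_smul_right, Complex.conj_ofReal,
        Complex.conj_ofReal, inner_sub_left, inner_sub_right, hZs]
    · intro x
      obtain ⟨a, ha⟩ : ∃ a : ℝ, a = (inner ℂ (T x) x).re := ⟨_, rfl⟩
      obtain ⟨z, hz⟩ : ∃ z : ℝ, z = (inner ℂ (Z x) x).re := ⟨_, rfl⟩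
      have hform : (inner ℂ ((T - C) x) x).re = a - ((2 * ε)⁻¹ * (‖x‖ ^ 2 - z) + L * ‖x‖ ^ 2) := by
        show (inner ℂ (T x - C x) x).re = _
        rw [re_sub_left, hC, re_add_left, re_smul_left, re_smul_left, re_sub_left, re_self, ha, hz]
      have hcmp := form_cmp T hT hε.le ht (Ri x) x (by rw [← hR, hRRi])
      rw [← ha] at hcmp
      obtain ⟨hc2, hc3⟩ := hcmp
      have hz1 : ‖Ri x‖ ^ 2 ≤ z := by
        have := hA2 (Ri x)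
        rw [hz, hZi]
        linarith
      have hz2 : z ≤ μ * ‖Ri x‖ ^ 2 := by
        rw [hz, hZi]
        exact hA3 (Ri x)
      have hRi2 : ‖Ri x‖ ≤ 2 * ‖x‖ := by
        have h1 := hRilow x
        have h2 := mul_le_mul_of_nonneg_right h1t (norm_nonneg (Ri x))
        linarith
      have hTRi : ‖T (Ri x)‖ ^ 2 ≤ 4 * ‖T‖ ^ 2 * ‖x‖ ^ 2 := by
        have h1 : ‖T (Ri x)‖ ≤ ‖T‖ * (2 * ‖x‖) :=
          (T.le_opNorm _).trans (mul_le_mul_of_nonneg_left hRi2 (norm_nonneg T))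
        have h2 := pow_le_pow_left₀ (norm_nonneg _) h1 2
        calc ‖T (Ri x)‖ ^ 2 ≤ (‖T‖ * (2 * ‖x‖)) ^ 2 := h2
          _ = _ := by ring
      have hab : |a| ≤ ‖T‖ * ‖x‖ ^ 2 := by
        rw [ha]
        refine (abs_re_le (T x) x).trans ?_
        have := mul_le_mul_of_nonneg_right (T.le_opNorm x) (norm_nonneg x)
        calc ‖T x‖ * ‖x‖ ≤ ‖T‖ * ‖x‖ * ‖x‖ := this
          _ = _ := by ring
      have hab' := abs_le.1 hab
      obtain ⟨n, hn'⟩ : ∃ n : ℝ, n = ‖x‖ ^ 2 := ⟨_, rfl⟩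
      obtain ⟨w, hw⟩ : ∃ w : ℝ, w = ‖Ri x‖ ^ 2 := ⟨_, rfl⟩
      have hn0 : 0 ≤ n := by rw [hn']; positivity
      rw [← hn', ← hw] at hc2 hc3
      rw [← hn'] at hTRi hab'
      rw [← hw] at hz1 hz2
      have hw2 : w ≤ n - 2 * ε * a + 16 * ε ^ 2 * ‖T‖ ^ 2 * n := by
        have h1 : 4 * ε ^ 2 * ‖T (Ri x)‖ ^ 2 ≤ 4 * ε ^ 2 * (4 * ‖T‖ ^ 2 * n) :=
          mul_le_mul_of_nonneg_left hTRi (by positivity)
        nlinarith
      have ht0 : 0 ≤ ε * ‖T‖ := by positivity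
      have hw3 : w ≤ n * (1 + 10 * ε * ‖T‖) := by
        have h1 : -(2 * ε * a) ≤ 2 * (ε * ‖T‖) * n := by
          have := mul_le_mul_of_nonneg_left hab'.1 (by positivity : (0 : ℝ) ≤ 2 * ε)
          nlinarith
        have h2 : 16 * ε ^ 2 * ‖T‖ ^ 2 * n ≤ 8 * (ε * ‖T‖) * n := by
          have h3 : (ε * ‖T‖) * (ε * ‖T‖) ≤ (ε * ‖T‖) * (1 / 2) := mul_le_mul_of_nonneg_left ht ht0
          nlinarith
        nlinarith
      rw [hform, ← hn', abs_le]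
      have hε2 : 0 < 2 * ε := by positivity
      constructor
      · have h1 : (2 * ε)⁻¹ * (n - z) ≤ a := by
          rw [inv_mul_le_iff₀ hε2]
          linarith
        nlinarith
      · have h1 : z ≤ n - 2 * ε * a + 16 * ε ^ 2 * ‖T‖ ^ 2 * n + (μ - 1) * (n * (1 + 10 * ε * ‖T‖)) := by
          have h2 : (μ - 1) * w ≤ (μ - 1) * (n * (1 + 10 * ε * ‖T‖)) :=
            mul_le_mul_of_nonneg_left hw3 (by linarith)
          nlinarith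
        have h3 : a - (8 * ε * ‖T‖ ^ 2 * n + (μ - 1) * (1 + 10 * ε * ‖T‖) / (2 * ε) * n) ≤
            (2 * ε)⁻¹ * (n - z) := by
          rw [le_inv_mul_iff₀ hε2]
          have e : 2 * ε * (a - (8 * ε * ‖T‖ ^ 2 * n + (μ - 1) * (1 + 10 * ε * ‖T‖) / (2 * ε) * n)) =
              2 * ε * a - 16 * ε ^ 2 * ‖T‖ ^ 2 * n - (μ - 1) * (n * (1 + 10 * ε * ‖T‖)) := by
            field_simp
            ring
          rw [e]
          linarith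
        have h4 := mul_le_mul_of_nonneg_right hμB hn0
        nlinarith

/-- the exponential bound -/
theorem exp_bound {y : ℝ} (h0 : 0 ≤ y) (h1 : y ≤ 1) : Real.exp y - 1 ≤ y + y ^ 2 := by
  have h := Real.abs_exp_sub_one_sub_id_le (x := y) (by rw [abs_of_nonneg h0]; exact h1)
  have := (abs_le.1 h).2
  linarith

/-- the numerical choice of the parameter -/
theorem params (K d t κ : ℝ) (hK : 0 ≤ K) (hd : 0 ≤ d) (ht : 0 ≤ t) (hκ : 0 < κ) :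
    ∃ η δ : ℝ, 0 < η ∧ 0 < δ ∧ ∀ c : ℝ, 1 < c → c < 1 + δ →
      ∃ ε : ℝ, 0 < ε ∧ ε * t ≤ 1 / 2 ∧ ε * d ≤ (c - 1) * (1 - ε * t) ∧ 1 ≤ c ^ (4 * K) ∧
        8 * ε * t ^ 2 + (c ^ (4 * K) - 1) * (1 + 10 * ε * t) / (2 * ε) - K * (d + η) ≤
          K * d + κ ∧ K * (d + η) ≤ K * d + κ := by
  obtain ⟨η, hη⟩ : ∃ η : ℝ, η = κ / (2 * (K + 1)) := ⟨_, rfl⟩
  have hη0 : 0 < η := by rw [hη]; positivity
  have hKη : K * η ≤ κ / 2 := by
    rw [hη, mul_div_assoc', div_le_div_iff₀ (by positivity) (by norm_num)]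
    nlinarith
  obtain ⟨L, hL⟩ : ∃ L : ℝ, L = K * (d + η) := ⟨_, rfl⟩
  have hL0 : 0 ≤ L := by rw [hL]; positivity
  obtain ⟨Q, hQ⟩ : ∃ Q : ℝ, Q = 8 * t ^ 2 + 48 * L ^ 2 + 20 * t * L := ⟨_, rfl⟩
  have hQ0 : 0 ≤ Q := by rw [hQ]; positivity
  obtain ⟨e0, he0⟩ : ∃ e0 : ℝ, e0 = 1 / (2 * t + (d + η) * t / η + 4 * L + 2 * Q / κ + 1) :=
    ⟨_, rfl⟩
  have hp1 : 0 ≤ 2 * t := by positivity
  have hp2 : 0 ≤ (d + η) * t / η := by positivity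
  have hp3 : 0 ≤ 4 * L := by positivity
  have hp4 : 0 ≤ 2 * Q / κ := by positivity
  have he00 : 0 < e0 := by rw [he0]; positivity
  have he1 : e0 * (2 * t + (d + η) * t / η + 4 * L + 2 * Q / κ + 1) = 1 := by
    rw [he0]
    field_simp
  refine ⟨η, (d + η) * e0, hη0, by positivity, fun c hc1 hc2 => ?_⟩
  have hlog : 0 < Real.log c := Real.log_pos hc1
  obtain ⟨ε, hε⟩ : ∃ ε : ℝ, ε = Real.log c / (d + η) := ⟨_, rfl⟩
  have hdη : 0 < d + η := by positivity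
  have hε0 : 0 < ε := by rw [hε]; positivity
  have hεd : ε * (d + η) = Real.log c := by
    rw [hε]
    field_simp
  have hlog2 : Real.log c ≤ c - 1 := Real.log_le_sub_one_of_pos (by linarith)
  have hεe : ε ≤ e0 := by
    have h1 : (d + η) * ε ≤ (d + η) * e0 := by
      rw [mul_comm (d + η) ε, hεd]
      linarith
    exact le_of_mul_le_mul_left h1 hdη
  have hsum : ε * (2 * t + (d + η) * t / η + 4 * L + 2 * Q / κ + 1) ≤ 1 :=
    (mul_le_mul_of_nonneg_right hεe (by positivity)).trans_eq he1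
  have hb1 : ε * (2 * t) ≤ 1 := by nlinarith
  have hb2 : ε * ((d + η) * t / η) ≤ 1 := by nlinarith
  have hb3 : ε * (4 * L) ≤ 1 := by nlinarith
  have hb4 : ε * (2 * Q / κ) ≤ 1 := by nlinarith
  have ht2 : ε * t ≤ 1 / 2 := by linarith
  have hb2' : ε * ((d + η) * t) ≤ η := by
    have h1 : ε * ((d + η) * t / η) = ε * ((d + η) * t) / η := by ring
    rw [h1, div_le_one hη0] at hb2
    exact hb2
  have hb4' : ε * Q ≤ κ / 2 := by
    have h1 : ε * (2 * Q / κ) = ε * (2 * Q) / κ := by ring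
    rw [h1, div_le_one hκ] at hb4
    linarith
  have hμ : c ^ (4 * K) = Real.exp (4 * ε * L) := by
    rw [Real.rpow_def_of_pos (by linarith), ← hεd, hL]
    congr 1
    ring
  have hy0 : 0 ≤ 4 * ε * L := by positivity
  have hy1 : 4 * ε * L ≤ 1 := by linarith
  have hexp := exp_bound hy0 hy1
  refine ⟨ε, hε0, ht2, ?_, ?_, ?_, ?_⟩
  · have h1 : ε * (d + η) * (1 - ε * t) ≤ (c - 1) * (1 - ε * t) :=
      mul_le_mul_of_nonneg_right (by rw [hεd]; exact hlog2) (by linarith)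
    have h2 : ε * d ≤ ε * (d + η) * (1 - ε * t) := by
      have h3 : ε * (ε * ((d + η) * t)) ≤ ε * η := mul_le_mul_of_nonneg_left hb2' hε0.le
      nlinarith
    linarith
  · rw [hμ]
    exact Real.one_le_exp hy0
  · rw [hμ]
    have h1 : (Real.exp (4 * ε * L) - 1) * (1 + 10 * ε * t) / (2 * ε) ≤
        (4 * ε * L + (4 * ε * L) ^ 2) * (1 + 10 * ε * t) / (2 * ε) := by
      gcongr
    have h2 : (4 * ε * L + (4 * ε * L) ^ 2) * (1 + 10 * ε * t) / (2 * ε) =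
        (2 * L + 8 * ε * L ^ 2) * (1 + 10 * ε * t) := by
      field_simp
      ring
    have h3 : (2 * L + 8 * ε * L ^ 2) * (1 + 10 * ε * t) ≤ 2 * L + ε * (48 * L ^ 2 + 20 * t * L) := by
      have h4 : (8 * ε * L ^ 2) * (10 * (ε * t)) ≤ (8 * ε * L ^ 2) * (10 * (1 / 2)) :=
        mul_le_mul_of_nonneg_left (by linarith) (by positivity)
      nlinarith
    have h5 : 8 * ε * t ^ 2 + (Real.exp (4 * ε * L) - 1) * (1 + 10 * ε * t) / (2 * ε) ≤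
        2 * L + ε * Q := by
      rw [hQ]
      rw [h2] at h1
      nlinarith
    rw [← hL]
    have h6 : L ≤ K * d + κ / 2 := by
      rw [hL]
      linarith
    linarith
  · linarith

/-- distance to the commutant, self-adjoint case -/
theorem dist_selfadjoint {G : Type} [Group G] (K : ℝ) (hK : 0 ≤ K)
    (hgood : ∀ δ : ℝ, 0 < δ → ∃ c : ℝ, 1 < c ∧ c < 1 + δ ∧
      ∀ (H : Type) [NormedAddCommGroup H] [InnerProductSpace ℂ H] [CompleteSpace H]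
        (π : G →* (H →L[ℂ] H)ˣ), (∃ M : ℝ, Inv π 1 M) → Bdd π c → Inv π 1 (c ^ (4 * K))) :
    ∀ (H : Type) [NormedAddCommGroup H] [InnerProductSpace ℂ H] [CompleteSpace H]
      (σ : G →* (H →L[ℂ] H)ˣ), (∀ g, ((σ g : (H →L[ℂ] H)ˣ) : H →L[ℂ] H) ∈ unitary (H →L[ℂ] H)) →
      ∀ (T : H →L[ℂ] H) (d : ℝ), IsSelfAdjoint T →
      (∀ g, ‖((σ g : (H →L[ℂ] H)ˣ) : H →L[ℂ] H) * T - T * ((σ g : (H →L[ℂ] H)ˣ) : H →L[ℂ] H)‖ ≤ d) →
      Metric.infDist T {C : H →L[ℂ] H | ∀ g, C * ((σ g : (H →L[ℂ] H)ˣ) : H →L[ℂ] H) =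
        ((σ g : (H →L[ℂ] H)ˣ) : H →L[ℂ] H) * C} ≤ K * d := by
  intro H _ _ _ σ hσ T d hT hd
  have hd0 : 0 ≤ d := (norm_nonneg _).trans (hd 1)
  have hTs : ∀ x y : H, inner ℂ (T x) y = inner ℂ x (T y) :=
    fun x y => (ContinuousLinearMap.isSelfAdjoint_iff_isSymmetric.mp hT) x y
  refine le_of_forall_pos_le_add fun κ hκ => ?_
  obtain ⟨η, δ, hη, hδ, hall⟩ := params K d ‖T‖ κ hK hd0 (norm_nonneg T) hκ
  obtain ⟨c, hc1, hc2, hc3⟩ := hgood δ hδ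
  obtain ⟨ε, hε, h1, h2, h3, h4, h5⟩ := hall c hc1 hc2
  obtain ⟨C, hC, hTC⟩ := core σ hσ T hTs hε h1 hd h2 (fun π h h' => hc3 H π h h') h5
    (by positivity) h3 h4
  have hmem : C ∈ {C : H →L[ℂ] H | ∀ g, C * ((σ g : (H →L[ℂ] H)ˣ) : H →L[ℂ] H) =
      ((σ g : (H →L[ℂ] H)ˣ) : H →L[ℂ] H) * C} := hC
  refine (Metric.infDist_le_dist_of_mem hmem).trans ?_
  rw [dist_eq_norm]
  exact hTC

end Pool.Agent.TH620.J4638
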