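import Pool.Agent.Helper113.Gorin.Defs
import Pool.Agent.Helper540.Holo

set_option autoImplicit false

open Metric Set Topology H113G

namespace TH620J174

theorem hasCharts {m : ℕ} {Y : Set (Fin m → ℂ)} (hY : IsSmooth Y) : HasCharts Y := by
  intro p hp N hN
  obtain ⟨U, hU, hpU, k, F, hF, hsurj, hYU⟩ := hY p hp
  have hC : ContDiffOn ℂ 1 F U := by
    have := Pool.Agent.Helper540.contDiffOn_of_differentiableOn hU hF 1
    exact_mod_cast this
  obtain ⟨K, hK⟩ : ∃ K : Submodule ℂ (Fin m → ℂ), ∀ x, x ∈ K ↔ fderiv ℂ F p x = 0 :=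
    ⟨LinearMap.ker ((fderiv ℂ F p : (Fin m → ℂ) →L[ℂ] (Fin k → ℂ)) :
      (Fin m → ℂ) →ₗ[ℂ] (Fin k → ℂ)), fun x => LinearMap.mem_ker⟩
  obtain ⟨P, hP⟩ := Submodule.ClosedComplemented.of_finiteDimensional K
  obtain ⟨n, hn⟩ : ∃ n, Module.finrank ℂ K = n := ⟨_, rfl⟩
  let e : K ≃L[ℂ] (Fin n → ℂ) := ContinuousLinearEquiv.ofFinrankEq (by simp [hn])
  let π : (Fin m → ℂ) →L[ℂ] (Fin n → ℂ) := (e : K →L[ℂ] (Fin n → ℂ)).comp P
  let G : (Fin m → ℂ) → (Fin k → ℂ) × (Fin n → ℂ) := fun x => (F x, π (x - p))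
  have hGd : ∀ x ∈ U, HasFDerivAt G ((fderiv ℂ F x).prod π) x := by
    intro x hx
    have h1 : HasFDerivAt F (fderiv ℂ F x) x := (hF.differentiableAt (hU.mem_nhds hx)).hasFDerivAt
    have h2 : HasFDerivAt (fun x => π (x - p)) π x := by
      have := π.hasFDerivAt.comp x ((hasFDerivAt_id x).sub_const p)
      simpa using this
    exact h1.prodMk h2
  have hGC : ContDiffOn ℂ 1 G U := by
    apply hC.prodMk
    exact (π.contDiff.comp (contDiff_id.sub contDiff_const)).contDiffOn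
  have hGCat : ∀ x ∈ U, ContDiffAt ℂ 1 G x := fun x hx => hGC.contDiffAt (hU.mem_nhds hx)
  have hbij : Function.Bijective ((fderiv ℂ F p).prod π) := by
    constructor
    · rw [injective_iff_map_eq_zero]
      intro x hx
      have h1 : fderiv ℂ F p x = 0 := congrArg Prod.fst hx
      have h2 : π x = 0 := congrArg Prod.snd hx
      have h3 : P x = 0 := by
        apply e.injective
        simpa [π] using h2
      have h4 := hP ⟨x, (hK x).mpr h1⟩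
      rw [show P ((⟨x, (hK x).mpr h1⟩ : K) : Fin m → ℂ) = 0 from h3] at h4
      exact (congrArg Subtype.val h4).symm
    · rintro ⟨a, b⟩
      obtain ⟨x, hx⟩ := hsurj p hpU a
      let z : K := e.symm (b - π x)
      refine ⟨x + z, ?_⟩
      have h1 : fderiv ℂ F p (z : Fin m → ℂ) = 0 := (hK _).mp z.2
      have h2 : π (z : Fin m → ℂ) = b - π x := by
        change e (P (z : Fin m → ℂ)) = _
        rw [hP z]
        exact e.apply_symm_apply _
      apply Prod.ext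
      · change fderiv ℂ F p (x + z) = a
        rw [map_add, h1, hx, add_zero]
      · change π (x + z) = b
        rw [map_add, h2]
        abel
  let L : (Fin m → ℂ) ≃L[ℂ] (Fin k → ℂ) × (Fin n → ℂ) :=
    ContinuousLinearEquiv.ofBijective ((fderiv ℂ F p).prod π)
      (LinearMap.ker_eq_bot.mpr hbij.1) (LinearMap.range_eq_top.mpr hbij.2)
  have hL : HasFDerivAt G (L : (Fin m → ℂ) →L[ℂ] (Fin k → ℂ) × (Fin n → ℂ)) p := by
    have : (L : (Fin m → ℂ) →L[ℂ] (Fin k → ℂ) × (Fin n → ℂ)) = (fderiv ℂ F p).prod π := by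
      ext x : 1
      rfl
    rw [this]
    exact hGd p hpU
  let Φ := (hGCat p hpU).toOpenPartialHomeomorph G hL one_ne_zero
  have hΦc : (Φ : (Fin m → ℂ) → _) = G := ContDiffAt.toOpenPartialHomeomorph_coe _ _ _
  have hpΦ : p ∈ Φ.source := ContDiffAt.mem_toOpenPartialHomeomorph_source _ _ _
  -- the good open set
  have hcontf : ContinuousOn (fderiv ℂ G) U := hGC.continuousOn_fderiv_of_isOpen hU le_rfl
  let R : Set ((Fin m → ℂ) →L[ℂ] (Fin k → ℂ) × (Fin n → ℂ)) :=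
    range ((↑) : ((Fin m → ℂ) ≃L[ℂ] (Fin k → ℂ) × (Fin n → ℂ)) → _)
  have hR : IsOpen R := ContinuousLinearEquiv.isOpen
  let S : Set (Fin m → ℂ) := Φ.source ∩ ((U ∩ (fderiv ℂ G) ⁻¹' R) ∩ interior N)
  have hS : IsOpen S := Φ.open_source.inter ((hcontf.isOpen_inter_preimage hU hR).inter isOpen_interior)
  have hpS : p ∈ S := by
    refine ⟨hpΦ, ⟨hpU, ?_⟩, mem_interior_iff_mem_nhds.mpr hN⟩
    change fderiv ℂ G p ∈ R
    rw [hL.fderiv]
    exact ⟨L, rfl⟩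
  have hSs : S ⊆ Φ.source := inter_subset_left
  have hT : IsOpen (Φ '' S) := Φ.isOpen_image_of_subset_source hS hSs
  have hpT : (0, 0) ∈ Φ '' S := by
    refine ⟨p, hpS, ?_⟩
    rw [hΦc]
    have : p ∈ U ∩ F ⁻¹' {0} := hYU ▸ ⟨hp, hpU⟩
    apply Prod.ext
    · exact this.2
    · change π (p - p) = 0
      simp
  obtain ⟨ρ, hρ, hball⟩ := Metric.isOpen_iff.mp hT _ hpT
  have hin : ∀ y : Fin n → ℂ, ‖y‖ < ρ → ((0 : Fin k → ℂ), y) ∈ Φ '' S := by
    intro y hy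
    apply hball
    rw [mem_ball, dist_eq_norm]
    simpa [Prod.norm_def] using hy
  have hsy : ∀ y : Fin n → ℂ, ‖y‖ < ρ → Φ.symm ((0 : Fin k → ℂ), y) ∈ S ∧
      G (Φ.symm ((0 : Fin k → ℂ), y)) = (0, y) ∧ ((0 : Fin k → ℂ), y) ∈ Φ.target := by
    intro y hy
    obtain ⟨x, hx, hxy⟩ := hin y hy
    have h1 : ((0 : Fin k → ℂ), y) ∈ Φ.target := by
      rw [← hxy]; exact Φ.map_source (hSs hx)
    refine ⟨?_, ?_, h1⟩
    · rw [← hxy, Φ.left_inv (hSs hx)]; exact hx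
    · rw [← hΦc]; exact Φ.right_inv h1
  have hsm : ∀ x : Fin n → ℂ, x ∈ ball (0 : Fin n → ℂ) 1 → ‖(ρ : ℂ) • x‖ < ρ := by
    intro x hx
    rw [norm_smul, Complex.norm_real, Real.norm_of_nonneg hρ.le]
    have : ‖x‖ < 1 := by simpa using hx
    nlinarith
  have hρ' : (ρ : ℂ) ≠ 0 := by exact_mod_cast hρ.ne'
  have hdπ : Continuous fun y : Fin m → ℂ => π (y - p) := by fun_prop
  refine ⟨n, fun x => Φ.symm (0, (ρ : ℂ) • x), fun y => (ρ : ℂ)⁻¹ • π (y - p),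
    S ∩ {x | ‖π (x - p)‖ < ρ}, hS.inter (isOpen_lt hdπ.norm continuous_const), ⟨hpS, ?_⟩, ?_,
    ?_, ?_, ?_, ?_, ?_⟩
  · change ‖π (p - p)‖ < ρ
    simpa using hρ
  · intro x hx
    exact interior_subset hx.1.2.2
  · intro x hx
    apply DifferentiableAt.differentiableWithinAt
    obtain ⟨h1, h2, h3⟩ := hsy _ (hsm x hx)
    have h4 : ContDiffAt ℂ 1 Φ.symm ((0 : Fin k → ℂ), (ρ : ℂ) • x) := by
      obtain ⟨L', hL'⟩ := h1.2.1.2
      have h5 : HasFDerivAt Φ (L' : (Fin m → ℂ) →L[ℂ] (Fin k → ℂ) × (Fin n → ℂ))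
          (Φ.symm ((0 : Fin k → ℂ), (ρ : ℂ) • x)) := by
        rw [hΦc, hL']
        exact ((hGd _ h1.2.1.1).differentiableAt).hasFDerivAt
      refine Φ.contDiffAt_symm h3 h5 ?_
      rw [hΦc]
      exact hGCat _ h1.2.1.1
    have h6 : DifferentiableAt ℂ Φ.symm ((0 : Fin k → ℂ), (ρ : ℂ) • x) :=
      h4.differentiableAt one_ne_zero
    have h7 : DifferentiableAt ℂ (fun x : Fin n → ℂ => ((0 : Fin k → ℂ), (ρ : ℂ) • x)) x := by
      fun_prop
    exact h6.comp x h7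
  · change Φ.symm (0, (ρ : ℂ) • (0 : Fin n → ℂ)) = p
    rw [smul_zero]
    obtain ⟨x, hx, hxy⟩ := hpT
    have : Φ p = (0, 0) := by
      rw [hΦc]
      have : p ∈ U ∩ F ⁻¹' {0} := hYU ▸ ⟨hp, hpU⟩
      apply Prod.ext
      · exact this.2
      · change π (p - p) = 0
        simp
    rw [← this]
    exact Φ.left_inv hpΦ
  · ext y
    constructor
    · rintro ⟨x, hx, rfl⟩
      obtain ⟨h1, h2, h3⟩ := hsy _ (hsm x hx)
      have hYU' : Φ.symm (0, (ρ : ℂ) • x) ∈ Y ∩ U := by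
        rw [hYU]
        exact ⟨h1.2.1.1, congrArg Prod.fst h2⟩
      refine ⟨hYU'.1, h1, ?_⟩
      change ‖π (Φ.symm (0, (ρ : ℂ) • x) - p)‖ < ρ
      rw [show π (Φ.symm (0, (ρ : ℂ) • x) - p) = (ρ : ℂ) • x from congrArg Prod.snd h2]
      exact hsm x hx
    · rintro ⟨hyY, hyS, hyρ⟩
      have hyF : y ∈ U ∩ F ⁻¹' {0} := hYU ▸ ⟨hyY, hyS.2.1.1⟩
      have hyG : G y = (0, π (y - p)) := Prod.ext hyF.2 rfl
      refine ⟨(ρ : ℂ)⁻¹ • π (y - p), ?_, ?_⟩
      · rw [mem_ball_zero_iff, norm_smul, norm_inv, Complex.norm_real, Real.norm_of_nonneg hρ.le,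
          inv_mul_lt_iff₀ hρ, mul_one]
        exact hyρ
      · change Φ.symm (0, (ρ : ℂ) • ((ρ : ℂ)⁻¹ • π (y - p))) = y
        rw [smul_inv_smul₀ hρ', ← hyG, ← hΦc]
        exact Φ.left_inv (hSs hyS)
  · exact (hdπ.const_smul (ρ : ℂ)⁻¹).continuousOn
  · intro x hx
    obtain ⟨h1, h2, h3⟩ := hsy _ (hsm x hx)
    change (ρ : ℂ)⁻¹ • π (Φ.symm (0, (ρ : ℂ) • x) - p) = x
    rw [show π (Φ.symm (0, (ρ : ℂ) • x) - p) = (ρ : ℂ) • x from congrArg Prod.snd h2]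
    exact inv_smul_smul₀ hρ' x

end TH620J174
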