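import Pool.Agent.Helper113.Gorin.Defs

set_option autoImplicit false

open Metric Set Topology H113G

namespace TH620J176

/-- a map with continuous sections enumerating the fibres is evenly covered -/
theorem evenly {E X : Type*} [TopologicalSpace E] [T2Space E] [TopologicalSpace X] {p : E → X}
    (hp : Continuous p) {e : ℕ} {U : Set X} (hU : IsOpen U) (s : Fin e → U → E)
    (hs : ∀ i, Continuous (s i)) (hinj : ∀ x : U, Function.Injective (fun i => s i x))
    (hps : ∀ i (x : U), p (s i x) = x) (hfib : ∀ (x : U) (y : E), p y = x → ∃ i, s i x = y) :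
    ∀ x ∈ U, IsEvenlyCovered p x (Fin e) := by
  intro x hx
  have hex : ∀ y : p ⁻¹' U, ∃ i, s i ⟨p y, y.2⟩ = y := fun y => hfib ⟨p y, y.2⟩ y rfl
  choose idx hidx using hex
  have huniq : ∀ (y : p ⁻¹' U) (i : Fin e), s i ⟨p y, y.2⟩ = y → idx y = i := by
    intro y i hi
    exact hinj ⟨p y, y.2⟩ ((hidx y).trans hi.symm)
  have hpc : Continuous fun y : p ⁻¹' U => (⟨p y, y.2⟩ : U) :=
    (hp.comp continuous_subtype_val).subtype_mk _
  have hidxc : Continuous idx := by
    rw [continuous_iff_isClosed]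
    intro C _
    have : idx ⁻¹' C = ⋃ i ∈ C, {y : p ⁻¹' U | s i ⟨p y, y.2⟩ = y} := by
      ext y
      simp only [mem_preimage, mem_iUnion, mem_ofPred_eq, exists_prop]
      constructor
      · intro h
        exact ⟨idx y, h, hidx y⟩
      · rintro ⟨i, hi, h⟩
        rwa [huniq y i h]
    rw [this]
    exact (Set.toFinite C).isClosed_biUnion fun i _ =>
      isClosed_eq ((hs i).comp hpc) continuous_subtype_val
  refine ⟨inferInstance, U, hx, hU, hU.preimage hp, ?_⟩
  refine ⟨{ toFun := fun y => (⟨p y, y.2⟩, idx y)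
            invFun := fun z => ⟨s z.2 z.1, by rw [mem_preimage, hps]; exact z.1.2⟩
            left_inv := ?_
            right_inv := ?_
            continuous_toFun := hpc.prodMk hidxc
            continuous_invFun := ?_ }, fun y => rfl⟩
  · intro y
    exact Subtype.ext (hidx y)
  · rintro ⟨z, i⟩
    have h1 : p (s i z) = z := hps i z
    refine Prod.ext (Subtype.ext h1) ?_
    apply huniq
    have : (⟨p (s i z), by rw [h1]; exact z.2⟩ : U) = z := Subtype.ext h1
    exact congrArg (s i) this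
  · apply Continuous.subtype_mk
    exact continuous_prod_of_discrete_right.mpr fun i => hs i

/-- sheets over a simply connected open subset of the plane -/
theorem sheets {E : Type*} [TopologicalSpace E] {p : E → ℂ} {B : Set ℂ}
    (cov : IsCoveringMapOn p B) {U : Set ℂ} (hU : IsOpen U)
    (hUc : IsSimplyConnected U) (hUB : U ⊆ B) {t₀ : ℂ} (ht₀ : t₀ ∈ U)
    (hfin : (p ⁻¹' {t₀}).Finite) :
    ∃ (n : ℕ) (σ : Fin n → ℂ → E), (∀ i, ContinuousOn (σ i) U) ∧ (∀ i, ∀ t ∈ U, p (σ i t) = t) ∧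
      (∀ y, p y ∈ U → ∃ i, σ i (p y) = y) ∧ (∀ i j, ∀ t ∈ U, σ i t = σ j t → i = j) := by
  classical
  have := hUc.simplyConnectedSpace
  have := hU.locallyPathConnectedSpace
  have hlift : ∀ (a : U) (e₀ : E), p e₀ = a → ∃! F : C(U, E), F a = e₀ ∧ p ∘ F = Subtype.val := by
    intro a e₀ he
    exact cov.existsUnique_continuousMap_lifts (⟨Subtype.val, continuous_subtype_val⟩ : C(U, ℂ)) he
      (fun a => hUB a.2)
  have hfin' : Finite (p ⁻¹' {t₀}) := hfin
  obtain ⟨n, ⟨φ⟩⟩ := Finite.exists_equiv_fin (p ⁻¹' {t₀})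
  choose F hF hFu using fun w : p ⁻¹' {t₀} => hlift ⟨t₀, ht₀⟩ w w.2
  refine ⟨n, fun i t => if h : t ∈ U then F (φ.symm i) ⟨t, h⟩ else (φ.symm i : E), ?_, ?_, ?_, ?_⟩
  · intro i
    rw [continuousOn_iff_continuous_domRestrict]
    convert! map_continuous (F (φ.symm i))
    rename_i t
    simp
  · intro i t ht
    simp only [ht, dif_pos]
    exact congrFun (hF (φ.symm i)).2 ⟨t, ht⟩
  · intro y hy
    obtain ⟨G, ⟨hG1, hG2⟩, -⟩ := hlift ⟨p y, hy⟩ y rfl
    have hw : G ⟨t₀, ht₀⟩ ∈ p ⁻¹' {t₀} := congrFun hG2 ⟨t₀, ht₀⟩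
    have : G = F ⟨G ⟨t₀, ht₀⟩, hw⟩ := hFu ⟨G ⟨t₀, ht₀⟩, hw⟩ G ⟨rfl, hG2⟩
    refine ⟨φ ⟨G ⟨t₀, ht₀⟩, hw⟩, ?_⟩
    simp only [hy, dif_pos, Equiv.symm_apply_apply]
    rw [← this, hG1]
  · intro i j t ht hij
    simp only [ht, dif_pos] at hij
    have ha : p (F (φ.symm i) ⟨t, ht⟩) = t := congrFun (hF (φ.symm i)).2 ⟨t, ht⟩
    have h1 : F (φ.symm i) = F (φ.symm j) := by
      obtain ⟨G, hG, hGu⟩ := hlift ⟨t, ht⟩ (F (φ.symm i) ⟨t, ht⟩) ha
      rw [hGu (F (φ.symm i)) ⟨rfl, (hF _).2⟩, hGu (F (φ.symm j)) ⟨hij.symm, (hF _).2⟩]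
    have h2 : φ.symm i = φ.symm j := by
      apply Subtype.ext
      rw [← (hF (φ.symm i)).1, ← (hF (φ.symm j)).1, h1]
    exact φ.symm.injective h2

/-- logarithms over simply connected open sets -/
theorem logs {E : Type*} [TopologicalSpace E] [T2Space E] {p : E → ℂ} (hp : Continuous p)
    {U : Set ℂ} (hU : IsOpen U) (hUc : IsSimplyConnected U) {n : ℕ} {σ : Fin n → ℂ → E}
    (hσ : ∀ i, ContinuousOn (σ i) U)
    (hfib : ∀ y, p y ∈ U → ∃ i, σ i (p y) = y) (hdisj : ∀ i j, ∀ t ∈ U, σ i t = σ j t → i = j)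
    (g : E → ℂ) (hg : Continuous g) (hg0 : ∀ y, g y ≠ 0) :
    ∃ Λ : E → ℂ, ContinuousOn Λ (p ⁻¹' U) ∧ ∀ y ∈ p ⁻¹' U, Complex.exp (Λ y) = g y := by
  classical
  have h1 : ∀ i, ∃ f : ℂ → ℂ, ContinuousOn f U ∧ EqOn (Complex.exp ∘ f) (g ∘ σ i) U := by
    intro i
    apply Complex.exists_continuousOn_eqOn_exp_comp hUc hU (hg.comp_continuousOn (hσ i))
    rintro ⟨t, _, ht⟩
    exact hg0 _ ht
  choose L hLc hL using h1
  rcases isEmpty_or_nonempty (Fin n) with hn | hn
  · refine ⟨0, continuousOn_const, fun y hy => ?_⟩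
    obtain ⟨i, _⟩ := hfib y hy
    exact isEmptyElim i
  have h2 : ∀ y, ∃ i, p y ∈ U → σ i (p y) = y := by
    intro y
    by_cases hy : p y ∈ U
    · obtain ⟨i, hi⟩ := hfib y hy
      exact ⟨i, fun _ => hi⟩
    · exact ⟨Classical.arbitrary _, fun h => absurd h hy⟩
  choose idx hidx using h2
  refine ⟨fun y => L (idx y) (p y), ?_, ?_⟩
  · intro y hy
    have hy' : p y ∈ U := hy
    have h3 : ∀ j, j ≠ idx y → ∀ᶠ y' in 𝓝[p ⁻¹' U] y, σ j (p y') ≠ y' := by
      intro j hj
      have h4 : Filter.Tendsto (fun y' => σ j (p y')) (𝓝[p ⁻¹' U] y) (𝓝 (σ j (p y))) :=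
        ((hσ j).comp hp.continuousOn (fun z hz => hz)) y hy
      have h5 : Filter.Tendsto (fun y' : E => y') (𝓝[p ⁻¹' U] y) (𝓝 y) := nhdsWithin_le_nhds
      have h6 : σ j (p y) ≠ y := by
        intro h
        exact hj (hdisj j (idx y) (p y) hy' (h.trans (hidx y hy').symm))
      have h7 := (h4.prodMk_nhds h5).eventually
        ((isOpen_ne_fun continuous_fst continuous_snd).mem_nhds h6)
      exact h7
    have h4 : ∀ᶠ y' in 𝓝[p ⁻¹' U] y, idx y' = idx y := by
      have h5 : ∀ᶠ y' in 𝓝[p ⁻¹' U] y, ∀ j, j ≠ idx y → σ j (p y') ≠ y' := by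
        rw [Filter.eventually_all]
        intro j
        by_cases hj : j = idx y
        · exact Filter.Eventually.of_forall fun _ h => absurd hj h
        · filter_upwards [h3 j hj] with y' hy' _
          exact hy'
      filter_upwards [h5, self_mem_nhdsWithin] with y' h6 h7
      by_contra h8
      exact h6 _ h8 (hidx y' h7)
    have h5 : ContinuousWithinAt (fun y' => L (idx y) (p y')) (p ⁻¹' U) y :=
      ((hLc (idx y)).comp hp.continuousOn (fun z hz => hz)) y hy
    refine h5.congr_of_eventuallyEq ?_ rfl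
    filter_upwards [h4] with y' h6
    rw [h6]
  · intro y hy
    have := hL (idx y) (show p y ∈ U from hy)
    simp only [Function.comp_apply] at this
    rw [this, hidx y hy]

/-- a subset of the plane invariant under moving in a real direction and containing a half plane
is simply connected -/
theorem simplyConn {U : Set ℂ} {ε : ℝ} (hε : ε * ε = 1)
    (h1 : ∀ z ∈ U, ∀ s : ℝ, 0 ≤ s → z + (s * ε : ℝ) ∈ U) {M : ℝ}
    (h2 : ∀ z : ℂ, M < ε * z.re → z ∈ U) : IsSimplyConnected U := by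
  have hS : ∀ z : ℂ, M < ε * (z + (((|M| + |z.re| + 1) * ε : ℝ) : ℂ)).re := by
    intro z
    rw [Complex.add_re, Complex.ofReal_re, mul_add]
    have h3 : ε * ((|M| + |z.re| + 1) * ε) = |M| + |z.re| + 1 := by
      linear_combination (|M| + |z.re| + 1) * hε
    rw [h3]
    have h4 : |ε * z.re| = |z.re| := by
      rw [abs_mul]
      have : |ε| = 1 := by
        have h5 : |ε| * |ε| = 1 := by rw [abs_mul_abs_self, hε]
        nlinarith [abs_nonneg ε]
      rw [this, one_mul]
    have h5 := neg_abs_le (ε * z.re)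
    have h6 := le_abs_self M
    linarith
  have hc : ((((|M| + 1) * ε : ℝ)) : ℂ) ∈ U := by
    apply h2
    rw [Complex.ofReal_re]
    have h3 : ε * ((|M| + 1) * ε) = |M| + 1 := by
      linear_combination (|M| + 1) * hε
    rw [h3]
    have h6 := le_abs_self M
    linarith
  have hcon : ContractibleSpace U := by
    rw [contractible_iff_id_nullhomotopic]
    refine ⟨⟨_, hc⟩, ?_⟩
    let f1 : C(U, U) := ⟨fun z => ⟨z.1 + (((|M| + |z.1.re| + 1) * ε : ℝ) : ℂ),
      h1 z.1 z.2 _ (by positivity)⟩, by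
        apply Continuous.subtype_mk
        fun_prop⟩
    have hA : ContinuousMap.Homotopic (ContinuousMap.id U) f1 := by
      refine ⟨⟨⟨fun q => ⟨q.2.1 + (((q.1.1 * (|M| + |q.2.1.re| + 1)) * ε : ℝ) : ℂ),
        h1 q.2.1 q.2.2 _ (mul_nonneg q.1.2.1 (by positivity))⟩, ?_⟩, ?_, ?_⟩⟩
      · apply Continuous.subtype_mk
        fun_prop
      · intro z
        apply Subtype.ext
        simp
      · intro z
        apply Subtype.ext
        simp [f1]
    have hB : ContinuousMap.Homotopic f1 (ContinuousMap.const U ⟨_, hc⟩) := by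
      refine ⟨⟨⟨fun q => ⟨((1 - q.1.1 : ℝ) : ℂ) * (f1 q.2).1 +
        ((q.1.1 : ℝ) : ℂ) * (((|M| + 1) * ε : ℝ) : ℂ), ?_⟩, ?_⟩, ?_, ?_⟩⟩
      · apply h2
        have h3 := hS q.2.1
        have h4 : (f1 q.2).1 = q.2.1 + (((|M| + |q.2.1.re| + 1) * ε : ℝ) : ℂ) := rfl
        rw [← h4] at h3
        have h5 : ε * (((1 - q.1.1 : ℝ) : ℂ) * (f1 q.2).1 +
          ((q.1.1 : ℝ) : ℂ) * (((|M| + 1) * ε : ℝ) : ℂ)).re =
          (1 - q.1.1) * (ε * (f1 q.2).1.re) + q.1.1 * (|M| + 1) := by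
          rw [Complex.add_re, Complex.re_ofReal_mul, Complex.re_ofReal_mul, Complex.ofReal_re]
          linear_combination q.1.1 * (|M| + 1) * hε
        rw [h5]
        have h6 := le_abs_self M
        have h7 := q.1.2.1
        have h8 := q.1.2.2
        rcases eq_or_lt_of_le h7 with h9 | h9
        · rw [← h9]
          linarith
        · nlinarith [mul_nonneg (sub_nonneg.mpr h8) (sub_nonneg.mpr h3.le)]
      · apply Continuous.subtype_mk
        fun_prop
      · intro z
        apply Subtype.ext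
        simp
      · intro z
        apply Subtype.ext
        simp
    exact hA.trans hB
  exact (inferInstance : SimplyConnectedSpace U)

theorem strip_convex (S : Finset ℂ) (ε : S → Bool) :
    Convex ℝ {z : ℂ | ∀ a : S, if ε a then a.1.im < z.im else z.im < a.1.im} := by
  have : {z : ℂ | ∀ a : S, if ε a then a.1.im < z.im else z.im < a.1.im} =
      ⋂ a : S, {z : ℂ | if ε a then a.1.im < z.im else z.im < a.1.im} := by
    ext z
    simp
  rw [this]
  apply convex_iInter
  intro a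
  cases ε a
  · simpa using convex_halfSpace_im_lt a.1.im
  · simpa using convex_halfSpace_im_gt a.1.im

/-- gluing logarithms over two open sets -/
theorem glue {E : Type*} [TopologicalSpace E] {V1 V2 : Set E} (h1o : IsOpen V1) (h2o : IsOpen V2)
    (hcov : ∀ y, y ∈ V1 ∨ y ∈ V2)
    (hlog1 : ∀ g : E → ℂ, Continuous g → (∀ y, g y ≠ 0) →
      ∃ Λ : E → ℂ, ContinuousOn Λ V1 ∧ ∀ y ∈ V1, Complex.exp (Λ y) = g y)
    (hlog2 : ∀ g : E → ℂ, Continuous g → (∀ y, g y ≠ 0) →
      ∃ Λ : E → ℂ, ContinuousOn Λ V2 ∧ ∀ y ∈ V2, Complex.exp (Λ y) = g y)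
    {J : Type*} [Fintype J] (C : J → Set E) (hC : ∀ j, IsPreconnected (C j))
    (hCV : ∀ j, C j ⊆ V1 ∩ V2) (hCc : ∀ y, y ∈ V1 → y ∈ V2 → ∃ j, y ∈ C j)
    (g : Fin (Fintype.card J + 1) → E → ℂ) (hg : ∀ l, Continuous (g l))
    (hg0 : ∀ l y, g l y ≠ 0) :
    ∃ a : Fin (Fintype.card J + 1) → ℤ, a ≠ 0 ∧
      ∃ h : E → ℂ, Continuous h ∧ ∀ y, Complex.exp (h y) = ∏ l, g l y ^ a l := by
  classical
  choose A hAc hA using fun l => hlog1 (g l) (hg l) (hg0 l)
  choose D hDc hD using fun l => hlog2 (g l) (hg l) (hg0 l)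
  have hn : ∀ l j, ∃ n : ℤ, ∀ y ∈ C j, A l y = D l y + n * (2 * Real.pi * Complex.I) := by
    intro l j
    rcases (C j).eq_empty_or_nonempty with h | ⟨y0, hy0⟩
    · exact ⟨0, by simp [h]⟩
    have hint : ∃ n : ℤ, A l y0 = D l y0 + n * (2 * Real.pi * Complex.I) := by
      apply Complex.exp_eq_exp_iff_exists_int.mp
      rw [hA l y0 (hCV j hy0).1, hD l y0 (hCV j hy0).2]
    obtain ⟨n, hn⟩ := hint
    refine ⟨n, ?_⟩
    have h1 : ContinuousOn (A l) (C j) := (hAc l).mono fun y hy => (hCV j hy).1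
    have h2 : ContinuousOn (fun y => D l y + n * (2 * Real.pi * Complex.I)) (C j) :=
      ((hDc l).mono fun y hy => (hCV j hy).2).add continuousOn_const
    have h3 := Complex.isCoveringMap_exp.eqOn_of_comp_eqOn (hC j) h1 h2 (by
      intro y hy
      apply Subtype.ext
      change Complex.exp (A l y) = Complex.exp (D l y + n * (2 * Real.pi * Complex.I))
      rw [Complex.exp_add, Complex.exp_int_mul_two_pi_mul_I, mul_one, hA l y (hCV j hy).1,
        hD l y (hCV j hy).2]) hy0 hn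
    exact h3
  choose n hn using hn
  have hdep : ¬ LinearIndependent ℤ (fun l : Fin (Fintype.card J + 1) => fun j => n l j) := by
    intro h
    have := h.fintype_card_le_finrank
    simp at this
  obtain ⟨a, ha, l0, hl0⟩ := Fintype.not_linearIndependent_iff.mp hdep
  refine ⟨a, fun h => hl0 (by rw [h]; rfl), ?_⟩
  have hagree : ∀ y, y ∈ V1 → y ∈ V2 → ∑ l, (a l : ℂ) * A l y = ∑ l, (a l : ℂ) * D l y := by
    intro y hy1 hy2
    obtain ⟨j, hj⟩ := hCc y hy1 hy2
    have h1 : ∑ l, a l * n l j = 0 := by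
      have := congrFun ha j
      simpa using this
    have h2 : ∑ l, (a l : ℂ) * (n l j : ℂ) = 0 := by exact_mod_cast h1
    calc ∑ l, (a l : ℂ) * A l y = ∑ l, ((a l : ℂ) * D l y +
          (a l : ℂ) * (n l j : ℂ) * (2 * Real.pi * Complex.I)) := by
          apply Finset.sum_congr rfl
          intro l _
          rw [hn l j y hj]
          ring
      _ = _ := by
          rw [Finset.sum_add_distrib, ← Finset.sum_mul, h2]
          ring
  refine ⟨fun y => if y ∈ V1 then ∑ l, (a l : ℂ) * A l y else ∑ l, (a l : ℂ) * D l y, ?_, ?_⟩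
  · rw [continuous_iff_continuousAt]
    intro y
    rcases hcov y with hy | hy
    · have h1 : ContinuousAt (fun y => ∑ l, (a l : ℂ) * A l y) y := by
        apply tendsto_finsetSum
        intro l _
        exact ((hAc l).continuousAt (h1o.mem_nhds hy)).const_mul (a l : ℂ)
      refine h1.congr ?_
      filter_upwards [h1o.mem_nhds hy] with y' hy'
      simp [hy']
    · have h1 : ContinuousAt (fun y => ∑ l, (a l : ℂ) * D l y) y := by
        apply tendsto_finsetSum
        intro l _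
        exact ((hDc l).continuousAt (h2o.mem_nhds hy)).const_mul (a l : ℂ)
      refine h1.congr ?_
      filter_upwards [h2o.mem_nhds hy] with y' hy'
      by_cases hy1 : y' ∈ V1
      · simp only [hy1, if_true]
        exact (hagree y' hy1 hy').symm
      · simp [hy1]
  · intro y
    by_cases hy : y ∈ V1
    · simp only [hy, if_true]
      rw [Complex.exp_sum]
      apply Finset.prod_congr rfl
      intro l _
      rw [Complex.exp_int_mul, hA l y hy]
    · simp only [hy, if_false]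
      rw [Complex.exp_sum]
      apply Finset.prod_congr rfl
      intro l _
      rw [Complex.exp_int_mul, hD l y ((hcov y).resolve_left hy)]

/-- covering of the complement of a finite set in general position -/
theorem planar {E : Type*} [TopologicalSpace E] [T2Space E] {p : E → ℂ} (hp : Continuous p)
    (S : Finset ℂ) (hIm : ∀ a ∈ S, ∀ b ∈ S, a.im = b.im → a = b)
    (cov : IsCoveringMapOn p {t | t ∉ S}) (hpS : ∀ y, p y ∉ S)
    (hfin : ∀ t, t ∉ S → (p ⁻¹' {t}).Finite) :
    ∃ s : ℕ, ∀ g : Fin (s + 1) → E → ℂ, (∀ l, Continuous (g l)) → (∀ l y, g l y ≠ 0) →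
    ∃ a : Fin (s + 1) → ℤ, a ≠ 0 ∧
      ∃ h : E → ℂ, Continuous h ∧ ∀ y, Complex.exp (h y) = ∏ l, g l y ^ a l := by
  classical
  have hM : ∀ a ∈ S, |a.re| ≤ ∑ b ∈ S, |b.re| := fun a ha =>
    Finset.single_le_sum (f := fun b : ℂ => |b.re|) (fun b _ => abs_nonneg _) ha
  set U1 : Set ℂ := {z | ∀ a ∈ S, ¬ (z.im = a.im ∧ z.re ≤ a.re)} with hU1
  set U2 : Set ℂ := {z | ∀ a ∈ S, ¬ (z.im = a.im ∧ a.re ≤ z.re)} with hU2
  have hU1s : IsSimplyConnected U1 := by
    apply simplyConn (ε := 1) (M := ∑ b ∈ S, |b.re|) (by norm_num)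
    · intro z hz s hs a ha h
      apply hz a ha
      simp only [mul_one, Complex.add_im, Complex.ofReal_im, add_zero, Complex.add_re,
        Complex.ofReal_re] at h
      exact ⟨h.1, by linarith [h.2]⟩
    · intro z hz a ha h
      have h1 := hM a ha
      have h2 := le_abs_self a.re
      linarith [h.2]
  have hU2s : IsSimplyConnected U2 := by
    apply simplyConn (ε := -1) (M := ∑ b ∈ S, |b.re|) (by norm_num)
    · intro z hz s hs a ha h
      apply hz a ha
      simp only [mul_neg, mul_one, Complex.add_im, Complex.ofReal_im, add_zero, Complex.add_re,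
        Complex.ofReal_re] at h
      exact ⟨h.1, by linarith [h.2]⟩
    · intro z hz a ha h
      have h1 := hM a ha
      have h2 := neg_abs_le a.re
      linarith [h.2]
  have hU1o : IsOpen U1 := by
    have : U1 = ⋂ a ∈ S, ({z : ℂ | z.im = a.im} ∩ {z : ℂ | z.re ≤ a.re})ᶜ := by
      ext z
      simp [hU1]
    rw [this]
    apply isOpen_biInter_finset
    intro a _
    exact ((isClosed_eq Complex.continuous_im continuous_const).inter
      (isClosed_le Complex.continuous_re continuous_const)).isOpen_compl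
  have hU2o : IsOpen U2 := by
    have : U2 = ⋂ a ∈ S, ({z : ℂ | z.im = a.im} ∩ {z : ℂ | a.re ≤ z.re})ᶜ := by
      ext z
      simp [hU2]
    rw [this]
    apply isOpen_biInter_finset
    intro a _
    exact ((isClosed_eq Complex.continuous_im continuous_const).inter
      (isClosed_le continuous_const Complex.continuous_re)).isOpen_compl
  have hU1B : U1 ⊆ {t | t ∉ S} := fun z hz hzS => hz z hzS ⟨rfl, le_rfl⟩
  have hU2B : U2 ⊆ {t | t ∉ S} := fun z hz hzS => hz z hzS ⟨rfl, le_rfl⟩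
  obtain ⟨t1, ht1⟩ := hU1s.nonempty
  obtain ⟨t2, ht2⟩ := hU2s.nonempty
  obtain ⟨n, σ, hσc, hσp, hσf, hσd⟩ := sheets cov hU1o hU1s hU1B ht1 (hfin t1 (hU1B ht1))
  obtain ⟨n', σ', hσc', hσp', hσf', hσd'⟩ := sheets cov hU2o hU2s hU2B ht2 (hfin t2 (hU2B ht2))
  have hstrip1 : ∀ (ε : S → Bool) (z : ℂ),
      (∀ a : S, if ε a then a.1.im < z.im else z.im < a.1.im) → z ∈ U1 ∧ z ∈ U2 := by
    intro ε z hz
    have h1 : ∀ a ∈ S, z.im ≠ a.im := by
      intro a ha
      have := hz ⟨a, ha⟩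
      split_ifs at this
      · exact this.ne'
      · exact this.ne
    exact ⟨fun a ha h => h1 a ha h.1, fun a ha h => h1 a ha h.1⟩
  refine ⟨Fintype.card ((S → Bool) × Fin n), fun g hg hg0 => ?_⟩
  refine glue (hU1o.preimage hp) (hU2o.preimage hp) ?_
    (fun g hg hg0 => logs hp hU1o hU1s hσc hσf hσd g hg hg0)
    (fun g hg hg0 => logs hp hU2o hU2s hσc' hσf' hσd' g hg hg0)
    (fun j : (S → Bool) × Fin n => σ j.2 ''
      {z : ℂ | ∀ a : S, if j.1 a then a.1.im < z.im else z.im < a.1.im}) ?_ ?_ ?_ g hg hg0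
  · intro y
    by_contra hcon
    have h1 : ¬ (p y ∈ U1) := fun h => hcon (Or.inl h)
    have h2 : ¬ (p y ∈ U2) := fun h => hcon (Or.inr h)
    simp only [hU1, hU2, mem_ofPred_eq, not_forall, not_not] at h1 h2
    obtain ⟨a, ha, ha1, ha2⟩ := h1
    obtain ⟨b, hb, hb1, hb2⟩ := h2
    have hab : a = b := hIm a ha b hb (ha1.symm.trans hb1)
    subst hab
    have : p y = a := Complex.ext (le_antisymm ha2 hb2) ha1
    exact hpS y (this ▸ ha)
  · intro j
    exact (strip_convex S j.1).isPreconnected.image _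
      ((hσc j.2).mono fun z hz => (hstrip1 j.1 z hz).1)
  · rintro j _ ⟨z, hz, rfl⟩
    have h1 := hstrip1 j.1 z hz
    have h2 := hσp j.2 z h1.1
    exact ⟨by rw [mem_preimage, h2]; exact h1.1, by rw [mem_preimage, h2]; exact h1.2⟩
  · intro y hy1 hy2
    obtain ⟨i, hi⟩ := hσf y hy1
    refine ⟨⟨fun a => decide (a.1.im < (p y).im), i⟩, p y, ?_, hi⟩
    intro a
    by_cases h : a.1.im < (p y).im
    · simp [h]
    · simp only [h, decide_false, Bool.false_eq_true, if_false]
      rcases lt_trichotomy (p y).im a.1.im with h3 | h3 | h3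
      · exact h3
      · exfalso
        rcases le_total (p y).re a.1.re with h4 | h4
        · exact hy1 a.1 a.2 ⟨h3, h4⟩
        · exact hy2 a.1 a.2 ⟨h3, h4⟩
      · exact absurd h3 h

theorem conv {E : Type*} [TopologicalSpace E] (A : Set E) (s : ℕ)
    (h : ∀ g : Fin (s + 1) → A → ℂ, (∀ l, Continuous (g l)) → (∀ l y, g l y ≠ 0) →
      ∃ a : Fin (s + 1) → ℤ, a ≠ 0 ∧
        ∃ h : A → ℂ, Continuous h ∧ ∀ y, Complex.exp (h y) = ∏ l, g l y ^ a l) :
    FiniteRank A s := by
  classical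
  intro g hg hg0
  obtain ⟨a, ha, f, hf, hfe⟩ := h (fun l y => g l y)
    (fun l => continuousOn_iff_continuous_domRestrict.mp (hg l)) (fun l y => hg0 l y y.2)
  refine ⟨a, ha, fun y => if hy : y ∈ A then f ⟨y, hy⟩ else 0, ?_, ?_⟩
  · rw [continuousOn_iff_continuous_domRestrict]
    convert! hf
    simp
  · intro y hy
    simp only [hy, dif_pos]
    exact hfe ⟨y, hy⟩

theorem root_finite {k : ℕ} (δ : MvPolynomial (Fin k) ℂ) (h0 : MvPolynomial.eval 0 δ ≠ 0)
    (v : Fin k → ℂ) : ∃ S : Finset ℂ, ∀ t : ℂ, MvPolynomial.eval (t • v) δ = 0 ↔ t ∈ S := by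
  classical
  let P : Polynomial ℂ := MvPolynomial.aeval (fun i => Polynomial.C (v i) * Polynomial.X) δ
  have hP : ∀ t : ℂ, P.eval t = MvPolynomial.eval (t • v) δ := by
    intro t
    have h1 : (Polynomial.evalRingHom t).comp
        (MvPolynomial.aeval (fun i => Polynomial.C (v i) * Polynomial.X) :
          MvPolynomial (Fin k) ℂ →ₐ[ℂ] Polynomial ℂ).toRingHom =
        MvPolynomial.eval (t • v) := by
      apply MvPolynomial.ringHom_ext
      · intro r
        change (Polynomial.evalRingHom t) (MvPolynomial.aeval _ (MvPolynomial.C r)) = _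
        rw [MvPolynomial.algHom_C, MvPolynomial.eval_C]
        exact Polynomial.eval_C
      · intro i
        change (Polynomial.evalRingHom t) (MvPolynomial.aeval _ (MvPolynomial.X i)) = _
        rw [MvPolynomial.aeval_X, MvPolynomial.eval_X, Polynomial.coe_evalRingHom,
          Polynomial.eval_mul, Polynomial.eval_C, Polynomial.eval_X]
        exact mul_comm _ _
    exact congrArg (fun f : MvPolynomial (Fin k) ℂ →+* ℂ => f δ) h1
  have hP0 : P ≠ 0 := by
    intro h
    apply h0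
    have := hP 0
    rw [h] at this
    simpa using this.symm
  refine ⟨P.roots.toFinset, fun t => ?_⟩
  rw [Multiset.mem_toFinset, Polynomial.mem_roots hP0, Polynomial.IsRoot.def, hP]

theorem exists_dir (S : Finset ℂ) : ∃ w : ℂ, w ≠ 0 ∧ ∀ a ∈ S, ∀ b ∈ S,
    (a * w).im = (b * w).im → a = b := by
  classical
  obtain ⟨r, hr⟩ := Infinite.exists_notMem_finset
    ((S ×ˢ S).image fun q : ℂ × ℂ => -(q.1.re - q.2.re) / (q.1.im - q.2.im))
  refine ⟨⟨r, 1⟩, ?_, ?_⟩
  · intro h
    have := congrArg Complex.im h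
    simp at this
  · intro a ha b hb hab
    simp only [Complex.mul_im, mul_one] at hab
    by_cases him : a.im = b.im
    · rw [him] at hab
      exact Complex.ext (by linarith) him
    · exfalso
      apply hr
      rw [Finset.mem_image]
      refine ⟨(a, b), Finset.mem_product.mpr ⟨ha, hb⟩, ?_⟩
      have : a.im - b.im ≠ 0 := sub_ne_zero.mpr him
      field_simp
      linarith

theorem main {m k : ℕ} {Y : Set (Fin m → ℂ)} {pr : (Fin m → ℂ) → (Fin k → ℂ)}
    {δ : MvPolynomial (Fin k) ℂ} {e : ℕ} (h : Cov Y pr δ e) (v : Fin k → ℂ) (hv : v ≠ 0)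
    (S : Finset ℂ) (hS : ∀ t : ℂ, MvPolynomial.eval (t • v) δ = 0 ↔ t ∈ S)
    (hIm : ∀ a ∈ S, ∀ b ∈ S, a.im = b.im → a = b) :
    ∃ s : ℕ, FiniteRank {y : Fin m → ℂ | y ∈ Y ∧ ∃ t : ℂ, pr y = t • v ∧
      MvPolynomial.eval (t • v) δ ≠ 0} s := by
  classical
  obtain ⟨j, hj⟩ : ∃ j, v j ≠ 0 := by
    by_contra hcon
    push Not at hcon
    exact hv (funext hcon)
  set Z : Set (Fin m → ℂ) := {y : Fin m → ℂ | y ∈ Y ∧ ∃ t : ℂ, pr y = t • v ∧
      MvPolynomial.eval (t • v) δ ≠ 0} with hZ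
  let p : Z → ℂ := fun y => pr y.1 j / v j
  have hpc : Continuous p := by
    have h1 : Continuous pr := h.diff.continuous
    have h2 : Continuous fun y : Z => pr y.1 j := (continuous_apply j).comp (h1.comp continuous_subtype_val)
    exact h2.div_const _
  have hpt : ∀ (y : Z) (t : ℂ), pr y.1 = t • v → p y = t := by
    intro y t ht
    change pr y.1 j / v j = t
    rw [ht]
    simp [hj]
  have hpy : ∀ y : Z, pr y.1 = p y • v ∧ MvPolynomial.eval (p y • v) δ ≠ 0 := by
    intro y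
    obtain ⟨t, ht, ht'⟩ := y.2.2
    rw [hpt y t ht]
    exact ⟨ht, ht'⟩
  have hpS : ∀ y, p y ∉ S := by
    intro y hy
    exact (hpy y).2 ((hS _).mpr hy)
  have hev : ∀ t : ℂ, t ∉ S → IsEvenlyCovered p t (Fin e) := by
    intro t ht
    obtain ⟨r, hr, s, hs, hfib⟩ := h.sections (t • v) (fun h => ht ((hS t).mp h))
    have hcv : Continuous fun x : ℂ => x • v := by fun_prop
    set U : Set ℂ := (fun x : ℂ => x • v) ⁻¹' ball (t • v) r with hU
    have hUo : IsOpen U := isOpen_ball.preimage hcv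
    have htU : t ∈ U := mem_ball_self hr
    have hmem : ∀ (i : Fin e) (x : U), s i (x.1 • v) ∈ Y ∧ pr (s i (x.1 • v)) = x.1 • v := by
      intro i x
      have h1 := (hfib (x.1 • v) x.2).2.2
      have h2 : s i (x.1 • v) ∈ {y | y ∈ Y ∧ pr y = x.1 • v} := by
        rw [h1]
        exact ⟨i, rfl⟩
      exact h2
    refine evenly hpc hUo (fun i x => ⟨s i (x.1 • v), (hmem i x).1, x.1, (hmem i x).2,
      (hfib (x.1 • v) x.2).1⟩) ?_ ?_ ?_ ?_ t htU
    · intro i
      apply Continuous.subtype_mk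
      have h1 : ContinuousOn (fun x : ℂ => s i (x • v)) U :=
        (hs i).continuousOn.comp hcv.continuousOn (fun x hx => hx)
      exact continuousOn_iff_continuous_domRestrict.mp h1
    · intro x i i' hii'
      exact (hfib (x.1 • v) x.2).2.1 (congrArg Subtype.val hii')
    · intro i x
      exact hpt _ _ (hmem i x).2
    · intro x y hy
      have h1 : y.1 ∈ {y | y ∈ Y ∧ pr y = x.1 • v} := by
        refine ⟨y.2.1, ?_⟩
        rw [← hy]
        exact (hpy y).1
      rw [(hfib (x.1 • v) x.2).2.2] at h1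
      obtain ⟨i, hi⟩ := h1
      exact ⟨i, Subtype.ext hi⟩
  have hcov : IsCoveringMapOn p {t | t ∉ S} := fun t ht => (hev t ht).to_isEvenlyCovered_preimage
  have hfin : ∀ t, t ∉ S → (p ⁻¹' {t}).Finite := by
    intro t ht
    have : Finite (p ⁻¹' {t}) := Finite.of_equiv (Fin e) (hev t ht).fiberHomeomorph.toEquiv
    exact this
  obtain ⟨s, hs⟩ := planar hpc S hIm hcov hpS hfin
  exact ⟨s, conv Z s hs⟩

theorem slice_finiteRank {m k : ℕ} {Y : Set (Fin m → ℂ)} {pr : (Fin m → ℂ) → (Fin k → ℂ)}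
    {δ : MvPolynomial (Fin k) ℂ} {e : ℕ} (h : Cov Y pr δ e) (v : Fin k → ℂ) :
    ∃ s : ℕ, FiniteRank {y : Fin m → ℂ | y ∈ Y ∧ ∃ t : ℂ, pr y = t • v ∧
      MvPolynomial.eval (t • v) δ ≠ 0} s := by
  classical
  by_cases hv : v = 0
  · subst hv
    refine ⟨0, ?_⟩
    obtain ⟨r, hr, s, hs, hfib⟩ := h.sections 0 h.base
    have hfin : {y : Fin m → ℂ | y ∈ Y ∧ ∃ t : ℂ, pr y = t • (0 : Fin k → ℂ) ∧
        MvPolynomial.eval (t • (0 : Fin k → ℂ)) δ ≠ 0}.Finite := by
      apply (Set.finite_range (fun i => s i 0)).subset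
      rw [← (hfib 0 (mem_ball_self hr)).2.2]
      rintro y ⟨hy, t, ht, _⟩
      exact ⟨hy, by rw [ht, smul_zero]⟩
    intro g hg hg0
    refine ⟨fun _ => 1, fun h => ?_, fun y => Complex.log (∏ l, g l y ^ (1 : ℤ)),
      hfin.continuousOn _, fun y hy => ?_⟩
    · have := congrFun h 0
      simp at this
    · apply Complex.exp_log
      rw [Finset.prod_ne_zero_iff]
      intro l _
      simpa using hg0 l y hy
  · obtain ⟨S, hS⟩ := root_finite δ h.base v
    obtain ⟨w, hw, hwS⟩ := exists_dir S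
    have hsm : ∀ t : ℂ, (t * w) • (w⁻¹ • v) = t • v := by
      intro t
      rw [smul_smul, mul_assoc, mul_inv_cancel₀ hw, mul_one]
    obtain ⟨s, hs⟩ := main h (w⁻¹ • v) (smul_ne_zero (inv_ne_zero hw) hv)
      (S.image fun a => a * w) (by
        intro t
        have h1 : t • (w⁻¹ • v) = (t * w⁻¹) • v := by rw [smul_smul]
        rw [h1, hS, Finset.mem_image]
        constructor
        · intro ht
          exact ⟨t * w⁻¹, ht, by field_simp⟩
        · rintro ⟨a, ha, rfl⟩
          rwa [mul_assoc, mul_inv_cancel₀ hw, mul_one]) (by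
        intro a ha b hb hab
        obtain ⟨a', ha', rfl⟩ := Finset.mem_image.mp ha
        obtain ⟨b', hb', rfl⟩ := Finset.mem_image.mp hb
        rw [hwS a' ha' b' hb' hab])
    refine ⟨s, ?_⟩
    have hset : {y : Fin m → ℂ | y ∈ Y ∧ ∃ t : ℂ, pr y = t • v ∧
        MvPolynomial.eval (t • v) δ ≠ 0} = {y : Fin m → ℂ | y ∈ Y ∧ ∃ t : ℂ,
        pr y = t • (w⁻¹ • v) ∧ MvPolynomial.eval (t • (w⁻¹ • v)) δ ≠ 0} := by
      ext y
      constructor
      · rintro ⟨hy, t, ht, ht'⟩
        refine ⟨hy, t * w, ?_, ?_⟩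
        · rw [hsm]; exact ht
        · rw [hsm]; exact ht'
      · rintro ⟨hy, t, ht, ht'⟩
        refine ⟨hy, t * w⁻¹, ?_, ?_⟩
        · rw [ht, smul_smul]
        · rwa [smul_smul] at ht'
    rw [hset]
    exact hs

end TH620J176
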