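import Pool.Agent.H695R3.PP.Stmts
set_option autoImplicit false
open scoped BigOperators ENNReal
open MeasureTheory
namespace Pool.Agent.TH620.J17
open Pool.Agent.H695R3.PP Filter Topology

lemma UR_sq (c : ℝ) (g : ℝ → ℝ≥0∞) (z : ℝ) :
    UR c g z ^ 2 = ENNReal.ofReal |(z ^ 2)⁻¹| * (g (c - z⁻¹)) ^ 2 := by
  unfold UR
  rw [mul_pow, ← ENNReal.ofReal_pow (by positivity)]
  congr 2
  rw [abs_of_nonneg (by positivity : (0 : ℝ) ≤ (z ^ 2)⁻¹), inv_pow, sq_abs]

lemma cov (c : ℝ) (g : ℝ → ℝ≥0∞) (s : Set ℝ) (hs : MeasurableSet s) (h0 : (0 : ℝ) ∉ s) :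
    ∫⁻ z in s, UR c g z ^ 2 = ∫⁻ y in (fun z : ℝ => c - z⁻¹) '' s, g y ^ 2 := by
  have h := lintegral_image_eq_lintegral_abs_deriv_mul (f := fun z : ℝ => c - z⁻¹)
    (f' := fun z => (z ^ 2)⁻¹) hs ?_ ?_ (fun y => g y ^ 2)
  · rw [h]
    refine lintegral_congr fun z => UR_sq c g z
  · intro z hz
    have hz0 : z ≠ 0 := fun h => h0 (h ▸ hz)
    have := (hasDerivAt_inv hz0).const_sub c
    rw [neg_neg] at this
    exact this.hasDerivWithinAt
  · intro x _ y _ hxy
    have : x⁻¹ = y⁻¹ := by
      have : c - x⁻¹ = c - y⁻¹ := hxy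
      linarith
    exact inv_injective this

theorem taskIso : TaskIso := by
  intro c g _
  constructor
  · unfold nsqL
    have h1 : ∫⁻ z, UR c g z ^ 2 = ∫⁻ z in ({0} : Set ℝ)ᶜ, UR c g z ^ 2 := by
      rw [restrict_compl_singleton]
    have h2 : ∫⁻ y, g y ^ 2 = ∫⁻ y in ({c} : Set ℝ)ᶜ, g y ^ 2 := by
      rw [restrict_compl_singleton]
    rw [h1, h2, cov c g _ (MeasurableSet.singleton 0).compl (by simp)]
    congr 2
    ext y
    simp only [Set.mem_image, Set.mem_compl_iff, Set.mem_singleton_iff]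
    constructor
    · rintro ⟨z, hz, rfl⟩ h
      have : z⁻¹ = 0 := by linarith
      exact hz (inv_eq_zero.1 this)
    · intro hy
      refine ⟨(c - y)⁻¹, ?_, ?_⟩
      · intro h
        have := inv_eq_zero.1 h
        exact hy (by linarith)
      · rw [inv_inv]; ring
  · have hms : MeasurableSet {z : ℝ | 1 < |z|} := measurableSet_lt measurable_const measurable_id.abs
    rw [cov c g _ hms (by simp)]
    apply lintegral_mono_set
    rintro _ ⟨z, hz, rfl⟩
    have hz' : 1 < |z| := hz
    have h1 : |z⁻¹| ≤ 1 := by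
      rw [abs_inv]
      exact inv_le_one_of_one_le₀ hz'.le
    have h2 := abs_le.1 h1
    constructor <;> simp only <;> linarith

lemma sq_lintegral_le (g : ℝ → ℝ≥0∞) (hg : Measurable g) :
    (∫⁻ s, g s ∂U) ^ 2 ≤ ∫⁻ s, g s ^ 2 ∂U := by
  have h := ENNReal.lintegral_mul_le_Lp_mul_Lq U (Real.HolderConjugate.two_two) (f := fun _ => 1) (g := g)
    aemeasurable_const hg.aemeasurable
  simp only [Pi.mul_apply, one_mul, ENNReal.one_rpow, lintegral_one, measure_univ] at h
  have h2 := pow_le_pow_left' h 2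
  refine h2.trans (le_of_eq ?_)
  rw [← ENNReal.rpow_natCast, ← ENNReal.rpow_mul]
  norm_num

lemma shift_meas (ε x : ℝ) (g : ℝ → ℝ≥0∞) (hg : Measurable g) :
    Measurable (fun s => g (x + ε * s)) := hg.comp (by fun_prop)

lemma avg_sq_le (ε : ℝ) (g : ℝ → ℝ≥0∞) (hg : Measurable g) (x : ℝ) :
    avg ε g x ^ 2 ≤ ∫⁻ s, g (x + ε * s) ^ 2 ∂U := by
  unfold avg
  exact sq_lintegral_le (fun s => g (x + ε * s)) (shift_meas ε x g hg)

theorem taskAvg : TaskAvg := by
  intro ε g hε hε1 hg
  have hjoint : Measurable (fun p : ℝ × ℝ => g (p.1 + ε * p.2)) := hg.comp (by fun_prop)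
  refine ⟨?_, ?_, ?_, ?_⟩
  · exact hjoint.lintegral_prod_right'
  · unfold nsqL
    calc ∫⁻ x, avg ε g x ^ 2 ≤ ∫⁻ x, ∫⁻ s, g (x + ε * s) ^ 2 ∂U := lintegral_mono (avg_sq_le ε g hg)
      _ = ∫⁻ s, (∫⁻ x, g (x + ε * s) ^ 2) ∂U := by
          rw [lintegral_lintegral_swap]
          exact (hjoint.pow_const 2).aemeasurable
      _ = ∫⁻ s, (∫⁻ x, g x ^ 2) ∂U := by
          refine lintegral_congr fun s => ?_
          exact lintegral_add_right_eq_self (fun x => g x ^ 2) (ε * s)
      _ = _ := by rw [lintegral_const, measure_univ, mul_one]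
  · intro c
    calc ∫⁻ y in Set.Icc (c - 1) (c + 1), avg ε g y ^ 2
        ≤ ∫⁻ y in Set.Icc (c - 1) (c + 1), ∫⁻ s, g (y + ε * s) ^ 2 ∂U := lintegral_mono (avg_sq_le ε g hg)
      _ = ∫⁻ s, (∫⁻ y in Set.Icc (c - 1) (c + 1), g (y + ε * s) ^ 2) ∂U := by
          rw [lintegral_lintegral_swap]
          exact (hjoint.pow_const 2).aemeasurable
      _ ≤ ∫⁻ s, (∫⁻ x in Set.Icc (c - 2) (c + 2), g x ^ 2) ∂U := by
          have hU : ∀ᵐ s ∂U, s ∈ Set.Icc (-1 : ℝ) 1 := by
            unfold U
            exact Measure.ae_smul_measure (ae_restrict_mem measurableSet_Icc) _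
          refine lintegral_mono_ae ?_
          filter_upwards [hU] with s hs
          have e1 : ∫⁻ y in Set.Icc (c - 1) (c + 1), g (y + ε * s) ^ 2 =
              ∫⁻ x in Set.Icc (c - 1 + ε * s) (c + 1 + ε * s), g x ^ 2 := by
            rw [← lintegral_indicator measurableSet_Icc, ← lintegral_indicator measurableSet_Icc,
              ← lintegral_add_right_eq_self (fun x => (Set.Icc (c - 1 + ε * s) (c + 1 + ε * s)).indicator
                (fun x => g x ^ 2) x) (ε * s)]
            refine lintegral_congr fun y => ?_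
            by_cases hy : y ∈ Set.Icc (c - 1) (c + 1)
            · have hy2 : y + ε * s ∈ Set.Icc (c - 1 + ε * s) (c + 1 + ε * s) :=
                ⟨by linarith [hy.1], by linarith [hy.2]⟩
              simp only [Set.indicator_of_mem hy, Set.indicator_of_mem hy2]
            · have hy2 : y + ε * s ∉ Set.Icc (c - 1 + ε * s) (c + 1 + ε * s) :=
                fun h => hy ⟨by linarith [h.1], by linarith [h.2]⟩
              simp only [Set.indicator_of_notMem hy, Set.indicator_of_notMem hy2]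
          rw [e1]
          apply lintegral_mono_set
          apply Set.Icc_subset_Icc
          · nlinarith [hs.1, hs.2]
          · nlinarith [hs.1, hs.2]
      _ = _ := by rw [lintegral_const, measure_univ, mul_one]
  · intro x
    have h1 := avg_sq_le ε g hg x
    have h2 : ∫⁻ s, g (x + ε * s) ^ 2 ∂U ≤ ENNReal.ofReal (1 / ε) * nsqL g := by
      unfold U
      rw [lintegral_smul_measure]
      have h3 : ∫⁻ s in Set.Icc (-1 : ℝ) 1, g (x + ε * s) ^ 2 ≤ ∫⁻ s, g (x + ε * s) ^ 2 :=
        setLIntegral_le_lintegral _ _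
      have h4 : ∫⁻ s, g (x + ε * s) ^ 2 = ENNReal.ofReal (1 / ε) * nsqL g := by
        have h5 := lintegral_image_eq_lintegral_abs_deriv_mul (f := fun s : ℝ => x + ε * s)
          (f' := fun _ => ε) MeasurableSet.univ (fun s _ => by
            have := ((hasDerivAt_id s).const_mul ε).const_add x
            rw [mul_one] at this
            exact this.hasDerivWithinAt) (fun a _ b _ hab => by
            have : x + ε * a = x + ε * b := hab
            have h6 : ε * a = ε * b := by linarith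
            exact mul_left_cancel₀ hε.ne' h6) (fun y => g y ^ 2)
        have himg : (fun s : ℝ => x + ε * s) '' Set.univ = Set.univ := by
          rw [Set.image_univ, Set.range_eq_univ]
          intro y
          exact ⟨(y - x) / ε, by field_simp; ring⟩
        rw [himg, setLIntegral_univ, setLIntegral_univ, lintegral_const_mul' _ _ ENNReal.ofReal_ne_top,
          abs_of_pos hε] at h5
        unfold nsqL
        rw [h5, ← mul_assoc, ← ENNReal.ofReal_mul (by positivity)]
        have : 1 / ε * ε = 1 := by field_simp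
        rw [this, ENNReal.ofReal_one, one_mul]
      calc ENNReal.ofReal (1 / 2) • ∫⁻ s in Set.Icc (-1 : ℝ) 1, g (x + ε * s) ^ 2
          ≤ 1 * ∫⁻ s, g (x + ε * s) ^ 2 := by
            rw [smul_eq_mul]
            apply mul_le_mul' _ h3
            rw [← ENNReal.ofReal_one]
            exact ENNReal.ofReal_le_ofReal (by norm_num)
        _ = _ := by rw [one_mul, h4]
    have h3 := h1.trans h2
    have h4 := ENNReal.rpow_le_rpow h3 (show (0 : ℝ) ≤ 1 / 2 by norm_num)
    rw [← ENNReal.rpow_natCast, ← ENNReal.rpow_mul, ENNReal.mul_rpow_of_nonneg _ _ (by norm_num)] at h4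
    have e1 : ((2 : ℕ) : ℝ) * (1 / 2) = 1 := by norm_num
    rw [e1, ENNReal.rpow_one] at h4
    refine h4.trans (le_of_eq ?_)
    congr 1
    rw [ENNReal.ofReal_rpow_of_pos (by positivity)]
    congr 1
    rw [← Real.sqrt_eq_rpow, Real.sqrt_div (by norm_num), Real.sqrt_one]

end Pool.Agent.TH620.J17
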