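import Pool.Agent.H695R3.PP.Stmts
set_option autoImplicit false
open scoped BigOperators ENNReal
open MeasureTheory
namespace Pool.Agent.TH620.J24
open Pool.Agent.H695R3.PP Filter Topology

noncomputable abbrev E2 := lp (fun _ : ℤ => ℂ) 2

lemma memlp_shift (m : ℤ) (ψ : E2) : Memℓp (fun n : ℤ => ψ (n + m)) 2 := by
  have h := lp.memℓp ψ
  rw [memℓp_gen_iff (by norm_num)] at h ⊢
  exact h.comp_injective (add_left_injective m)

/-- shift as a linear isometry equivalence -/
noncomputable def shiftL (m : ℤ) : E2 →ₗᵢ[ℂ] E2 where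
  toFun ψ := ⟨fun n : ℤ => ψ (n + m), memlp_shift m ψ⟩
  map_add' ψ φ := by ext n; rfl
  map_smul' c ψ := by ext n; rfl
  norm_map' ψ := by
    have h2 : (0 : ℝ) < (2 : ℝ≥0∞).toReal := by norm_num
    rw [lp.norm_eq_tsum_rpow h2, lp.norm_eq_tsum_rpow h2]
    congr 1
    exact (Equiv.addRight m).tsum_eq (fun n : ℤ => ‖ψ n‖ ^ (2 : ℝ≥0∞).toReal)

lemma shiftL_apply (m : ℤ) (ψ : E2) (n : ℤ) : shiftL m ψ n = ψ (n + m) := rfl

theorem taskTop : TaskTop := by
  intro V h
  -- every δ_m is in the closure
  have hm : ∀ m : ℤ, lp.single 2 (m : ℤ) (1 : ℂ) ∈ (EigSpan V).topologicalClosure := by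
    intro m
    have h1 := h m
    have hmap : ∀ ψ ∈ EigSpan (fun n => V (m + n)), shiftL (-m) ψ ∈ EigSpan V := by
      intro ψ hψ
      unfold EigSpan at hψ
      refine Submodule.span_induction ?_ ?_ ?_ ?_ hψ
      · rintro x ⟨E, hE⟩
        apply Submodule.subset_span
        refine ⟨E, fun n => ?_⟩
        simp only [shiftL_apply]
        have h5 : x (n + -m + 1) + x (n + -m - 1) + (V (m + (n + -m)) : ℂ) * x (n + -m)
            = (E : ℂ) * x (n + -m) := hE (n + -m)
        have e1 : n + -m + 1 = n + 1 + -m := by ring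
        have e2 : n + -m - 1 = n - 1 + -m := by ring
        have e3 : m + (n + -m) = n := by ring
        rw [e1, e2, e3] at h5
        exact h5
      · rw [map_zero]; exact Submodule.zero_mem _
      · intro x y _ _ hx hy
        rw [map_add]; exact Submodule.add_mem _ hx hy
      · intro c x _ hx
        rw [map_smul]; exact Submodule.smul_mem _ _ hx
    have h2 : shiftL (-m) (lp.single 2 (0 : ℤ) (1 : ℂ)) ∈ (EigSpan V).topologicalClosure := by
      have hc := (shiftL (-m)).continuous
      rw [← SetLike.mem_coe, Submodule.topologicalClosure_coe] at h1 ⊢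
      exact map_mem_closure hc h1 hmap
    have h3 : shiftL (-m) (lp.single 2 (0 : ℤ) (1 : ℂ)) = lp.single 2 (m : ℤ) (1 : ℂ) := by
      ext n
      rw [shiftL_apply]
      simp only [lp.single_apply, Pi.single_apply]
      by_cases hn : n = m
      · subst hn; simp
      · have : n + -m ≠ 0 := by intro h0; apply hn; linarith
        simp [hn, this]
    rwa [h3] at h2
  rw [Submodule.topologicalClosure_eq_top_iff, Submodule.eq_bot_iff]
  intro x hx
  have hx' : x ∈ ((EigSpan V).topologicalClosure)ᗮ := by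
    rwa [Submodule.orthogonal_closure]
  ext m
  have h4 := (Submodule.mem_orthogonal _ _).1 hx' _ (hm m)
  rw [lp.inner_single_left] at h4
  simpa using h4

end Pool.Agent.TH620.J24
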