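import Pool.Agent.H695R3.PP.Stmts
set_option autoImplicit false
open scoped BigOperators ENNReal
open MeasureTheory
namespace Pool.Agent.TH620.J25
open Pool.Agent.H695R3.PP Filter Topology

theorem taskGroup : TaskGroup := by
  intro Ω _ _ _ _ _ _ _ α hα N
  -- no nonzero multiple of α vanishes
  have hne : ∀ j : ℤ, j ≠ 0 → j • α ≠ 0 := by
    intro j hj h0
    have hfin : (Set.range (fun n : ℤ => n • α)).Finite := by
      have hsub : Set.range (fun n : ℤ => n • α) ⊆
          (fun n : ℤ => n • α) '' (Set.Ico 0 |j|) := by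
        rintro _ ⟨n, rfl⟩
        refine ⟨n % |j|, ⟨Int.emod_nonneg _ (abs_ne_zero.2 hj), Int.emod_lt_of_pos _ (abs_pos.2 hj)⟩, ?_⟩
        have h1 : |j| • α = 0 := by
          rcases abs_choice j with h | h
          · rw [h, h0]
          · rw [h, neg_smul, h0, neg_zero]
        have h2 := Int.mul_ediv_add_emod n |j|
        show (n % |j|) • α = n • α
        nth_rewrite 2 [← h2]
        rw [add_smul, mul_comm, mul_smul, h1, smul_zero, zero_add]
      exact ((Set.finite_Ico _ _).image _).subset hsub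
    have hclosed := hfin.isClosed
    have huniv : Set.range (fun n : ℤ => n • α) = Set.univ := by
      rw [← hclosed.closure_eq]; exact hα.closure_eq
    rw [huniv] at hfin
    exact Set.infinite_univ hfin
  set F : Set Ω := (fun j : ℤ => j • α) '' (Set.Icc (-(N : ℤ)) N \ {0}) with hF
  have hFfin : F.Finite := ((Set.finite_Icc _ _).subset Set.sdiff_subset).image _
  have h0F : (0 : Ω) ∉ F := by
    rintro ⟨j, hj, hj0⟩
    exact hne j hj.2 hj0
  have hopen : IsOpen Fᶜ := hFfin.isClosed.isOpen_compl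
  obtain ⟨H, hH⟩ := ProfiniteGrp.exist_openNormalAddSubgroup_sub_open_nhds_of_zero
    (U := Fᶜ) hopen h0F
  refine ⟨H.toAddSubgroup, H.isOpen', AddSubgroup.quotient_finite_of_isOpen _ H.isOpen', ?_⟩
  intro j hj0 hj hjH
  have h1 : j • α ∈ Fᶜ := hH hjH
  apply h1
  exact ⟨j, ⟨abs_le.1 hj, hj0⟩, rfl⟩

end Pool.Agent.TH620.J25
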