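import Pool.Agent.H695R3.PP.Stmts
set_option autoImplicit false
open scoped BigOperators ENNReal
open MeasureTheory
namespace Pool.Agent.TH620.J26
open Pool.Agent.H695R3.PP Filter Topology

/-- law of finitely many coordinates of a finite product -/
lemma map_reindex {Q I : Type} [Fintype Q] [Fintype I] (e : I → Q) (he : Function.Injective e) :
    Measure.map (fun (η : Q → ℝ) (i : I) => η (e i)) (Measure.pi (fun _ : Q => U)) =
      Measure.pi (fun _ : I => U) := by
  symm
  apply Measure.pi_eq
  intro s hs
  have hmeas : Measurable (fun (η : Q → ℝ) (i : I) => η (e i)) :=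
    measurable_pi_lambda _ fun i => measurable_pi_apply _
  rw [Measure.map_apply hmeas (MeasurableSet.univ_pi hs)]
  set t : Q → Set ℝ := fun j => ⋂ (i : I) (_ : e i = j), s i with ht
  have h1 : (fun (η : Q → ℝ) (i : I) => η (e i)) ⁻¹' Set.univ.pi s = Set.univ.pi t := by
    ext η
    simp only [Set.mem_preimage, Set.mem_pi, Set.mem_univ, forall_const, ht, Set.mem_iInter]
    constructor
    · intro h j i hij
      subst hij
      exact h i
    · intro h i
      exact h (e i) i rfl
  rw [h1, Measure.pi_pi]
  symm
  refine Fintype.prod_of_injective e he (fun i => U (s i)) (fun j => U (t j)) ?_ ?_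
  · intro j hj
    have : t j = Set.univ := by
      ext x
      simp only [ht, Set.mem_iInter, Set.mem_univ, iff_true]
      intro i hij
      exact absurd ⟨i, hij⟩ hj
    simp only [this, measure_univ]
  · intro i
    have : t (e i) = s i := by
      ext x
      simp only [ht, Set.mem_iInter]
      constructor
      · intro h; exact h i rfl
      · intro h i' hi'
        rw [he hi']; exact h
    simp only [this]

theorem taskTransfer : TaskTransfer := by
  intro Q _ q L W ε B hq hB hdep
  classical
  set I : Finset ℤ := Finset.Icc (-(L : ℤ)) L with hI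
  set T : (I → ℝ) → (ℤ → ℝ) := fun w n => if h : n ∈ I then W n + ε * w ⟨n, h⟩ else W n with hT
  have hTm : Measurable T := by
    apply measurable_pi_lambda
    intro n
    by_cases h : n ∈ I
    · simp only [hT, h, dif_pos]
      have hm : Measurable (fun w : I → ℝ => w ⟨n, h⟩) := measurable_pi_apply _
      exact (hm.const_mul ε).const_add (W n)
    · simp only [hT, h, dif_neg, not_false_iff]
      exact measurable_const
  have hB' : MeasurableSet (T ⁻¹' B) := hTm hB
  have h1 : {η : Q → ℝ | (fun n => W n + ε * η (q n)) ∈ B} =
      (fun (η : Q → ℝ) (i : I) => η (q i)) ⁻¹' (T ⁻¹' B) := by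
    ext η
    simp only [Set.mem_ofPred_eq, Set.mem_preimage]
    apply hdep
    intro n hn1 hn2
    have : n ∈ I := Finset.mem_Icc.2 ⟨hn1, hn2⟩
    simp only [hT, this, dif_pos]
  have h2 : {x : ℤ → ℝ | (fun n => W n + ε * x n) ∈ B} = I.restrict ⁻¹' (T ⁻¹' B) := by
    ext x
    simp only [Set.mem_ofPred_eq, Set.mem_preimage]
    apply hdep
    intro n hn1 hn2
    have : n ∈ I := Finset.mem_Icc.2 ⟨hn1, hn2⟩
    simp only [hT, this, dif_pos, Finset.restrict]
  have hinj : Function.Injective (fun i : I => q i) := by
    intro i j hij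
    apply Subtype.ext
    exact hq (Finset.mem_Icc.1 i.2) (Finset.mem_Icc.1 j.2) hij
  have hmeas : Measurable (fun (η : Q → ℝ) (i : I) => η (q i)) :=
    measurable_pi_lambda _ fun i => measurable_pi_apply _
  rw [h1, h2, ← Measure.map_apply hmeas hB', map_reindex _ hinj]
  rw [← Measure.map_apply (Finset.measurable_restrict I) hB']
  unfold PZ
  rw [Measure.infinitePi_map_restrict]

end Pool.Agent.TH620.J26
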