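import Pool.Agent.TH620.J34a

set_option autoImplicit false

/-! Job 34: colouring by counting. Second part. -/

namespace Pool.Agent.TH620.J34

open Finset Pool.Agent.TH444.DC

section Steps

variable {V : Type} [Fintype V] [DecidableEq V] {H : SimpleGraph V} {k : ℕ}

lemma Ls_update (U : Finset V) (u : V) (hu : u ∉ U) (f : V → Fin k) (c : Fin k) :
    Ls H k U u (Function.update f u c) = Ls H k U u f := by
  ext a
  simp only [mem_Ls]
  constructor
  · intro h x hx hux
    have := h x hx hux
    have hxu : x ≠ u := by rintro rfl; exact hu hx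
    rwa [Function.update_of_ne hxu] at this
  · intro h x hx hux
    have hxu : x ≠ u := by rintro rfl; exact hu hx
    rw [Function.update_of_ne hxu]
    exact h x hx hux

open Classical in
lemma stepB (hk : 0 < k) (l : ℝ) (hl : 0 ≤ l) (U : Finset V) (u : V) (hu : u ∈ U)
    (ih : l * (Om H k (U.erase u)).card ≤ k * (Om H k U).card) :
    l * ((Om H k U).filter (fun f => (Ls H k (U.erase u) u f).card ≤ 1)).card ≤
      (Om H k U).card := by
  have hc := count (H := H) (k := k) (U.erase u) u (Finset.notMem_erase u U)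
    (fun f => (Ls H k (U.erase u) u f).card ≤ 1)
    (fun f c => by rw [Ls_update _ _ (Finset.notMem_erase u U)])
  rw [Finset.insert_erase hu] at hc
  have h2 : ∑ f ∈ (Om H k (U.erase u)).filter (fun f => (Ls H k (U.erase u) u f).card ≤ 1),
      (Ls H k (U.erase u) u f).card ≤ (Om H k (U.erase u)).card := by
    calc _ ≤ ∑ f ∈ (Om H k (U.erase u)).filter (fun f => (Ls H k (U.erase u) u f).card ≤ 1), 1 :=
          Finset.sum_le_sum (fun f hf => (Finset.mem_filter.1 hf).2)
      _ = ((Om H k (U.erase u)).filter (fun f => (Ls H k (U.erase u) u f).card ≤ 1)).card := by simp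
      _ ≤ _ := Finset.card_filter_le _ _
  rw [← hc] at h2
  have h3 : (k : ℝ) * ((Om H k U).filter (fun f => (Ls H k (U.erase u) u f).card ≤ 1)).card ≤
      (Om H k (U.erase u)).card := by exact_mod_cast h2
  have hk' : (0 : ℝ) < k := by exact_mod_cast hk
  have h4 := mul_le_mul_of_nonneg_left h3 hl
  have h5 : (k : ℝ) * (l * ((Om H k U).filter
      (fun f => (Ls H k (U.erase u) u f).card ≤ 1)).card) ≤ k * (Om H k U).card := by
    calc _ = l * ((k : ℝ) * ((Om H k U).filter
          (fun f => (Ls H k (U.erase u) u f).card ≤ 1)).card) := by ring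
      _ ≤ _ := h4
      _ ≤ _ := ih
  exact le_of_mul_le_mul_left h5 hk'

open Classical in
/-- the vertices with at most one available colour -/
noncomputable def bad (H : SimpleGraph V) (k : ℕ) (U I : Finset V) (f : V → Fin k) : Finset V :=
  I.filter (fun u => (Ls H k (U.erase u) u f).card ≤ 1)

open Classical in
lemma stepD (hk : 0 < k) (D b : ℕ) (hb : 4 * b ≤ k) (U : Finset V) (v : V) (B I : Finset V)
    (hBb : B.card ≤ b) (hID : I.card ≤ D)
    (hI : ∀ x, x ∈ I ↔ x ∈ U ∧ H.Adj v x ∧ x ∉ B)
    (hind : ∀ x ∈ I, ∀ y ∈ I, ¬ H.Adj x y)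
    (t : {x // x ∉ I} → Fin k) :
    (k : ℝ) / 2 * Real.exp (-(4 * D / k)) *
      (((Om H k U).filter (fun f => 4 * (bad H k U I f).card ≤ k)).filter
        (fun f => (fun x : {x // x ∉ I} => f x) = t)).card ≤
      ∑ f ∈ ((Om H k U).filter (fun f => 4 * (bad H k U I f).card ≤ k)).filter
        (fun f => (fun x : {x // x ∉ I} => f x) = t), ((Ls H k U v f).card : ℝ) := by
  set F := ((Om H k U).filter (fun f => 4 * (bad H k U I f).card ≤ k)).filter
        (fun f => (fun x : {x // x ∉ I} => f x) = t) with hF
  by_cases hne : F.Nonempty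
  swap
  · rw [Finset.not_nonempty_iff_eq_empty] at hne
    rw [hne]; simp
  obtain ⟨g, hg⟩ := hne
  have hg' := hg
  simp only [hF, Finset.mem_filter, mem_Om] at hg'
  obtain ⟨⟨hgp, hgb⟩, hgt⟩ := hg'
  -- colours agree off I
  have hoff : ∀ f : V → Fin k, (fun x : {x // x ∉ I} => f x) = t ↔ ∀ x, x ∉ I → f x = g x := by
    intro f
    rw [← hgt]
    constructor
    · intro h x hx
      exact congrFun h ⟨x, hx⟩
    · intro h
      funext x
      exact h x.1 x.2
  have hLeq : ∀ f : V → Fin k, (∀ x, x ∉ I → f x = g x) → ∀ u ∈ I,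
      Ls H k (U.erase u) u f = Ls H k (U.erase u) u g := by
    intro f hf u hu
    ext a
    simp only [mem_Ls]
    constructor
    · intro h x hx hux
      have := h x hx hux
      rwa [hf x (fun hxI => hind u hu x hxI hux)] at this
    · intro h x hx hux
      rw [hf x (fun hxI => hind u hu x hxI hux)]
      exact h x hx hux
  -- the fibre is a product
  have hFP : F = Fintype.piFinset (fun x => if x ∈ I then Ls H k (U.erase x) x g else {g x}) := by
    ext f
    simp only [hF, Finset.mem_filter, mem_Om, Fintype.mem_piFinset, hoff]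
    constructor
    · rintro ⟨⟨hfp, _⟩, hfo⟩ x
      by_cases hx : x ∈ I
      · simp only [hx, if_true, mem_Ls]
        intro y hy hxy
        rw [← hfo y (fun hyI => hind x hx y hyI hxy)]
        exact hfp y (Finset.mem_of_mem_erase hy) x ((hI x).1 hx).1 hxy.symm
      · simp only [hx, if_false, Finset.mem_singleton]
        exact hfo x hx
    · intro h
      have hfo : ∀ x, x ∉ I → f x = g x := by
        intro x hx
        have := h x
        simpa [hx] using this
      have hfI : ∀ x ∈ I, ∀ y ∈ U.erase x, H.Adj x y → g y ≠ f x := by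
        intro x hx
        have := h x
        simp only [hx, if_true, mem_Ls] at this
        exact this
      refine ⟨⟨?_, ?_⟩, hfo⟩
      · intro x hx y hy hxy
        by_cases hxI : x ∈ I
        · have hyI : y ∉ I := fun hyI => hind x hxI y hyI hxy
          rw [hfo y hyI]
          exact (hfI x hxI y (Finset.mem_erase.2 ⟨hxy.ne', hy⟩) hxy).symm
        · by_cases hyI : y ∈ I
          · rw [hfo x hxI]
            exact hfI y hyI x (Finset.mem_erase.2 ⟨hxy.ne, hx⟩) hxy.symm
          · rw [hfo x hxI, hfo y hyI]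
            exact hgp x hx y hy hxy
      · have : bad H k U I f = bad H k U I g := by
          unfold bad
          apply Finset.filter_congr
          intro u hu
          rw [hLeq f hfo u hu]
        rw [this]
        exact hgb
  -- the set of good colours
  set G : Finset (Fin k) := univ.filter (fun a => (∀ x ∈ B, g x ≠ a) ∧
    ∀ u ∈ I, Ls H k (U.erase u) u g ≠ {a}) with hG
  have hGc : (k : ℝ) / 2 ≤ G.card := by
    have hsub : (univ : Finset (Fin k)) ⊆ G ∪ (B.image g ∪ (bad H k U I g).biUnion
        (fun u => Ls H k (U.erase u) u g)) := by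
      intro a _
      by_cases haG : a ∈ G
      · exact Finset.mem_union_left _ haG
      · apply Finset.mem_union_right
        simp only [hG, Finset.mem_filter, Finset.mem_univ, true_and, not_and_or] at haG
        rcases haG with h | h
        · push Not at h
          obtain ⟨x, hx, hxa⟩ := h
          exact Finset.mem_union_left _ (Finset.mem_image.2 ⟨x, hx, hxa⟩)
        · push Not at h
          obtain ⟨u, hu, hua⟩ := h
          apply Finset.mem_union_right
          rw [Finset.mem_biUnion]
          refine ⟨u, ?_, ?_⟩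
          · simp only [bad, Finset.mem_filter]
            exact ⟨hu, by rw [hua]; simp⟩
          · rw [hua]; simp
    have h1 := Finset.card_le_card hsub
    have h2 := Finset.card_union_le G (B.image g ∪ (bad H k U I g).biUnion
        (fun u => Ls H k (U.erase u) u g))
    have h3 := Finset.card_union_le (B.image g) ((bad H k U I g).biUnion
        (fun u => Ls H k (U.erase u) u g))
    have h4 : (B.image g).card ≤ B.card := Finset.card_image_le
    have h5 : ((bad H k U I g).biUnion (fun u => Ls H k (U.erase u) u g)).card ≤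
        (bad H k U I g).card * 1 := by
      apply Finset.card_biUnion_le_card_mul
      intro u hu
      simp only [bad, Finset.mem_filter] at hu
      exact hu.2
    rw [Finset.card_univ, Fintype.card_fin] at h1
    have h6 : k ≤ 2 * G.card := by omega
    have h7 : (k : ℝ) ≤ 2 * G.card := by exact_mod_cast h6
    linarith
  have hne : ∀ u ∈ I, (Ls H k (U.erase u) u g).Nonempty := by
    intro u hu
    refine ⟨g u, ?_⟩
    rw [mem_Ls]
    intro x hx hux
    exact hgp x (Finset.mem_of_mem_erase hx) u ((hI u).1 hu).1 hux.symm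
  have hGL : ∀ a ∈ G, ∀ u ∈ I, Ls H k (U.erase u) u g ≠ {a} := by
    intro a ha
    simp only [hG, Finset.mem_filter, Finset.mem_univ, true_and] at ha
    exact ha.2
  have hpb := product_bound k D hk I (fun x => Ls H k (U.erase x) x g) g hID G hGc hne hGL
  rw [hFP]
  refine hpb.trans ?_
  apply Finset.sum_le_sum
  intro f hf
  have hfo : ∀ x, x ∉ I → f x = g x := by
    intro x hx
    have := (Fintype.mem_piFinset.1 hf) x
    simpa [hx] using this
  have hsub : G.filter (fun a => ∀ u ∈ I, f u ≠ a) ⊆ Ls H k U v f := by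
    intro a ha
    simp only [hG, Finset.mem_filter, Finset.mem_univ, true_and] at ha
    rw [mem_Ls]
    intro x hx hvx
    by_cases hxI : x ∈ I
    · exact ha.2 x hxI
    · have hxB : x ∈ B := by
        by_contra hxB
        exact hxI ((hI x).2 ⟨hx, hvx, hxB⟩)
      rw [hfo x hxI]
      exact ha.1.1 x hxB
  exact_mod_cast Finset.card_le_card hsub

open Classical in
/-- the counting claim -/
lemma claim (hk : 0 < k) (D b : ℕ) (hb : 4 * b ≤ k) (l : ℝ) (hl : 0 < l)
    (hDk : 8 * (D : ℝ) ≤ k * l) (hnum : l ≤ (k : ℝ) / 4 * Real.exp (-(4 * D / k)))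
    (hdeg : ∀ v, (H.neighborSet v).ncard ≤ D)
    (hB : ∀ v, ∃ B : Set V, B.ncard ≤ b ∧
      ∀ x y, H.Adj v x → H.Adj v y → H.Adj x y → x ∈ B ∨ y ∈ B) :
    ∀ (U : Finset V) (v : V), v ∉ U →
      l * (Om H k U).card ≤ k * (Om H k (insert v U)).card := by
  intro U
  induction U using Finset.strongInduction with
  | H U ih =>
  intro v hv
  obtain ⟨B', hB'c, hB'⟩ := hB v
  set B : Finset V := B'.toFinset with hBdef
  have hBc : B.card ≤ b := by rw [hBdef, ← Set.ncard_eq_toFinset_card']; exact hB'c
  have hBm : ∀ x, x ∈ B ↔ x ∈ B' := by intro x; simp [hBdef]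
  set I : Finset V := U.filter (fun x => H.Adj v x ∧ x ∉ B) with hIdef
  have hI : ∀ x, x ∈ I ↔ x ∈ U ∧ H.Adj v x ∧ x ∉ B := by
    intro x; simp [hIdef]
  have hID : I.card ≤ D := by
    refine le_trans ?_ (hdeg v)
    rw [← Set.ncard_coe_finset I]
    apply Set.ncard_le_ncard _ (Set.toFinite _)
    intro x hx
    exact ((hI x).1 (by exact_mod_cast hx)).2.1
  have hind : ∀ x ∈ I, ∀ y ∈ I, ¬ H.Adj x y := by
    intro x hx y hy hxy
    rcases hB' x y ((hI x).1 hx).2.1 ((hI y).1 hy).2.1 hxy with h | h
    · exact ((hI x).1 hx).2.2 ((hBm x).2 h)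
    · exact ((hI y).1 hy).2.2 ((hBm y).2 h)
  have hk' : (0 : ℝ) < k := by exact_mod_cast hk
  set N : ℝ := ((Om H k U).card : ℝ) with hN
  have hN0 : 0 ≤ N := Nat.cast_nonneg _
  -- the count of the bad pairs
  have hbadsum : l * ∑ f ∈ Om H k U, ((bad H k U I f).card : ℝ) ≤ D * N := by
    have h1 : ∑ f ∈ Om H k U, ((bad H k U I f).card : ℝ) =
        ∑ u ∈ I, (((Om H k U).filter
          (fun f => (Ls H k (U.erase u) u f).card ≤ 1)).card : ℝ) := by
      unfold bad
      simp_rw [Finset.card_filter, Nat.cast_sum]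
      exact Finset.sum_comm
    rw [h1, Finset.mul_sum]
    calc _ ≤ ∑ u ∈ I, N := by
          apply Finset.sum_le_sum
          intro u hu
          have huU : u ∈ U := ((hI u).1 hu).1
          apply stepB hk l hl.le U u huU
          have := ih (U.erase u) (Finset.erase_ssubset huU) u (Finset.notMem_erase u U)
          rwa [Finset.insert_erase huU] at this
      _ = I.card * N := by rw [Finset.sum_const, nsmul_eq_mul]
      _ ≤ D * N := by
          apply mul_le_mul_of_nonneg_right _ hN0
          exact_mod_cast hID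
  -- at least half of the colourings are good
  have hgood : N / 2 ≤ ((Om H k U).filter (fun f => 4 * (bad H k U I f).card ≤ k)).card := by
    have h1 : (k : ℝ) * ((Om H k U).filter (fun f => ¬ 4 * (bad H k U I f).card ≤ k)).card ≤
        4 * ∑ f ∈ Om H k U, ((bad H k U I f).card : ℝ) := by
      calc (k : ℝ) * ((Om H k U).filter (fun f => ¬ 4 * (bad H k U I f).card ≤ k)).card
          = ∑ f ∈ (Om H k U).filter (fun f => ¬ 4 * (bad H k U I f).card ≤ k), (k : ℝ) := by
            rw [Finset.sum_const, nsmul_eq_mul, mul_comm]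
        _ ≤ ∑ f ∈ (Om H k U).filter (fun f => ¬ 4 * (bad H k U I f).card ≤ k),
              4 * ((bad H k U I f).card : ℝ) := by
            apply Finset.sum_le_sum
            intro f hf
            have := (Finset.mem_filter.1 hf).2
            have h2 : k ≤ 4 * (bad H k U I f).card := by omega
            exact_mod_cast h2
        _ ≤ ∑ f ∈ Om H k U, 4 * ((bad H k U I f).card : ℝ) := by
            apply Finset.sum_le_sum_of_subset_of_nonneg (Finset.filter_subset _ _)
            intro f _ _
            positivity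
        _ = _ := by rw [Finset.mul_sum]
    have h2 : ((Om H k U).filter (fun f => 4 * (bad H k U I f).card ≤ k)).card +
        ((Om H k U).filter (fun f => ¬ 4 * (bad H k U I f).card ≤ k)).card = (Om H k U).card :=
      Finset.card_filter_add_card_filter_not _
    have h3 : (((Om H k U).filter (fun f => 4 * (bad H k U I f).card ≤ k)).card : ℝ) +
        ((Om H k U).filter (fun f => ¬ 4 * (bad H k U I f).card ≤ k)).card = N := by
      rw [hN]; exact_mod_cast h2
    set y : ℝ := (((Om H k U).filter (fun f => ¬ 4 * (bad H k U I f).card ≤ k)).card : ℝ)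
    have h4 : k * l * y ≤ k * l * (N / 2) := by
      calc k * l * y = l * (k * y) := by ring
        _ ≤ l * (4 * ∑ f ∈ Om H k U, ((bad H k U I f).card : ℝ)) :=
            mul_le_mul_of_nonneg_left h1 hl.le
        _ = 4 * (l * ∑ f ∈ Om H k U, ((bad H k U I f).card : ℝ)) := by ring
        _ ≤ 4 * (D * N) := by linarith
        _ ≤ k * l * (N / 2) := by nlinarith
    have h5 : y ≤ N / 2 := le_of_mul_le_mul_left h4 (by positivity)
    linarith
  -- the main count
  have hcount := count (H := H) (k := k) U v hv (fun _ => True) (fun _ _ => Iff.rfl)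
  simp only [Finset.filter_true] at hcount
  have hcount' : (k : ℝ) * (Om H k (insert v U)).card =
      ∑ f ∈ Om H k U, ((Ls H k U v f).card : ℝ) := by exact_mod_cast hcount
  rw [hcount']
  set c : ℝ := (k : ℝ) / 2 * Real.exp (-(4 * D / k)) with hc
  have hc0 : 0 ≤ c := by positivity
  calc l * N ≤ c * (N / 2) := by
        have : l ≤ c / 2 := by rw [hc]; linarith
        nlinarith
    _ ≤ c * ((Om H k U).filter (fun f => 4 * (bad H k U I f).card ≤ k)).card :=
        mul_le_mul_of_nonneg_left hgood hc0
    _ = ∑ t : {x // x ∉ I} → Fin k, c *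
          (((Om H k U).filter (fun f => 4 * (bad H k U I f).card ≤ k)).filter
            (fun f => (fun x : {x // x ∉ I} => f x) = t)).card := by
        rw [← Finset.mul_sum]
        congr 1
        have := Finset.card_eq_sum_card_fiberwise
          (f := fun (f : V → Fin k) => (fun x : {x // x ∉ I} => f x))
          (s := (Om H k U).filter (fun f => 4 * (bad H k U I f).card ≤ k))
          (t := univ) (fun x _ => by simp)
        rw [this]
        push_cast
        rfl
    _ ≤ ∑ t : {x // x ∉ I} → Fin k,
          ∑ f ∈ ((Om H k U).filter (fun f => 4 * (bad H k U I f).card ≤ k)).filter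
            (fun f => (fun x : {x // x ∉ I} => f x) = t), ((Ls H k U v f).card : ℝ) := by
        apply Finset.sum_le_sum
        intro t _
        exact stepD hk D b hb U v B I hBc hID hI hind t
    _ = ∑ f ∈ (Om H k U).filter (fun f => 4 * (bad H k U I f).card ≤ k),
          ((Ls H k U v f).card : ℝ) := by
        exact Finset.sum_fiberwise_of_maps_to (fun x _ => Finset.mem_univ _) _
    _ ≤ _ := by
        apply Finset.sum_le_sum_of_subset_of_nonneg (Finset.filter_subset _ _)
        intro f _ _
        positivity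

lemma Om_pos (hk : 0 < k) (D b : ℕ) (hb : 4 * b ≤ k) (l : ℝ) (hl : 0 < l)
    (hDk : 8 * (D : ℝ) ≤ k * l) (hnum : l ≤ (k : ℝ) / 4 * Real.exp (-(4 * D / k)))
    (hdeg : ∀ v, (H.neighborSet v).ncard ≤ D)
    (hB : ∀ v, ∃ B : Set V, B.ncard ≤ b ∧
      ∀ x y, H.Adj v x → H.Adj v y → H.Adj x y → x ∈ B ∨ y ∈ B) (U : Finset V) :
    0 < (Om H k U).card := by
  classical
  induction U using Finset.induction_on with
  | empty =>
    rw [Finset.card_pos]
    exact ⟨fun _ => ⟨0, hk⟩, by simp [mem_Om]⟩
  | insert v U hv ih =>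
    have h := claim hk D b hb l hl hDk hnum hdeg hB U v hv
    have hk' : (0 : ℝ) < k := by exact_mod_cast hk
    have h1 : (0 : ℝ) < l * (Om H k U).card := mul_pos hl (by exact_mod_cast ih)
    have h2 : (0 : ℝ) < k * (Om H k (insert v U)).card := lt_of_lt_of_le h1 h
    have h3 : (0 : ℝ) < (Om H k (insert v U)).card := by
      by_contra hcon
      push Not at hcon
      nlinarith
    exact_mod_cast h3

end Steps

/-- the numerical condition on `D` -/
lemma num : ∃ D0 : ℕ, ∀ D : ℕ, D0 ≤ D → 1 < D ∧ (Real.log D) ^ 2 ≤ 2 * Real.sqrt D := by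
  have h1 := (Real.isLittleO_pow_log_id_atTop (n := 2)).bound (show (0 : ℝ) < 1 / 2 by norm_num)
  have h2 : Filter.Tendsto (fun D : ℕ => Real.sqrt D) Filter.atTop Filter.atTop :=
    Real.tendsto_sqrt_atTop.comp tendsto_natCast_atTop_atTop
  have h3 := h2.eventually h1
  obtain ⟨D0, hD0⟩ := Filter.eventually_atTop.1 h3
  refine ⟨max D0 2, fun D hD => ⟨by omega, ?_⟩⟩
  have h := hD0 D (by omega)
  have hD' : (0 : ℝ) ≤ D := Nat.cast_nonneg _
  rw [Real.log_sqrt hD'] at h
  simp only [id, norm_pow, Real.norm_eq_abs, sq_abs, abs_of_nonneg (Real.sqrt_nonneg _)] at h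
  nlinarith

theorem t_F2 : S_F2 := by
  classical
  obtain ⟨D0, hD0⟩ := num
  refine ⟨D0, ?_⟩
  intro V _ H D k b hD hDk hb hdeg hB
  obtain ⟨hD1, hlog⟩ := hD0 D hD
  have hD1' : (1 : ℝ) < D := by exact_mod_cast hD1
  have hDpos : (0 : ℝ) < D := by linarith
  have hl : 0 < Real.log D := Real.log_pos hD1'
  have hk : 0 < k := by
    rcases Nat.eq_zero_or_pos k with h | h
    · subst h
      simp at hDk
      linarith
    · exact h
  have hk' : (0 : ℝ) < k := by exact_mod_cast hk
  have hnum : Real.log D ≤ (k : ℝ) / 4 * Real.exp (-(4 * D / k)) := by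
    have h1 : 4 * (D : ℝ) / k ≤ Real.log D / 2 := by
      rw [div_le_div_iff₀ hk' two_pos]
      linarith
    have h2 : Real.exp (-(Real.log D / 2)) ≤ Real.exp (-(4 * D / k)) :=
      Real.exp_le_exp.2 (by linarith)
    have h3 : Real.exp (-(Real.log D / 2)) = (Real.sqrt D)⁻¹ := by
      rw [Real.exp_neg, Real.exp_half, Real.exp_log hDpos]
    rw [h3] at h2
    have hs : 0 < Real.sqrt D := Real.sqrt_pos.2 hDpos
    have hss : Real.sqrt D * Real.sqrt D = D := Real.mul_self_sqrt hDpos.le
    have h4 : Real.log D ≤ (k : ℝ) / 4 * (Real.sqrt D)⁻¹ := by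
      rw [← div_eq_mul_inv, le_div_iff₀ hs]
      -- log D * sqrt D ≤ k / 4
      have h5 : Real.log D * (Real.log D * Real.sqrt D) ≤ Real.log D * ((k : ℝ) / 4) := by
        calc Real.log D * (Real.log D * Real.sqrt D) = (Real.log D) ^ 2 * Real.sqrt D := by ring
          _ ≤ 2 * Real.sqrt D * Real.sqrt D := mul_le_mul_of_nonneg_right hlog hs.le
          _ = 2 * D := by rw [mul_assoc, hss]
          _ ≤ Real.log D * ((k : ℝ) / 4) := by linarith
      exact le_of_mul_le_mul_left h5 hl
    refine h4.trans ?_
    apply mul_le_mul_of_nonneg_left h2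
    positivity
  have hpos := Om_pos (H := H) hk D b hb (Real.log D) hl hDk hnum hdeg hB Finset.univ
  rw [Finset.card_pos] at hpos
  obtain ⟨f, hf⟩ := hpos
  rw [mem_Om] at hf
  exact ⟨SimpleGraph.Coloring.mk f (fun {x y} hxy => hf x (Finset.mem_univ _) y
    (Finset.mem_univ _) hxy)⟩

end Pool.Agent.TH620.J34
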