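import Pool.Agent.TH444.DC.Defs

set_option autoImplicit false

/-! Job 36: an odd closed walk is at least as long as some odd cycle. -/

namespace Pool.Agent.TH620.J36

open Pool.Agent.TH444.DC SimpleGraph

lemma exists_cycle {X : Type} (F : SimpleGraph X) :
    ∀ n : ℕ, ∀ (x : X) (p : F.Walk x x), p.length = n → Odd n →
      ∃ (l : ℕ) (v : X) (c : F.Walk v v), c.IsCycle ∧ c.length = l ∧ l ≤ n := by
  intro n
  induction n using Nat.strong_induction_on with
  | _ n ih =>
  intro x p hn hodd
  by_cases hinj : ∃ i j : ℕ, 1 ≤ i ∧ i < j ∧ j ≤ n ∧ p.getVert i = p.getVert j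
  · obtain ⟨i, j, hi, hij, hj, he⟩ := hinj
    -- the two closed walks
    let c1 : F.Walk (p.getVert i) (p.getVert j) :=
      ((p.drop i).take (j - i)).copy rfl (by simp only [Walk.drop_getVert]; congr 1; omega)
    have hc1 : c1.length = j - i := by
      simp only [c1, Walk.length_copy, Walk.take_length, Walk.drop_length]
      omega
    let c2 : F.Walk x x := ((p.take i).copy rfl he).append (p.drop j)
    have hc2 : c2.length = n - (j - i) := by
      simp only [c2, Walk.length_append, Walk.length_copy, Walk.take_length, Walk.drop_length]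
      omega
    rcases Nat.even_or_odd (j - i) with hev | hod
    · have hod2 : Odd (n - (j - i)) := Nat.Odd.sub_even (by omega) hodd hev
      obtain ⟨l, v, c, hc, hl, hle⟩ := ih (n - (j - i)) (by omega) x c2 hc2 hod2
      exact ⟨l, v, c, hc, hl, by omega⟩
    · obtain ⟨l, v, c, hc, hl, hle⟩ := ih (j - i) (by omega) _ (c1.copy rfl he.symm)
        (by rw [Walk.length_copy]; exact hc1) hod
      exact ⟨l, v, c, hc, hl, by omega⟩
  · cases p with
    | nil => simp at hn; subst hn; simp at hodd
    | @cons _ y _ h q =>
      have hq : q.IsPath := by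
        rw [Walk.isPath_def]
        rw [List.nodup_iff_injective_getElem]
        intro a b hab
        simp only [Walk.support_getElem_eq_getVert] at hab
        have ha := a.2
        have hb := b.2
        simp only [Walk.length_support] at ha hb
        simp only [Walk.length_cons] at hn
        by_contra hne
        have hne' : (a : ℕ) ≠ b := fun h => hne (Fin.ext h)
        rcases lt_or_gt_of_ne hne' with hlt | hlt
        · exact hinj ⟨a + 1, b + 1, by omega, by omega, by omega, by
            simpa [Walk.getVert_cons_succ] using hab⟩
        · exact hinj ⟨b + 1, a + 1, by omega, by omega, by omega, by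
            simpa [Walk.getVert_cons_succ] using hab.symm⟩
      by_cases hm : s(x, y) ∈ q.edges
      · have h1 := hq.length_eq_one_of_mem_edges (by rwa [Sym2.eq_swap])
        simp only [Walk.length_cons, h1] at hn
        subst hn
        exact absurd hodd (by decide)
      · exact ⟨n, x, Walk.cons h q, (Walk.cons_isCycle_iff _ _).2 ⟨hq, hm⟩, hn, le_rfl⟩

theorem t_W : S_W := by
  intro X F g hg x p hp
  by_contra hlt
  push Not at hlt
  obtain ⟨l, v, c, hc, hl, hle⟩ := exists_cycle F p.length x p rfl hp
  exact hg l (by omega) ⟨v, c, hc, hl⟩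

end Pool.Agent.TH620.J36
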