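import Pool.Agent.TH620.BK_E2a

set_option autoImplicit false

/-! Job 171: spread triples around a clique, second part. -/

namespace Pool.Agent.TH620.BK

open Finset Pool.Agent.TH451.BK
open scoped Classical

variable {V : Type} [Fintype V]

section Trunc

variable (G : SimpleGraph V) {k m N : ℕ} (B : ℕ) (u y y' : Fin m → V)

/-- all the vertices of the triples -/
noncomputable def ZZ : Finset V := univ.image u ∪ univ.image y ∪ univ.image y'

/-- a colour class which is not overfull -/
def okc (a : V → Fin N) : Prop := ((ZZ u y y').filter (fun z => (a z).val = 0)).card ≤ B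

/-- retained in one colour class -/
def retc (a : V → Fin N) (x : V) : Prop := (a x).val = 0 ∧ ∀ z, G.Adj x z → ¬ (a z).val = 0

/-- truncated status of a triple -/
def St (w : Fin k → V → Fin N) (j : Fin m) : Prop :=
  (∀ c, okc B u y y' (w c) → ¬ (w c (u j)).val = 0) ∧
    (∃ c, okc B u y y' (w c) ∧ retc G (w c) (y j)) ∧
    (∃ c, okc B u y y' (w c) ∧ retc G (w c) (y' j))

/-- the triple sees the colour class -/
def see (a : V → Fin N) (j : Fin m) : Prop :=
  okc B u y y' a ∧ ((a (u j)).val = 0 ∨ (a (y j)).val = 0 ∨ (a (y' j)).val = 0)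

lemma St_change (w w' : Fin k → V → Fin N) (c₀ : Fin k) (h : ∀ c, c ≠ c₀ → w c = w' c)
    (j : Fin m) (hs : St G B u y y' w j) (h1 : ¬ see B u y y' (w c₀) j)
    (h2 : ¬ see B u y y' (w' c₀) j) : St G B u y y' w' j := by
  obtain ⟨ha, ⟨c, hc1, hc2⟩, ⟨c', hc1', hc2'⟩⟩ := hs
  refine ⟨?_, ⟨c, ?_, ?_⟩, ⟨c', ?_, ?_⟩⟩
  · intro d hd h0
    by_cases hdc : d = c₀
    · subst hdc
      exact h2 ⟨hd, Or.inl h0⟩
    · rw [← h d hdc] at hd h0
      exact ha d hd h0
  all_goals
    first
    | (have hcc : c ≠ c₀ := by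
        rintro rfl
        exact h1 ⟨hc1, Or.inr (Or.inl hc2.1)⟩
       rw [← h c hcc]
       assumption)
    | (have hcc' : c' ≠ c₀ := by
        rintro rfl
        exact h1 ⟨hc1', Or.inr (Or.inr hc2'.1)⟩
       rw [← h c' hcc']
       assumption)

lemma card_see {C : Finset V} (hS : Spread G C u y y') (a : V → Fin N) :
    (univ.filter (fun j => see B u y y' a j)).card ≤ B := by
  by_cases hok : okc B u y y' a
  swap
  · have : univ.filter (fun j => see B u y y' a j) = ∅ := by
      rw [Finset.filter_eq_empty_iff]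
      intro j _ hj
      exact hok hj.1
    rw [this]; simp
  refine le_trans ?_ hok
  -- choose an activated vertex
  have hch : ∀ j : Fin m, ∃ x : V, see B u y y' a j → ((x = u j ∨ x = y j ∨ x = y' j) ∧
      (a x).val = 0) := by
    intro j
    by_cases hj : see B u y y' a j
    · rcases hj.2 with h | h | h
      · exact ⟨u j, fun _ => ⟨Or.inl rfl, h⟩⟩
      · exact ⟨y j, fun _ => ⟨Or.inr (Or.inl rfl), h⟩⟩
      · exact ⟨y' j, fun _ => ⟨Or.inr (Or.inr rfl), h⟩⟩
    · exact ⟨u j, fun h => absurd h hj⟩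
  choose x hx using hch
  apply Finset.card_le_card_of_injOn x
  · intro j hj
    have hj' : see B u y y' a j := by
      have := Finset.mem_coe.1 hj
      exact (Finset.mem_filter.1 this).2
    obtain ⟨h1, h2⟩ := hx j hj'
    rw [Finset.mem_coe, Finset.mem_filter]
    refine ⟨?_, h2⟩
    simp only [ZZ, Finset.mem_union, Finset.mem_image, Finset.mem_univ, true_and]
    rcases h1 with h | h | h
    · exact Or.inl (Or.inl ⟨j, h.symm⟩)
    · exact Or.inl (Or.inr ⟨j, h.symm⟩)
    · exact Or.inr ⟨j, h.symm⟩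
  · intro i hi j hj hij
    have hi' : see B u y y' a i := (Finset.mem_filter.1 (Finset.mem_coe.1 hi)).2
    have hj' : see B u y y' a j := (Finset.mem_filter.1 (Finset.mem_coe.1 hj)).2
    obtain ⟨h1, _⟩ := hx i hi'
    obtain ⟨h2, _⟩ := hx j hj'
    rw [← hij] at h2
    rcases h1 with h1 | h1 | h1 <;> rcases h2 with h2 | h2 | h2
    · exact hS.injU (h1.symm.trans h2)
    · exact absurd (hS.uC i) (by rw [h1.symm.trans h2]; exact hS.yC j)
    · exact absurd (hS.uC i) (by rw [h1.symm.trans h2]; exact hS.yC' j)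
    · exact absurd (hS.uC j) (by rw [← h1.symm.trans h2]; exact hS.yC i)
    · exact hS.injY (h1.symm.trans h2)
    · exact absurd (h1.symm.trans h2) (hS.yy i j)
    · exact absurd (hS.uC j) (by rw [← h1.symm.trans h2]; exact hS.yC' i)
    · exact absurd (h2.symm.trans h1) (hS.yy j i)
    · exact hS.injY' (h1.symm.trans h2)

/-- truncated number of good triples -/
noncomputable def NN (w : Fin k → V → Fin N) : ℝ :=
  ((univ.filter (fun j => St G B u y y' w j)).card : ℝ)

lemma NN_sub_le {C : Finset V} (hS : Spread G C u y y') (c₀ : Fin k)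
    (w w' : Fin k → V → Fin N) (h : ∀ c, c ≠ c₀ → w c = w' c) :
    NN G B u y y' w - NN G B u y y' w' ≤ 2 * B := by
  have hsub : univ.filter (fun j => St G B u y y' w j) ⊆
      univ.filter (fun j => St G B u y y' w' j) ∪ (univ.filter (fun j => see B u y y' (w c₀) j) ∪
        univ.filter (fun j => see B u y y' (w' c₀) j)) := by
    intro j hj
    have hj' := (Finset.mem_filter.1 hj).2
    simp only [Finset.mem_union, Finset.mem_filter, Finset.mem_univ, true_and]
    by_cases h1 : see B u y y' (w c₀) j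
    · exact Or.inr (Or.inl h1)
    · by_cases h2 : see B u y y' (w' c₀) j
      · exact Or.inr (Or.inr h2)
      · exact Or.inl (St_change G B u y y' w w' c₀ h j hj' h1 h2)
  have h1 := Finset.card_le_card hsub
  have h2 := Finset.card_union_le (univ.filter (fun j => St G B u y y' w' j))
    (univ.filter (fun j => see B u y y' (w c₀) j) ∪ univ.filter (fun j => see B u y y' (w' c₀) j))
  have h3 := Finset.card_union_le (univ.filter (fun j => see B u y y' (w c₀) j))
    (univ.filter (fun j => see B u y y' (w' c₀) j))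
  have h4 := card_see G B u y y' hS (w c₀)
  have h5 := card_see G B u y y' hS (w' c₀)
  have h6 : (univ.filter (fun j => St G B u y y' w j)).card ≤
      (univ.filter (fun j => St G B u y y' w' j)).card + 2 * B := by omega
  unfold NN
  have h7 : ((univ.filter (fun j => St G B u y y' w j)).card : ℝ) ≤
      (univ.filter (fun j => St G B u y y' w' j)).card + 2 * B := by exact_mod_cast h6
  linarith

end Trunc

/-- JOB E2b -/
theorem E2_bound (G : SimpleGraph V) (k m B : ℕ) (hk : 100 ≤ k) (hm : 1 ≤ m) (hB : 1 ≤ B)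
    (hdeg : ∀ v, (nb G v).card ≤ k + 1) (C : Finset V) (u y y' : Fin m → V)
    (hS : Spread G C u y y')
    (hov : 4096 * ((k : ℝ) * ((3 * m : ℕ) : ℝ) ^ (B + 1)) ≤ ((16 * (k + 1) : ℕ) : ℝ) ^ (B + 1)) :
    ((univ.filter (fun ω : V → Fin k → Fin (16 * (k + 1)) =>
      (∀ c : Fin k, ((univ.image u ∪ univ.image y ∪ univ.image y').filter
        (fun z => act ω z c)).card ≤ B) ∧
      2048 * (univ.filter (fun j : Fin m => (∀ c, ¬ act ω (u j) c) ∧
        (∃ c, ret G ω (y j) c) ∧ (∃ c, ret G ω (y' j) c))).card < m)).card : ℝ) ≤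
      Real.exp (-((m : ℝ) ^ 2) / (2 ^ 27 * (B : ℝ) ^ 2 * (k : ℝ))) *
        (Fintype.card (V → Fin k → Fin (16 * (k + 1))) : ℝ) := by
  set N := 16 * (k + 1) with hN
  have hNpos : 0 < N := by omega
  have : Nonempty (Fin N) := ⟨⟨0, hNpos⟩⟩
  have hm' : (1 : ℝ) ≤ m := by exact_mod_cast hm
  have hk' : (100 : ℝ) ≤ k := by exact_mod_cast hk
  have hB' : (1 : ℝ) ≤ B := by exact_mod_cast hB
  -- the transposed sample
  let e : (Fin k → V → Fin N) ≃ (V → Fin k → Fin N) :=
    ⟨fun w x c => w c x, fun ω c x => ω x c, fun _ => rfl, fun _ => rfl⟩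
  -- good triples
  set J : (V → Fin k → Fin N) → Finset (Fin m) := fun ω =>
    univ.filter (fun j : Fin m => (∀ c, ¬ act ω (u j) c) ∧
        (∃ c, ret G ω (y j) c) ∧ (∃ c, ret G ω (y' j) c)) with hJ
  set allok : (V → Fin k → Fin N) → Prop := fun ω =>
    ∀ c : Fin k, ((univ.image u ∪ univ.image y ∪ univ.image y').filter
        (fun z => act ω z c)).card ≤ B with hallok
  have hNN : ∀ w : Fin k → V → Fin N, allok (e w) → NN G B u y y' w = ((J (e w)).card : ℝ) := by
    intro w hw
    have hokc : ∀ c, okc B u y y' (w c) := by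
      intro c
      refine le_trans (Finset.card_le_card ?_) (hw c)
      intro z hz
      rw [Finset.mem_filter] at hz ⊢
      exact hz
    unfold NN
    congr 2
    apply Finset.filter_congr
    intro j _
    constructor
    · rintro ⟨h1, ⟨c, _, hc⟩, ⟨c', _, hc'⟩⟩
      exact ⟨fun d => h1 d (hokc d), ⟨c, hc⟩, ⟨c', hc'⟩⟩
    · rintro ⟨h1, ⟨c, hc⟩, ⟨c', hc'⟩⟩
      exact ⟨fun d _ => h1 d, ⟨c, hokc c, hc⟩, ⟨c', hokc c', hc'⟩⟩
  set Ω : ℝ := (Fintype.card (V → Fin k → Fin N) : ℝ) with hΩ
  have hΩ0 : 0 ≤ Ω := Nat.cast_nonneg _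
  have hW : (Fintype.card (Fin k → V → Fin N) : ℝ) = Ω := by
    rw [hΩ, Fintype.card_congr e]
  have hWpos : 0 < Ω := by
    rw [hΩ]
    exact_mod_cast Fintype.card_pos
  -- overflow
  set ov : ℝ := ((univ.filter (fun ω : V → Fin k → Fin N => ¬ allok ω)).card : ℝ) with hovd
  have hovle : ov ≤ Ω / 4096 := by
    have h1 := E2_overflow k N hNpos (univ.image u ∪ univ.image y ∪ univ.image y') B
    have hsub : univ.filter (fun ω : V → Fin k → Fin N => ¬ allok ω) ⊆
        univ.filter (fun ω : V → Fin k → Fin N => ∃ c : Fin k, B + 1 ≤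
          ((univ.image u ∪ univ.image y ∪ univ.image y').filter (fun z => act ω z c)).card) := by
      intro ω hω
      rw [Finset.mem_filter] at hω ⊢
      refine ⟨Finset.mem_univ _, ?_⟩
      have h2 := hω.2
      simp only [hallok] at h2
      push Not at h2
      obtain ⟨c, hc⟩ := h2
      exact ⟨c, hc⟩
    have h2 : ov ≤ ((univ.filter (fun ω : V → Fin k → Fin N => ∃ c : Fin k, B + 1 ≤
          ((univ.image u ∪ univ.image y ∪ univ.image y').filter
            (fun z => act ω z c)).card)).card : ℝ) := by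
      rw [hovd]
      exact_mod_cast Finset.card_le_card hsub
    have hZ : ((univ.image u ∪ univ.image y ∪ univ.image y').card : ℝ) ≤ ((3 * m : ℕ) : ℝ) := by
      have h3 := Finset.card_union_le (univ.image u ∪ univ.image y) (univ.image y')
      have h4 := Finset.card_union_le (univ.image u) (univ.image y)
      have h5 : (univ.image u).card ≤ m := Finset.card_image_le.trans (by simp)
      have h6 : (univ.image y).card ≤ m := Finset.card_image_le.trans (by simp)
      have h7 : (univ.image y').card ≤ m := Finset.card_image_le.trans (by simp)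
      have h8 : (univ.image u ∪ univ.image y ∪ univ.image y').card ≤ 3 * m := by omega
      exact_mod_cast h8
    have hNp : (0 : ℝ) < (N : ℝ) ^ (B + 1) := by
      have : (0 : ℝ) < N := by exact_mod_cast hNpos
      positivity
    have h3 : ov * (N : ℝ) ^ (B + 1) ≤ Ω / 4096 * (N : ℝ) ^ (B + 1) := by
      calc ov * (N : ℝ) ^ (B + 1) ≤ _ := mul_le_mul_of_nonneg_right h2 hNp.le
        _ ≤ (k : ℝ) * ((univ.image u ∪ univ.image y ∪ univ.image y').card : ℝ) ^ (B + 1) * Ω := h1
        _ ≤ (k : ℝ) * ((3 * m : ℕ) : ℝ) ^ (B + 1) * Ω := by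
            apply mul_le_mul_of_nonneg_right _ hΩ0
            apply mul_le_mul_of_nonneg_left _ (by positivity)
            exact pow_le_pow_left₀ (Nat.cast_nonneg _) hZ _
        _ ≤ (N : ℝ) ^ (B + 1) / 4096 * Ω := by
            apply mul_le_mul_of_nonneg_right _ hΩ0
            linarith
        _ = _ := by ring
    exact le_of_mul_le_mul_right h3 hNp
  -- the sum of the numbers of good triples
  have hJsum : (m : ℝ) * (Ω / 1024) ≤ ∑ ω : V → Fin k → Fin N, ((J ω).card : ℝ) := by
    have h1 : ∑ ω : V → Fin k → Fin N, ((J ω).card : ℝ) = ∑ j : Fin m,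
        ((univ.filter (fun ω : V → Fin k → Fin N => (∀ c, ¬ act ω (u j) c) ∧
          (∃ c, ret G ω (y j) c) ∧ (∃ c, ret G ω (y' j) c))).card : ℝ) := by
      simp only [hJ, Finset.card_filter, Nat.cast_sum]
      exact Finset.sum_comm
    rw [h1]
    calc (m : ℝ) * (Ω / 1024) = ∑ _j : Fin m, Ω / 1024 := by
          rw [Finset.sum_const, Finset.card_univ, Fintype.card_fin, nsmul_eq_mul]
      _ ≤ _ := by
          apply Finset.sum_le_sum
          intro j _
          have h2 := single G k hk hdeg (u j) (y j) (y' j)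
            (fun h => hS.yC j (by rw [← h]; exact hS.uC j))
            (fun h => hS.yC' j (by rw [← h]; exact hS.uC j)) (hS.yy j j)
          rw [div_le_iff₀ (by norm_num)]
          linarith
  -- the mean of NN
  have hsum : 3 * (m : ℝ) / 4096 * Ω ≤ ∑ w : Fin k → V → Fin N, NN G B u y y' w := by
    have h1 : ∀ w : Fin k → V → Fin N, ((J (e w)).card : ℝ) -
        (if ¬ allok (e w) then (m : ℝ) else 0) ≤ NN G B u y y' w := by
      intro w
      by_cases hw : allok (e w)
      · rw [hNN w hw]
        simp [hw]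
      · simp only [hw, not_false_eq_true, if_true]
        have h2 : ((J (e w)).card : ℝ) ≤ m := by
          have := Finset.card_le_univ (J (e w))
          rw [Fintype.card_fin] at this
          exact_mod_cast this
        have h3 : 0 ≤ NN G B u y y' w := by unfold NN; positivity
        linarith
    have h2 : ∑ w : Fin k → V → Fin N, ((J (e w)).card : ℝ) =
        ∑ ω : V → Fin k → Fin N, ((J ω).card : ℝ) := Equiv.sum_comp e (fun ω => ((J ω).card : ℝ))
    have h3 : ∑ w : Fin k → V → Fin N, (if ¬ allok (e w) then (m : ℝ) else 0) = m * ov := by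
      rw [Equiv.sum_comp e (fun ω => if ¬ allok ω then (m : ℝ) else 0), ← Finset.sum_filter,
        Finset.sum_const, nsmul_eq_mul, hovd, mul_comm]
    have h4 := Finset.sum_le_sum (fun w (_ : w ∈ (univ : Finset (Fin k → V → Fin N))) => h1 w)
    rw [Finset.sum_sub_distrib, h2, h3] at h4
    have h5 : (m : ℝ) * ov ≤ m * (Ω / 4096) := mul_le_mul_of_nonneg_left hovle (by linarith)
    nlinarith
  -- McDiarmid
  have hmc := Pool.Agent.QCube.mcd_lower (I := Fin k) (X := V → Fin N) (NN G B u y y')
    (fun _ => 2 * (B : ℝ)) (fun _ => by positivity) (by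
      intro i w w' h
      rw [abs_le]
      constructor
      · have := NN_sub_le G B u y y' hS i w' w (fun c hc => (h c hc).symm)
        linarith
      · exact NN_sub_le G B u y y' hS i w w' h) (4 * (B : ℝ) ^ 2 * k) ((m : ℝ) / 4096)
    (by
      rw [Finset.sum_const, Finset.card_univ, Fintype.card_fin, nsmul_eq_mul]
      apply le_of_eq; ring)
    (by positivity) (by positivity)
  rw [hW] at hmc
  have hexp : -((m : ℝ) / 4096) ^ 2 / (2 * (4 * (B : ℝ) ^ 2 * k)) =
      -((m : ℝ) ^ 2) / (2 ^ 27 * (B : ℝ) ^ 2 * (k : ℝ)) := by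
    have hBne : (B : ℝ) ≠ 0 := by linarith
    have hkne : (k : ℝ) ≠ 0 := by linarith
    field_simp
    norm_num
  have hexp' : -(((m : ℝ) / 4096) ^ 2) / (2 * (4 * (B : ℝ) ^ 2 * k)) =
      -((m : ℝ) ^ 2) / (2 ^ 27 * (B : ℝ) ^ 2 * (k : ℝ)) := hexp
  rw [hexp'] at hmc
  refine le_trans ?_ hmc
  have hfinal : (univ.filter (fun ω : V → Fin k → Fin N => allok ω ∧
      2048 * (J ω).card < m)).card ≤ (univ.filter (fun w : Fin k → V → Fin N =>
        NN G B u y y' w ≤ (∑ w' : Fin k → V → Fin N, NN G B u y y' w') / Ω - (m : ℝ) / 4096)).card := by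
    apply Finset.card_le_card_of_injOn e.symm
    · intro ω hω
      rw [Finset.mem_coe, Finset.mem_filter] at hω ⊢
      refine ⟨Finset.mem_univ _, ?_⟩
      have h1 := hNN (e.symm ω) (by rw [Equiv.apply_symm_apply]; exact hω.2.1)
      rw [Equiv.apply_symm_apply] at h1
      rw [h1]
      have h2 : 2048 * ((J ω).card : ℝ) < m := by exact_mod_cast hω.2.2
      have h3 : 3 * (m : ℝ) / 4096 ≤ (∑ w' : Fin k → V → Fin N, NN G B u y y' w') / Ω := by
        rw [le_div_iff₀ hWpos]
        exact hsum
      linarith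
    · intro a _ b _ hab
      exact e.symm.injective hab
  exact_mod_cast hfinal

end Pool.Agent.TH620.BK
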