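import Pool.Agent.TH451.BK.Defs
import Pool.Agent.QCube.Lll

set_option autoImplicit false

/-! Job 171: spread triples around a clique. -/

namespace Pool.Agent.TH620.BK

open Finset Pool.Agent.TH451.BK
open scoped Classical

variable {V : Type} [Fintype V]

lemma card_filter_equiv {α β : Type*} [Fintype α] [Fintype β] (e : α ≃ β) (p : β → Prop)
    [DecidablePred p] [DecidablePred (fun a => p (e a))] :
    (univ.filter (fun a => p (e a))).card = (univ.filter p).card := by
  refine Finset.card_bij (fun a _ => e a) ?_ ?_ ?_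
  · intro a ha
    simpa using ha
  · intro a _ b _ h
    exact e.injective h
  · intro b hb
    exact ⟨e.symm b, by simpa using hb, by simp⟩

/-- cylinder counts, exact form -/
lemma cyl_card {I : Type*} [Fintype I] [DecidableEq I] (N : ℕ) (hN : 0 < N) (P Q : Finset I)
    (hPQ : Disjoint P Q) :
    (univ.filter (fun w : I → Fin N => (∀ i ∈ P, (w i).val = 0) ∧ ∀ i ∈ Q, (w i).val ≠ 0)).card *
      (N ^ P.card * N ^ Q.card) = (N - 1) ^ Q.card * N ^ (Fintype.card I) := by
  have h1 : univ.filter (fun w : I → Fin N => (∀ i ∈ P, (w i).val = 0) ∧ ∀ i ∈ Q, (w i).val ≠ 0) =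
      Fintype.piFinset (fun i => if i ∈ P then {(⟨0, hN⟩ : Fin N)} else
        if i ∈ Q then univ.erase (⟨0, hN⟩ : Fin N) else univ) := by
    ext w
    simp only [Finset.mem_filter, Finset.mem_univ, true_and, Fintype.mem_piFinset]
    constructor
    · rintro ⟨hp, hq⟩ i
      split_ifs with h1 h2
      · rw [Finset.mem_singleton]
        exact Fin.ext (hp i h1)
      · rw [Finset.mem_erase]
        exact ⟨fun h => hq i h2 (by rw [h]), Finset.mem_univ _⟩
      · exact Finset.mem_univ _
    · intro h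
      refine ⟨fun i hi => ?_, fun i hi => ?_⟩
      · have := h i
        rw [if_pos hi, Finset.mem_singleton] at this
        rw [this]
      · have := h i
        rw [if_neg (fun hp => (Finset.disjoint_left.1 hPQ) hp hi), if_pos hi,
          Finset.mem_erase] at this
        exact fun h0 => this.1 (Fin.ext h0)
  rw [h1, Fintype.card_piFinset]
  have h2 : ∀ i : I, ((if i ∈ P then {(⟨0, hN⟩ : Fin N)} else
        if i ∈ Q then univ.erase (⟨0, hN⟩ : Fin N) else univ : Finset (Fin N))).card =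
      (if i ∈ P then 1 else N) * (if i ∈ Q then (N - 1) else 1) / (if i ∈ Q then N else 1) := by
    intro i
    by_cases hp : i ∈ P
    · have hq : i ∉ Q := fun hq => (Finset.disjoint_left.1 hPQ) hp hq
      simp [hp, hq]
    · by_cases hq : i ∈ Q
      · simp only [hp, hq, if_false, if_true]
        rw [Finset.card_erase_of_mem (Finset.mem_univ _), Finset.card_univ, Fintype.card_fin,
          Nat.mul_div_cancel_left _ hN]
      · simp [hp, hq]
  have h3 : N ^ P.card = ∏ i : I, (if i ∈ P then N else 1) := by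
    rw [Finset.prod_ite_mem, Finset.univ_inter, Finset.prod_const]
  have h4 : N ^ Q.card = ∏ i : I, (if i ∈ Q then N else 1) := by
    rw [Finset.prod_ite_mem, Finset.univ_inter, Finset.prod_const]
  have h5 : (N - 1) ^ Q.card = ∏ i : I, (if i ∈ Q then (N - 1) else 1) := by
    rw [Finset.prod_ite_mem, Finset.univ_inter, Finset.prod_const]
  have h6 : N ^ (Fintype.card I) = ∏ _i : I, N := by
    rw [Finset.prod_const, Finset.card_univ]
  rw [h3, h4, h5, h6, ← Finset.prod_mul_distrib, ← Finset.prod_mul_distrib,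
    ← Finset.prod_mul_distrib]
  apply Finset.prod_congr rfl
  intro i _
  by_cases hp : i ∈ P
  · have hq : i ∉ Q := fun hq => (Finset.disjoint_left.1 hPQ) hp hq
    simp [hp, hq]
  · by_cases hq : i ∈ Q
    · simp only [hp, hq, if_false, if_true]
      rw [Finset.card_erase_of_mem (Finset.mem_univ _), Finset.card_univ, Fintype.card_fin]
      ring
    · simp [hp, hq]

/-- cylinder counts, lower bound -/
lemma cyl_lower {I : Type*} [Fintype I] [DecidableEq I] (N : ℕ) (hN : 0 < N) (P Q : Finset I)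
    (hPQ : Disjoint P Q) :
    (1 - (Q.card : ℝ) / N) * (N : ℝ) ^ (Fintype.card I) ≤
    ((univ.filter (fun w : I → Fin N => (∀ i ∈ P, (w i).val = 0) ∧
      ∀ i ∈ Q, (w i).val ≠ 0)).card : ℝ) * (N : ℝ) ^ P.card := by
  have h := cyl_card N hN P Q hPQ
  have hN' : (0 : ℝ) < N := by exact_mod_cast hN
  have hN1 : (1 : ℝ) ≤ N := by exact_mod_cast hN
  have h' : ((univ.filter (fun w : I → Fin N => (∀ i ∈ P, (w i).val = 0) ∧
      ∀ i ∈ Q, (w i).val ≠ 0)).card : ℝ) * ((N : ℝ) ^ P.card * (N : ℝ) ^ Q.card) =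
      ((N : ℝ) - 1) ^ Q.card * (N : ℝ) ^ (Fintype.card I) := by
    have := congrArg (fun a : ℕ => (a : ℝ)) h
    simp only [Nat.cast_mul, Nat.cast_pow] at this
    rw [this, Nat.cast_sub (by omega)]
    simp
  have hb : 1 - (Q.card : ℝ) / N ≤ (((N : ℝ) - 1) / N) ^ Q.card := by
    have h2 := one_add_mul_le_pow (a := -(1 / (N : ℝ)))
      (by have : 1 / (N : ℝ) ≤ 1 := by rw [div_le_one hN']; exact hN1
          linarith) Q.card
    have h3 : ((N : ℝ) - 1) / N = 1 + -(1 / (N : ℝ)) := by field_simp; ring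
    rw [h3]
    refine le_trans (le_of_eq ?_) h2
    ring
  have hpos : (0 : ℝ) < (N : ℝ) ^ Q.card := by positivity
  have h4 : (((N : ℝ) - 1) / N) ^ Q.card * (N : ℝ) ^ (Fintype.card I) =
      ((univ.filter (fun w : I → Fin N => (∀ i ∈ P, (w i).val = 0) ∧
      ∀ i ∈ Q, (w i).val ≠ 0)).card : ℝ) * (N : ℝ) ^ P.card := by
    rw [div_pow]
    field_simp
    linarith [h']
  rw [← h4]
  exact mul_le_mul_of_nonneg_right hb (by positivity)

section Om

variable {k N : ℕ}

lemma card_Om : (Fintype.card (V → Fin k → Fin N) : ℝ) =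
    (N : ℝ) ^ (Fintype.card (V × Fin k)) := by
  rw [← Fintype.card_congr (Equiv.curry V (Fin k) (Fin N)), Fintype.card_fun, Fintype.card_fin]
  push_cast
  rfl

lemma cylOm_card (P Q : Finset (V × Fin k)) :
    (univ.filter (fun ω : V → Fin k → Fin N => (∀ q ∈ P, act ω q.1 q.2) ∧
      ∀ q ∈ Q, ¬ act ω q.1 q.2)).card =
    (univ.filter (fun w : V × Fin k → Fin N => (∀ i ∈ P, (w i).val = 0) ∧
      ∀ i ∈ Q, (w i).val ≠ 0)).card := by
  refine Finset.card_bij (fun ω _ => fun q => ω q.1 q.2) ?_ ?_ ?_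
  · intro ω hω
    rw [Finset.mem_filter] at hω ⊢
    exact ⟨Finset.mem_univ _, hω.2.1, hω.2.2⟩
  · intro ω _ ω' _ h
    funext x c
    exact congrFun h (x, c)
  · intro w hw
    rw [Finset.mem_filter] at hw
    refine ⟨fun x c => w (x, c), ?_, rfl⟩
    rw [Finset.mem_filter]
    exact ⟨Finset.mem_univ _, hw.2.1, hw.2.2⟩

lemma cylOm_lower (hN : 0 < N) (P Q : Finset (V × Fin k)) (hPQ : Disjoint P Q) :
    (1 - (Q.card : ℝ) / N) * (Fintype.card (V → Fin k → Fin N) : ℝ) ≤
    ((univ.filter (fun ω : V → Fin k → Fin N => (∀ q ∈ P, act ω q.1 q.2) ∧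
      ∀ q ∈ Q, ¬ act ω q.1 q.2)).card : ℝ) * (N : ℝ) ^ P.card := by
  rw [card_Om, cylOm_card]
  exact cyl_lower N hN P Q hPQ

lemma cylOm_exact (hN : 0 < N) (P : Finset (V × Fin k)) :
    ((univ.filter (fun ω : V → Fin k → Fin N => ∀ q ∈ P, act ω q.1 q.2)).card : ℝ) *
      (N : ℝ) ^ P.card = (Fintype.card (V → Fin k → Fin N) : ℝ) := by
  have h := cyl_card N hN P ∅ (Finset.disjoint_empty_right P)
  rw [← cylOm_card] at h
  have h3 : univ.filter (fun ω : V → Fin k → Fin N => ∀ q ∈ P, act ω q.1 q.2) =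
      univ.filter (fun ω : V → Fin k → Fin N => (∀ q ∈ P, act ω q.1 q.2) ∧
      ∀ q ∈ (∅ : Finset (V × Fin k)), ¬ act ω q.1 q.2) := by
    apply Finset.filter_congr
    intro ω _
    simp
  rw [card_Om, h3]
  rw [Finset.card_empty, pow_zero, pow_zero, mul_one, one_mul] at h
  exact_mod_cast h

end Om

theorem E2_overflow (k N : ℕ) (hN : 0 < N) (Z : Finset V) (B : ℕ) :
    ((univ.filter (fun ω : V → Fin k → Fin N =>
      ∃ c : Fin k, B + 1 ≤ (Z.filter (fun z => act ω z c)).card)).card : ℝ) * (N : ℝ) ^ (B + 1) ≤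
      (k : ℝ) * (Z.card : ℝ) ^ (B + 1) * (Fintype.card (V → Fin k → Fin N) : ℝ) := by
  set Idx : Finset (Fin k × Finset V) := univ ×ˢ Z.powersetCard (B + 1) with hIdx
  set Ev : Fin k × Finset V → Finset (V → Fin k → Fin N) := fun p =>
    univ.filter (fun ω => ∀ q ∈ p.2 ×ˢ {p.1}, act ω q.1 q.2) with hEv
  have hsub : univ.filter (fun ω : V → Fin k → Fin N =>
      ∃ c : Fin k, B + 1 ≤ (Z.filter (fun z => act ω z c)).card) ⊆ Idx.biUnion Ev := by
    intro ω hω
    rw [Finset.mem_filter] at hω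
    obtain ⟨_, c, hc⟩ := hω
    obtain ⟨T, hT, hTc⟩ := Finset.exists_subset_card_eq hc
    rw [Finset.mem_biUnion]
    refine ⟨(c, T), ?_, ?_⟩
    · rw [hIdx, Finset.mem_product, Finset.mem_powersetCard]
      exact ⟨Finset.mem_univ _, hT.trans (Finset.filter_subset _ _), hTc⟩
    · rw [hEv, Finset.mem_filter]
      refine ⟨Finset.mem_univ _, fun q hq => ?_⟩
      rw [Finset.mem_product, Finset.mem_singleton] at hq
      rw [hq.2]
      exact (Finset.mem_filter.1 (hT hq.1)).2
  have h1 : ((univ.filter (fun ω : V → Fin k → Fin N =>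
      ∃ c : Fin k, B + 1 ≤ (Z.filter (fun z => act ω z c)).card)).card : ℝ) ≤
      ∑ p ∈ Idx, ((Ev p).card : ℝ) := by
    have := (Finset.card_le_card hsub).trans Finset.card_biUnion_le
    exact_mod_cast this
  have h2 : ∀ p ∈ Idx, ((Ev p).card : ℝ) * (N : ℝ) ^ (B + 1) =
      (Fintype.card (V → Fin k → Fin N) : ℝ) := by
    intro p hp
    rw [hIdx, Finset.mem_product, Finset.mem_powersetCard] at hp
    have h := cylOm_exact (V := V) (k := k) hN (p.2 ×ˢ {p.1})
    rw [Finset.card_product, Finset.card_singleton, mul_one, hp.2.2] at h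
    exact h
  have hcard : (Idx.card : ℝ) ≤ (k : ℝ) * (Z.card : ℝ) ^ (B + 1) := by
    rw [hIdx, Finset.card_product, Finset.card_univ, Fintype.card_fin, Finset.card_powersetCard]
    have := Nat.choose_le_pow Z.card (B + 1)
    have h3 : k * Z.card.choose (B + 1) ≤ k * Z.card ^ (B + 1) := Nat.mul_le_mul_left k this
    exact_mod_cast h3
  calc _ ≤ (∑ p ∈ Idx, ((Ev p).card : ℝ)) * (N : ℝ) ^ (B + 1) :=
        mul_le_mul_of_nonneg_right h1 (by positivity)
    _ = ∑ p ∈ Idx, ((Ev p).card : ℝ) * (N : ℝ) ^ (B + 1) := by rw [Finset.sum_mul]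
    _ = ∑ _p ∈ Idx, (Fintype.card (V → Fin k → Fin N) : ℝ) := Finset.sum_congr rfl h2
    _ = Idx.card * (Fintype.card (V → Fin k → Fin N) : ℝ) := by
        rw [Finset.sum_const, nsmul_eq_mul]
    _ ≤ _ := mul_le_mul_of_nonneg_right hcard (by positivity)

/-- a single triple is good with probability at least 1/1024 -/
lemma single (G : SimpleGraph V) (k : ℕ) (hk : 100 ≤ k) (hdeg : ∀ v, (nb G v).card ≤ k + 1)
    (u y y' : V) (huy : u ≠ y) (huy' : u ≠ y') (hyy' : y ≠ y') :
    (Fintype.card (V → Fin k → Fin (16 * (k + 1))) : ℝ) ≤ 1024 *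
    ((univ.filter (fun ω : V → Fin k → Fin (16 * (k + 1)) => (∀ c, ¬ act ω u c) ∧
      (∃ c, ret G ω y c) ∧ (∃ c, ret G ω y' c))).card : ℝ) := by
  set N := 16 * (k + 1) with hN
  have hNpos : 0 < N := by omega
  set P : Fin k × Fin k → Finset (V × Fin k) := fun p => {(y, p.1), (y', p.2)} with hP
  set Q : Fin k × Fin k → Finset (V × Fin k) := fun p =>
    (insert y' (insert u (nb G y))) ×ˢ {p.1} ∪ (insert y (insert u (nb G y'))) ×ˢ {p.2} ∪
      ({y, y', u} : Finset V) ×ˢ (univ \ {p.1, p.2}) with hQ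
  set E : Fin k × Fin k → Finset (V → Fin k → Fin N) := fun p =>
    univ.filter (fun ω => (∀ q ∈ P p, act ω q.1 q.2) ∧ ∀ q ∈ Q p, ¬ act ω q.1 q.2) with hE
  have hnb : ∀ x, x ∉ nb G x := by
    intro x hx
    simp [nb] at hx
  have hQ1 : ∀ (p : Fin k × Fin k) (x : V), x ∈ insert y' (insert u (nb G y)) →
      (x, p.1) ∈ Q p := by
    intro p x hx
    simp only [hQ]
    apply Finset.mem_union_left
    apply Finset.mem_union_left
    rw [Finset.mem_product]
    exact ⟨hx, Finset.mem_singleton_self _⟩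
  have hQ2 : ∀ (p : Fin k × Fin k) (x : V), x ∈ insert y (insert u (nb G y')) →
      (x, p.2) ∈ Q p := by
    intro p x hx
    simp only [hQ]
    apply Finset.mem_union_left
    apply Finset.mem_union_right
    rw [Finset.mem_product]
    exact ⟨hx, Finset.mem_singleton_self _⟩
  have hQ3 : ∀ (p : Fin k × Fin k) (x : V) (c : Fin k), x ∈ ({y, y', u} : Finset V) →
      c ≠ p.1 → c ≠ p.2 → (x, c) ∈ Q p := by
    intro p x c hx h1 h2
    simp only [hQ]
    apply Finset.mem_union_right
    rw [Finset.mem_product]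
    exact ⟨hx, by simp [h1, h2]⟩
  have hyQ : ∀ (p : Fin k × Fin k) (c : Fin k), c ≠ p.1 → (y, c) ∈ Q p := by
    intro p c h1
    by_cases h2 : c = p.2
    · rw [h2]
      exact hQ2 p y (Finset.mem_insert_self _ _)
    · exact hQ3 p y c (by simp) h1 h2
  have hyQ' : ∀ (p : Fin k × Fin k) (c : Fin k), c ≠ p.2 → (y', c) ∈ Q p := by
    intro p c h1
    by_cases h2 : c = p.1
    · rw [h2]
      exact hQ1 p y' (Finset.mem_insert_self _ _)
    · exact hQ3 p y' c (by simp) h2 h1
  have huQ : ∀ (p : Fin k × Fin k) (c : Fin k), (u, c) ∈ Q p := by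
    intro p c
    by_cases h1 : c = p.1
    · rw [h1]
      exact hQ1 p u (Finset.mem_insert_of_mem (Finset.mem_insert_self _ _))
    · by_cases h2 : c = p.2
      · rw [h2]
        exact hQ2 p u (Finset.mem_insert_of_mem (Finset.mem_insert_self _ _))
      · exact hQ3 p u c (by simp) h1 h2
  have hdisj : ∀ p ∈ (univ : Finset (Fin k)).offDiag, Disjoint (P p) (Q p) := by
    intro p hp
    rw [Finset.mem_offDiag] at hp
    have hne := hp.2.2
    rw [Finset.disjoint_left]
    intro q hq hqQ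
    simp only [hP, Finset.mem_insert, Finset.mem_singleton] at hq
    simp only [hQ, Finset.mem_union, Finset.mem_product, Finset.mem_singleton,
      Finset.mem_insert, Finset.mem_sdiff, Finset.mem_univ, true_and, not_or] at hqQ
    rcases hq with rfl | rfl
    · rcases hqQ with (⟨h, _⟩ | ⟨_, h⟩) | ⟨_, h⟩
      · rcases h with h | h | h
        · exact hyy' h
        · exact huy h.symm
        · exact hnb y h
      · exact hne h
      · exact h.1 rfl
    · rcases hqQ with (⟨_, h⟩ | ⟨h, _⟩) | ⟨_, h⟩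
      · exact hne h.symm
      · rcases h with h | h | h
        · exact hyy' h.symm
        · exact huy' h.symm
        · exact hnb y' h
      · exact h.2 rfl
  have hPc : ∀ p ∈ (univ : Finset (Fin k)).offDiag, (P p).card = 2 := by
    intro p _
    simp only [hP]
    rw [Finset.card_pair]
    intro h
    exact hyy' (congrArg Prod.fst h)
  have hQc : ∀ p ∈ (univ : Finset (Fin k)).offDiag, (Q p).card ≤ 5 * k := by
    intro p hp
    rw [Finset.mem_offDiag] at hp
    have hne := hp.2.2
    have h1 : (insert y' (insert u (nb G y))).card ≤ k + 3 := by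
      have h2 := Finset.card_insert_le y' (insert u (nb G y))
      have h3 := Finset.card_insert_le u (nb G y)
      have h4 := hdeg y
      omega
    have h2 : (insert y (insert u (nb G y'))).card ≤ k + 3 := by
      have h2 := Finset.card_insert_le y (insert u (nb G y'))
      have h3 := Finset.card_insert_le u (nb G y')
      have h4 := hdeg y'
      omega
    have h3 : ({y, y', u} : Finset V).card ≤ 3 := Finset.card_le_three
    have h4 : ((univ : Finset (Fin k)) \ {p.1, p.2}).card = k - 2 := by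
      rw [Finset.card_sdiff_of_subset (Finset.subset_univ _), Finset.card_univ, Fintype.card_fin,
        Finset.card_pair hne]
    simp only [hQ]
    refine (Finset.card_union_le _ _).trans ?_
    have h5 := Finset.card_union_le ((insert y' (insert u (nb G y))) ×ˢ {p.1})
      ((insert y (insert u (nb G y'))) ×ˢ {p.2})
    rw [Finset.card_product, Finset.card_product, Finset.card_singleton, Finset.card_singleton] at h5
    rw [Finset.card_product, h4]
    have h6 : ({y, y', u} : Finset V).card * (k - 2) ≤ 3 * (k - 2) := Nat.mul_le_mul_right _ h3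
    omega
  -- the events are disjoint
  have hpd : ∀ p ∈ (univ : Finset (Fin k)).offDiag, ∀ q ∈ (univ : Finset (Fin k)).offDiag,
      p ≠ q → Disjoint (E p) (E q) := by
    intro p _ q _ hpq
    rw [Finset.disjoint_left]
    intro ω h1 h2
    simp only [hE, Finset.mem_filter, Finset.mem_univ, true_and] at h1 h2
    apply hpq
    have ha : act ω y p.1 := h1.1 (y, p.1) (by simp [hP])
    have ha' : act ω y' p.2 := h1.1 (y', p.2) (by simp [hP])
    apply Prod.ext
    · by_contra hne
      exact h2.2 (y, p.1) (hyQ q p.1 hne) ha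
    · by_contra hne
      exact h2.2 (y', p.2) (hyQ' q p.2 hne) ha'
  -- the events imply the good event
  have hsub : (univ : Finset (Fin k)).offDiag.biUnion E ⊆
      univ.filter (fun ω : V → Fin k → Fin N => (∀ c, ¬ act ω u c) ∧
      (∃ c, ret G ω y c) ∧ (∃ c, ret G ω y' c)) := by
    intro ω hω
    rw [Finset.mem_biUnion] at hω
    obtain ⟨p, _, hp⟩ := hω
    simp only [hE, Finset.mem_filter, Finset.mem_univ, true_and] at hp
    rw [Finset.mem_filter]
    refine ⟨Finset.mem_univ _, fun c => hp.2 (u, c) (huQ p c), ⟨p.1, ?_, ?_⟩, ⟨p.2, ?_, ?_⟩⟩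
    · exact hp.1 (y, p.1) (by simp [hP])
    · intro z hz
      refine hp.2 (z, p.1) (hQ1 p z ?_)
      apply Finset.mem_insert_of_mem
      apply Finset.mem_insert_of_mem
      simpa [nb] using hz
    · exact hp.1 (y', p.2) (by simp [hP])
    · intro z hz
      refine hp.2 (z, p.2) (hQ2 p z ?_)
      apply Finset.mem_insert_of_mem
      apply Finset.mem_insert_of_mem
      simpa [nb] using hz
  set Ω := (Fintype.card (V → Fin k → Fin N) : ℝ) with hΩ
  have hΩ0 : 0 ≤ Ω := Nat.cast_nonneg _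
  have hNr : (N : ℝ) = 16 * (k + 1) := by rw [hN]; push_cast; ring
  have hk' : (100 : ℝ) ≤ k := by exact_mod_cast hk
  have hN0 : (0 : ℝ) < N := by rw [hNr]; linarith
  have hEc : ∀ p ∈ (univ : Finset (Fin k)).offDiag, 11 / 16 * Ω / (N : ℝ) ^ 2 ≤ ((E p).card : ℝ) := by
    intro p hp
    have h1 := cylOm_lower (V := V) (k := k) hNpos (P p) (Q p) (hdisj p hp)
    rw [hPc p hp] at h1
    have h2 : (11 / 16 : ℝ) ≤ 1 - ((Q p).card : ℝ) / N := by
      have h3 : ((Q p).card : ℝ) ≤ 5 * k := by exact_mod_cast hQc p hp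
      have h4 : ((Q p).card : ℝ) / N ≤ 5 / 16 := by
        rw [div_le_div_iff₀ hN0 (by norm_num)]
        rw [hNr]
        nlinarith
      linarith
    rw [div_le_iff₀ (by positivity)]
    exact (mul_le_mul_of_nonneg_right h2 hΩ0).trans h1
  have hcard : ((univ : Finset (Fin k)).offDiag.card : ℝ) = k * (k - 1) := by
    rw [Finset.offDiag_card, Finset.card_univ, Fintype.card_fin, Nat.cast_sub (by nlinarith)]
    push_cast; ring
  have hfin : (k : ℝ) * (k - 1) * (11 / 16 * Ω / (N : ℝ) ^ 2) ≤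
      ((univ.filter (fun ω : V → Fin k → Fin N => (∀ c, ¬ act ω u c) ∧
      (∃ c, ret G ω y c) ∧ (∃ c, ret G ω y' c))).card : ℝ) := by
    calc (k : ℝ) * (k - 1) * (11 / 16 * Ω / (N : ℝ) ^ 2)
        = ∑ _p ∈ (univ : Finset (Fin k)).offDiag, 11 / 16 * Ω / (N : ℝ) ^ 2 := by
          rw [Finset.sum_const, nsmul_eq_mul, hcard]
      _ ≤ ∑ p ∈ (univ : Finset (Fin k)).offDiag, ((E p).card : ℝ) := Finset.sum_le_sum hEc
      _ = (((univ : Finset (Fin k)).offDiag.biUnion E).card : ℝ) := by
          rw [Finset.card_biUnion hpd]; push_cast; rfl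
      _ ≤ _ := by exact_mod_cast Finset.card_le_card hsub
  refine le_trans ?_ (mul_le_mul_of_nonneg_left hfin (by norm_num : (0 : ℝ) ≤ 1024))
  have h1 : 1 ≤ 1024 * ((k : ℝ) * (k - 1) * (11 / 16 / (N : ℝ) ^ 2)) := by
    rw [hNr]
    have h2 : (0 : ℝ) < (16 * ((k : ℝ) + 1)) ^ 2 := by positivity
    rw [show 1024 * ((k : ℝ) * (k - 1) * (11 / 16 / (16 * ((k : ℝ) + 1)) ^ 2)) =
      (1024 * (11 / 16) * k * (k - 1)) / (16 * ((k : ℝ) + 1)) ^ 2 by ring, le_div_iff₀ h2]
    nlinarith
  calc Ω = 1 * Ω := by ring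
    _ ≤ 1024 * ((k : ℝ) * (k - 1) * (11 / 16 / (N : ℝ) ^ 2)) * Ω :=
        mul_le_mul_of_nonneg_right h1 hΩ0
    _ = _ := by ring

end Pool.Agent.TH620.BK
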