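import Pool.Agent.H695R3.PP.Stmts
set_option autoImplicit false
open scoped BigOperators ENNReal
open MeasureTheory
namespace Pool.Agent.TH620.J27
open Pool.Agent.H695R3.PP Filter Topology

lemma four_pow_ge (k : ℕ) : (k : ℝ) + 1 ≤ 4 ^ k := by
  have := one_add_mul_le_pow (show (-2 : ℝ) ≤ 3 by norm_num) k
  have h : (0 : ℝ) ≤ k := Nat.cast_nonneg k
  norm_num at this
  linarith

lemma summable_main (κ A : ℝ) (hκ : 0 < κ) (hA : 1 ≤ A) :
    Summable (fun k : ℕ => A ^ k * Real.exp (-(κ * 4 ^ k))) := by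
  have hA0 : 0 < A := by linarith
  have hlim : Tendsto (fun k : ℕ => (k : ℝ) * (Real.log A + 1) / 4 ^ k) atTop (𝓝 0) := by
    have h1 := tendsto_self_mul_const_pow_of_lt_one (show (0 : ℝ) ≤ 1 / 4 by norm_num)
      (show (1 / 4 : ℝ) < 1 by norm_num)
    have h2 := h1.mul_const (Real.log A + 1)
    rw [zero_mul] at h2
    refine h2.congr fun k => ?_
    rw [one_div, inv_pow]
    field_simp
  have hev : ∀ᶠ k : ℕ in atTop, ‖A ^ k * Real.exp (-(κ * 4 ^ k))‖ ≤ (Real.exp (-1)) ^ k := by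
    filter_upwards [hlim.eventually (gt_mem_nhds hκ)] with k hk
    rw [div_lt_iff₀ (by positivity)] at hk
    rw [Real.norm_of_nonneg (by positivity)]
    have e1 : A ^ k = Real.exp (k * Real.log A) := by
      rw [Real.exp_nat_mul, Real.exp_log hA0]
    rw [e1, ← Real.exp_add, ← Real.exp_nat_mul]
    apply Real.exp_le_exp.2
    nlinarith
  refine Summable.of_norm_bounded_eventually_nat (g := fun k : ℕ => (Real.exp (-1)) ^ k) ?_ hev
  apply summable_geometric_of_lt_one (Real.exp_pos _).le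
  rw [Real.exp_lt_one_iff]
  norm_num

theorem taskNum : TaskNum := by
  intro κ A hκ hA
  have hS := summable_main κ A hκ hA
  refine ⟨hS, ?_⟩
  have hgeo : Summable (fun j : ℕ => (Real.exp (-κ)) ^ j) := by
    apply summable_geometric_of_lt_one (Real.exp_pos _).le
    rw [Real.exp_lt_one_iff]
    linarith
  have hpt : ∀ k j : ℕ, Real.exp (-(κ * 4 ^ (k + j))) ≤ Real.exp (-(κ * 4 ^ k)) * (Real.exp (-κ)) ^ j := by
    intro k j
    rw [← Real.exp_nat_mul, ← Real.exp_add]
    apply Real.exp_le_exp.2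
    have h1 := four_pow_ge j
    have h2 : (1 : ℝ) ≤ 4 ^ k := one_le_pow₀ (by norm_num)
    have h3 : (4 : ℝ) ^ k + j ≤ 4 ^ (k + j) := by
      rw [pow_add]
      have hj : (0 : ℝ) ≤ j := Nat.cast_nonneg j
      nlinarith
    nlinarith
  have hbound : ∀ k : ℕ, ∑' j : ℕ, Real.exp (-(κ * 4 ^ (k + j))) ≤
      Real.exp (-(κ * 4 ^ k)) * ∑' j : ℕ, (Real.exp (-κ)) ^ j := by
    intro k
    rw [← tsum_mul_left]
    have hs2 := hgeo.mul_left (Real.exp (-(κ * 4 ^ k)))
    exact Summable.tsum_le_tsum (hpt k) (Summable.of_nonneg_of_le (fun j => (Real.exp_pos _).le) (hpt k) hs2) hs2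
  have hz := hS.tendsto_atTop_zero.mul_const (∑' j : ℕ, (Real.exp (-κ)) ^ j)
  rw [zero_mul] at hz
  refine squeeze_zero (fun k => ?_) (fun k => ?_) hz
  · exact mul_nonneg (by positivity) (tsum_nonneg fun j => (Real.exp_pos _).le)
  · have := hbound k
    have hA' : 0 ≤ A ^ k := by positivity
    calc A ^ k * ∑' j : ℕ, Real.exp (-(κ * 4 ^ (k + j)))
        ≤ A ^ k * (Real.exp (-(κ * 4 ^ k)) * ∑' j : ℕ, (Real.exp (-κ)) ^ j) :=
          mul_le_mul_of_nonneg_left this hA'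
      _ = _ := by ring

end Pool.Agent.TH620.J27
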