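import Pool.Agent.TH444.DC.Defs

set_option autoImplicit false

/-! Job 34: colouring by counting. First part: the counting lemmas. -/

namespace Pool.Agent.TH620.J34

open Finset

section Prod

variable {V : Type} [Fintype V] [DecidableEq V]

/-- the numerical inequality for one coordinate -/
lemma one_coord (m : ℕ) (hm : 2 ≤ m) :
    Real.exp (-(1 / ((m : ℝ) - 1))) * m ≤ (m : ℝ) - 1 := by
  have hm' : (2 : ℝ) ≤ m := by exact_mod_cast hm
  have h0 : (0 : ℝ) < m - 1 := by linarith
  have h1 := Real.add_one_le_exp (1 / ((m : ℝ) - 1))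
  have h2 : 1 / ((m : ℝ) - 1) + 1 = m / (m - 1) := by field_simp; ring
  rw [h2] at h1
  rw [Real.exp_neg, inv_mul_le_iff₀ (Real.exp_pos _)]
  calc (m : ℝ) = m / (m - 1) * (m - 1) := by field_simp
    _ ≤ _ := mul_le_mul_of_nonneg_right h1 h0.le

lemma product_bound (k D : ℕ) (hk : 0 < k) (I : Finset V) (L : V → Finset (Fin k))
    (g : V → Fin k) (hI : I.card ≤ D) (G : Finset (Fin k)) (hG : (k : ℝ) / 2 ≤ G.card)
    (hLne : ∀ u ∈ I, (L u).Nonempty) (hGL : ∀ a ∈ G, ∀ u ∈ I, L u ≠ {a}) :
    (k : ℝ) / 2 * Real.exp (-(4 * D / k)) *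
        (Fintype.piFinset (fun x => if x ∈ I then L x else {g x})).card ≤
      ∑ f ∈ Fintype.piFinset (fun x => if x ∈ I then L x else {g x}),
        ((G.filter (fun a => ∀ u ∈ I, f u ≠ a)).card : ℝ) := by
  classical
  set P := Fintype.piFinset (fun x => if x ∈ I then L x else {g x}) with hP
  -- the weights
  let s : Fin k → V → ℝ := fun a x =>
    if x ∈ I ∧ a ∈ L x ∧ 2 ≤ (L x).card then 1 / (((L x).card : ℝ) - 1) else 0
  have hs0 : ∀ a x, 0 ≤ s a x := by
    intro a x
    simp only [s]
    split_ifs with h
    · have : (2 : ℝ) ≤ (L x).card := by exact_mod_cast h.2.2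
      apply div_nonneg zero_le_one
      linarith
    · exact le_rfl
  -- step 1: swap the sums
  have hswap : ∑ f ∈ P, ((G.filter (fun a => ∀ u ∈ I, f u ≠ a)).card : ℝ) =
      ∑ a ∈ G, ((P.filter (fun f => ∀ u ∈ I, f u ≠ a)).card : ℝ) := by
    simp_rw [Finset.card_filter, Nat.cast_sum]
    exact Finset.sum_comm
  rw [hswap]
  -- step 2
  have hcard : ∀ a, P.filter (fun f => ∀ u ∈ I, f u ≠ a) =
      Fintype.piFinset (fun x => if x ∈ I then (L x).erase a else {g x}) := by
    intro a
    ext f
    simp only [hP, Finset.mem_filter, Fintype.mem_piFinset]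
    constructor
    · rintro ⟨h1, h2⟩ x
      have := h1 x
      by_cases hx : x ∈ I
      · simp only [hx, if_true] at this ⊢
        exact Finset.mem_erase.2 ⟨h2 x hx, this⟩
      · simpa [hx] using this
    · intro h
      refine ⟨fun x => ?_, fun u hu => ?_⟩
      · have := h x
        by_cases hx : x ∈ I
        · simp only [hx, if_true] at this ⊢
          exact (Finset.mem_erase.1 this).2
        · simpa [hx] using this
      · have := h u
        simp only [hu, if_true] at this
        exact (Finset.mem_erase.1 this).1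
  have hPc : (P.card : ℝ) = ∏ x, ((if x ∈ I then L x else {g x} : Finset (Fin k)).card : ℝ) := by
    rw [hP, Fintype.card_piFinset]; push_cast; rfl
  -- step 3
  have hstep3 : ∀ a ∈ G, Real.exp (-(∑ x, s a x)) * P.card ≤
      ((P.filter (fun f => ∀ u ∈ I, f u ≠ a)).card : ℝ) := by
    intro a ha
    rw [hcard a, hPc, Fintype.card_piFinset, ← Finset.sum_neg_distrib, Real.exp_sum,
      ← Finset.prod_mul_distrib]
    push_cast
    apply Finset.prod_le_prod
    · intro x _
      positivity
    · intro x _
      by_cases hx : x ∈ I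
      · simp only [hx, if_true]
        by_cases hax : a ∈ L x
        · have h2 : 2 ≤ (L x).card := by
            by_contra hlt
            have h1 : 0 < (L x).card := Finset.card_pos.2 (hLne x hx)
            have h11 : (L x).card = 1 := by omega
            rw [Finset.card_eq_one] at h11
            obtain ⟨b, hb⟩ := h11
            rw [hb] at hax
            rw [Finset.mem_singleton] at hax
            subst hax
            exact hGL a ha x hx hb
          have hsx : s a x = 1 / (((L x).card : ℝ) - 1) := by
            simp only [s, hx, hax, h2, true_and, if_true]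
          rw [hsx, Finset.card_erase_of_mem hax]
          have := one_coord _ h2
          rw [Nat.cast_sub (by omega)]
          simpa using this
        · have hsx : s a x = 0 := by simp [s, hax]
          rw [hsx, Finset.erase_eq_of_notMem hax]
          simp
      · have hsx : s a x = 0 := by simp [s, hx]
        simp [hx, hsx]
  -- step 4: the sum of all weights
  have hsum : ∑ a ∈ G, ∑ x, s a x ≤ 2 * D := by
    rw [Finset.sum_comm]
    have hx : ∀ x, ∑ a ∈ G, s a x ≤ if x ∈ I then 2 else 0 := by
      intro x
      by_cases hx : x ∈ I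
      · simp only [hx, if_true]
        by_cases h2 : 2 ≤ (L x).card
        · have h2' : (2 : ℝ) ≤ (L x).card := by exact_mod_cast h2
          calc ∑ a ∈ G, s a x ≤ ∑ a, s a x :=
                Finset.sum_le_sum_of_subset_of_nonneg (Finset.subset_univ _)
                  (fun a _ _ => hs0 a x)
            _ = ∑ a, if a ∈ L x then 1 / (((L x).card : ℝ) - 1) else 0 := by
                apply Finset.sum_congr rfl
                intro a _
                simp only [s, hx, h2, true_and, and_true]
            _ = (L x).card * (1 / (((L x).card : ℝ) - 1)) := by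
                rw [← Finset.sum_filter, Finset.sum_const, nsmul_eq_mul]
                congr 2
                simp
            _ ≤ 2 := by
                rw [mul_one_div, div_le_iff₀ (by linarith)]
                linarith
        · have : ∀ a ∈ G, s a x = 0 := by
            intro a _
            simp [s, h2]
          rw [Finset.sum_eq_zero this]
          norm_num
      · simp only [hx, if_false]
        have : ∀ a ∈ G, s a x = 0 := by
          intro a _
          simp [s, hx]
        rw [Finset.sum_eq_zero this]
    calc ∑ x, ∑ a ∈ G, s a x ≤ ∑ x, (if x ∈ I then (2 : ℝ) else 0) :=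
          Finset.sum_le_sum (fun x _ => hx x)
      _ = I.card * 2 := by
          rw [← Finset.sum_filter, Finset.sum_const, nsmul_eq_mul]
          congr 2
          simp
      _ ≤ 2 * D := by
          have : (I.card : ℝ) ≤ D := by exact_mod_cast hI
          linarith
  have hk' : (0 : ℝ) < k := by exact_mod_cast hk
  -- step 5
  have hexp : (k : ℝ) / 2 * Real.exp (-(4 * D / k)) ≤ ∑ a ∈ G, Real.exp (-(∑ x, s a x)) := by
    set μ : ℝ := 4 * D / k with hμ
    have hμ0 : 0 ≤ μ := by positivity
    have h1 : ∀ a ∈ G, Real.exp (-μ) * (1 + μ - ∑ x, s a x) ≤ Real.exp (-(∑ x, s a x)) := by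
      intro a _
      have h := Real.add_one_le_exp (μ - ∑ x, s a x)
      calc Real.exp (-μ) * (1 + μ - ∑ x, s a x) ≤ Real.exp (-μ) * Real.exp (μ - ∑ x, s a x) := by
            apply mul_le_mul_of_nonneg_left _ (Real.exp_pos _).le
            linarith
        _ = Real.exp (-(∑ x, s a x)) := by
            rw [← Real.exp_add]
            congr 1
            ring
    calc (k : ℝ) / 2 * Real.exp (-μ) ≤ Real.exp (-μ) * (G.card * (1 + μ) - 2 * D) := by
          rw [mul_comm]
          apply mul_le_mul_of_nonneg_left _ (Real.exp_pos _).le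
          have : (k : ℝ) / 2 * μ = 2 * D := by
            rw [hμ]; field_simp; ring
          nlinarith
      _ ≤ Real.exp (-μ) * ∑ a ∈ G, (1 + μ - ∑ x, s a x) := by
          apply mul_le_mul_of_nonneg_left _ (Real.exp_pos _).le
          rw [Finset.sum_sub_distrib, Finset.sum_const, nsmul_eq_mul]
          linarith
      _ = ∑ a ∈ G, Real.exp (-μ) * (1 + μ - ∑ x, s a x) := by
          rw [Finset.mul_sum]
      _ ≤ _ := Finset.sum_le_sum h1
  calc (k : ℝ) / 2 * Real.exp (-(4 * D / k)) * P.card
      ≤ (∑ a ∈ G, Real.exp (-(∑ x, s a x))) * P.card :=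
        mul_le_mul_of_nonneg_right hexp (Nat.cast_nonneg _)
    _ = ∑ a ∈ G, Real.exp (-(∑ x, s a x)) * P.card := by rw [Finset.sum_mul]
    _ ≤ _ := Finset.sum_le_sum hstep3

end Prod

section Count

variable {V : Type} [Fintype V] [DecidableEq V] (H : SimpleGraph V) (k : ℕ)

open Classical in
/-- colourings that are proper on `U` -/
noncomputable def Om (U : Finset V) : Finset (V → Fin k) :=
  univ.filter (fun f => ∀ x ∈ U, ∀ y ∈ U, H.Adj x y → f x ≠ f y)

open Classical in
/-- available colours at `v` -/
noncomputable def Ls (U : Finset V) (v : V) (f : V → Fin k) : Finset (Fin k) :=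
  univ.filter (fun c => ∀ x ∈ U, H.Adj v x → f x ≠ c)

variable {H k}

lemma mem_Om {U : Finset V} {f : V → Fin k} :
    f ∈ Om H k U ↔ ∀ x ∈ U, ∀ y ∈ U, H.Adj x y → f x ≠ f y := by
  simp [Om]

lemma mem_Ls {U : Finset V} {v : V} {f : V → Fin k} {c : Fin k} :
    c ∈ Ls H k U v f ↔ ∀ x ∈ U, H.Adj v x → f x ≠ c := by
  simp [Ls]

/-- counting with a free colour -/
lemma count (U : Finset V) (v : V) (hv : v ∉ U) (p : (V → Fin k) → Prop) [DecidablePred p]
    (hp : ∀ f c, p (Function.update f v c) ↔ p f) :
    k * ((Om H k (insert v U)).filter p).card = ∑ f ∈ (Om H k U).filter p, (Ls H k U v f).card := by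
  have h1 : k * ((Om H k (insert v U)).filter p).card =
      (((Om H k (insert v U)).filter p) ×ˢ (univ : Finset (Fin k))).card := by
    rw [Finset.card_product, Finset.card_univ, Fintype.card_fin, mul_comm]
  rw [h1, ← Finset.card_sigma]
  refine Finset.card_bij' (fun q _ => (⟨Function.update q.1 v q.2, q.1 v⟩ :
      Σ _ : (V → Fin k), Fin k))
    (fun q _ => (Function.update q.1 v q.2, q.1 v)) ?_ ?_ ?_ ?_
  · rintro ⟨f, c⟩ hf
    simp only [Finset.mem_product, Finset.mem_filter, mem_Om, Finset.mem_univ, and_true] at hf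
    simp only [Finset.mem_sigma, Finset.mem_filter, mem_Om, mem_Ls, hp]
    refine ⟨⟨fun x hx y hy hxy => ?_, hf.2⟩, fun x hx hvx => ?_⟩
    · have hxv : x ≠ v := fun h => hv (h ▸ hx)
      have hyv : y ≠ v := fun h => hv (h ▸ hy)
      rw [Function.update_of_ne hxv, Function.update_of_ne hyv]
      exact hf.1 x (Finset.mem_insert_of_mem hx) y (Finset.mem_insert_of_mem hy) hxy
    · have hxv : x ≠ v := fun h => hv (h ▸ hx)
      rw [Function.update_of_ne hxv]
      exact hf.1 x (Finset.mem_insert_of_mem hx) v (Finset.mem_insert_self _ _) hvx.symm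
  · rintro ⟨f, c⟩ hf
    simp only [Finset.mem_sigma, Finset.mem_filter, mem_Om, mem_Ls] at hf
    simp only [Finset.mem_product, Finset.mem_filter, mem_Om, Finset.mem_univ, and_true, hp]
    refine ⟨fun x hx y hy hxy => ?_, hf.1.2⟩
    rw [Finset.mem_insert] at hx hy
    rcases hx with rfl | hx
    · rcases hy with rfl | hy
      · exact absurd hxy (H.loopless.irrefl _)
      · have hyv : y ≠ x := fun h => hv (h ▸ hy)
        rw [Function.update_self, Function.update_of_ne hyv]
        exact (hf.2 y hy hxy).symm
    · have hxv : x ≠ v := fun h => hv (h ▸ hx)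
      rcases hy with rfl | hy
      · rw [Function.update_self, Function.update_of_ne hxv]
        exact hf.2 x hx hxy.symm
      · have hyv : y ≠ v := fun h => hv (h ▸ hy)
        rw [Function.update_of_ne hxv, Function.update_of_ne hyv]
        exact hf.1.1 x hx y hy hxy
  · rintro ⟨f, c⟩ _
    simp
  · rintro ⟨f, c⟩ _
    simp

end Count

end Pool.Agent.TH620.J34
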