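import Mathlib

set_option autoImplicit false

/-! Job 57: the Jacobian determinant is a null Lagrangian for locally Lipschitz maps. -/

open MeasureTheory Set
open scoped NNReal Topology

namespace Pool.Agent.TH620.J57

section Alg

variable {n : ℕ}

/-- weights that recover the determinant -/
lemma exists_weights (hn : 0 < n) (τ : Fin (n + 1) → ℝ) (hτ : Function.Injective τ) :
    ∃ w : Fin (n + 1) → ℝ, ∑ j, w j = 0 ∧
      ∀ M : (Fin n → ℝ) →L[ℝ] (Fin n → ℝ),
        M.det = ∑ j, w j * ((1 : (Fin n → ℝ) →L[ℝ] (Fin n → ℝ)) + τ j • M).det := by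
  classical
  refine ⟨fun j => (Lagrange.basis Finset.univ τ j).coeff n, ?_, ?_⟩
  · have h := Lagrange.sum_basis (s := (Finset.univ : Finset (Fin (n + 1)))) (v := τ)
      hτ.injOn Finset.univ_nonempty
    have h2 := congrArg (fun p => Polynomial.coeff p n) h
    simp only [Polynomial.finsetSum_coeff] at h2
    rw [h2, Polynomial.coeff_one, if_neg (by omega)]
  · intro M
    set A : Matrix (Fin n) (Fin n) ℝ := LinearMap.toMatrix' (M : (Fin n → ℝ) →ₗ[ℝ] (Fin n → ℝ))
      with hA
    set P : Polynomial ℝ := Matrix.det ((Polynomial.X : Polynomial ℝ) • A.map Polynomial.C +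
      (1 : Matrix (Fin n) (Fin n) ℝ).map Polynomial.C) with hP
    have hdeg : P.degree < (Finset.univ : Finset (Fin (n + 1))).card := by
      rw [Finset.card_univ, Fintype.card_fin]
      have h := Polynomial.natDegree_det_X_add_C_le A 1
      rw [Fintype.card_fin] at h
      refine lt_of_le_of_lt Polynomial.degree_le_natDegree ?_
      exact_mod_cast Nat.lt_succ_of_le h
    have heval : ∀ t : ℝ, P.eval t = ((1 : (Fin n → ℝ) →L[ℝ] (Fin n → ℝ)) + t • M).det := by
      intro t
      have h1 : P.eval t = Matrix.det (t • A + 1) := by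
        rw [hP, ← Polynomial.coe_evalRingHom, RingHom.map_det]
        congr 1
        ext i j
        by_cases hij : i = j
        · subst hij
          simp [Matrix.map_apply]
          ring
        · simp [Matrix.map_apply, hij]
          ring
      rw [h1, ContinuousLinearMap.det, ← LinearMap.det_toMatrix']
      congr 1
      rw [ContinuousLinearMap.toLinearMap_add, ContinuousLinearMap.toLinearMap_smul, map_add, map_smul, add_comm,
        ← hA]
      congr 1
      exact LinearMap.toMatrix'_one.symm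
    have hcoeff : P.coeff n = M.det := by
      have h := Polynomial.coeff_det_X_add_C_card A 1
      rw [Fintype.card_fin] at h
      rw [hP, h, hA, LinearMap.det_toMatrix', ContinuousLinearMap.det]
    have h := Lagrange.eq_interpolate (s := (Finset.univ : Finset (Fin (n + 1)))) (v := τ)
      hτ.injOn hdeg
    have h2 := congrArg (fun p => Polynomial.coeff p n) h
    simp only [Lagrange.interpolate_apply, Polynomial.finsetSum_coeff,
      Polynomial.coeff_C_mul] at h2
    rw [← hcoeff, h2]
    apply Finset.sum_congr rfl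
    intro j _
    rw [heval]
    ring

end Alg

section An

variable {n : ℕ}

/-- the inverse of a small perturbation of the identity -/
lemma perturb_bij {u : (Fin n → ℝ) → (Fin n → ℝ)} {L : ℝ≥0} (hu : LipschitzWith L u)
    {t : ℝ} (ht0 : 0 ≤ t) (ht : t * L < 1) : Function.Bijective (fun x => x + t • u x) := by
  constructor
  · intro x y hxy
    simp only at hxy
    have h1 : x - y = t • (u y - u x) := by
      rw [smul_sub]
      rw [sub_eq_sub_iff_add_eq_add, hxy]
      abel
    have h2 : ‖x - y‖ ≤ t * L * ‖x - y‖ := by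
      calc ‖x - y‖ = t * ‖u y - u x‖ := by rw [h1, norm_smul, Real.norm_of_nonneg ht0]
        _ ≤ t * (L * ‖y - x‖) := by
            apply mul_le_mul_of_nonneg_left _ ht0
            have := hu.dist_le_mul y x
            rwa [dist_eq_norm, dist_eq_norm] at this
        _ = t * L * ‖x - y‖ := by rw [norm_sub_rev y x]; ring
    have h3 : ‖x - y‖ ≤ 0 := by
      by_contra h
      push Not at h
      nlinarith
    exact sub_eq_zero.1 (norm_le_zero_iff.1 h3)
  · intro y
    have hc : ContractingWith (Real.toNNReal t * L) (fun x => y - t • u x) := by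
      refine ⟨?_, ?_⟩
      · rw [← NNReal.coe_lt_coe, NNReal.coe_mul, Real.coe_toNNReal t ht0]
        exact ht
      · apply LipschitzWith.of_dist_le_mul
        intro x z
        have := hu.dist_le_mul x z
        rw [dist_eq_norm] at this ⊢
        calc ‖y - t • u x - (y - t • u z)‖ = ‖t • (u z - u x)‖ := by
              congr 1; rw [smul_sub]; abel
          _ = t * ‖u x - u z‖ := by rw [norm_smul, Real.norm_of_nonneg ht0, norm_sub_rev]
          _ ≤ t * (L * dist x z) := mul_le_mul_of_nonneg_left this ht0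
          _ = _ := by rw [NNReal.coe_mul, Real.coe_toNNReal t ht0]; ring
    refine ⟨ContractingWith.fixedPoint _ hc, ?_⟩
    have h := hc.fixedPoint_isFixedPt
    simp only [Function.IsFixedPt] at h
    exact (sub_eq_iff_eq_add.1 h).symm

lemma image_null {φ : (Fin n → ℝ) → (Fin n → ℝ)} {K : ℝ≥0} (hφ : LipschitzWith K φ)
    {N : Set (Fin n → ℝ)} (hN : volume N = 0) : volume (φ '' N) = 0 := by
  have h := hφ.hausdorffMeasure_image_le (d := (Fintype.card (Fin n) : ℝ)) (Nat.cast_nonneg _) N
  rw [hausdorffMeasure_pi_real, hN, mul_zero] at h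
  exact le_antisymm h zero_le

/-- determinants near the identity are positive -/
lemma det_pos_near : ∃ δ : ℝ, 0 < δ ∧ ∀ M : (Fin n → ℝ) →L[ℝ] (Fin n → ℝ), ‖M‖ < δ →
    0 < ((1 : (Fin n → ℝ) →L[ℝ] (Fin n → ℝ)) + M).det := by
  have hc : Continuous (fun M : (Fin n → ℝ) →L[ℝ] (Fin n → ℝ) =>
      ((1 : (Fin n → ℝ) →L[ℝ] (Fin n → ℝ)) + M).det) :=
    ContinuousLinearMap.continuous_det.comp (continuous_const.add continuous_id)
  have h0 : (0 : ℝ) < ((1 : (Fin n → ℝ) →L[ℝ] (Fin n → ℝ)) + 0).det := by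
    rw [add_zero]
    simp [ContinuousLinearMap.det]
  have hev := hc.continuousAt.eventually (lt_mem_nhds h0)
  obtain ⟨δ, hδ, h⟩ := Metric.eventually_nhds_iff.1 hev
  exact ⟨δ, hδ, fun M hM => h (by rwa [dist_zero_right])⟩

lemma det_bounded (C : ℝ) : ∃ K : ℝ, ∀ M : (Fin n → ℝ) →L[ℝ] (Fin n → ℝ), ‖M‖ ≤ C →
    ‖M.det‖ ≤ K := by
  have hc : IsCompact (Metric.closedBall (0 : (Fin n → ℝ) →L[ℝ] (Fin n → ℝ)) C) :=
    isCompact_closedBall _ _
  obtain ⟨K, hK⟩ := hc.exists_bound_of_continuousOn
    (ContinuousLinearMap.continuous_det (𝕜 := ℝ) (E := (Fin n → ℝ))).continuousOn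
  exact ⟨K, fun M hM => hK M (by rwa [mem_closedBall_zero_iff])⟩

/-- L0 for one parameter: the perturbed determinant integrates to the volume -/
lemma int_perturb {u : (Fin n → ℝ) → (Fin n → ℝ)} {L : ℝ≥0} (hu : LipschitzWith L u) {R : ℝ}
    (hR : ∀ x, x ∉ Metric.closedBall (0 : Fin n → ℝ) R → u x = 0) {t : ℝ} (ht0 : 0 ≤ t)
    (ht : t * L < 1) (hpos : ∀ M : (Fin n → ℝ) →L[ℝ] (Fin n → ℝ), ‖M‖ ≤ L →
      0 < ((1 : (Fin n → ℝ) →L[ℝ] (Fin n → ℝ)) + t • M).det) :
    ∫ x in Metric.closedBall (0 : Fin n → ℝ) R,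
      ((1 : (Fin n → ℝ) →L[ℝ] (Fin n → ℝ)) + t • fderiv ℝ u x).det =
      (volume (Metric.closedBall (0 : Fin n → ℝ) R)).toReal := by
  set B := Metric.closedBall (0 : Fin n → ℝ) R with hB
  set φ : (Fin n → ℝ) → (Fin n → ℝ) := fun x => x + t • u x with hφ
  have hbij := perturb_bij hu ht0 ht
  have hφoff : ∀ x, x ∉ B → φ x = x := by
    intro x hx
    simp only [hφ, hR x hx, smul_zero, add_zero]
  have hφB : φ '' B = B := by
    apply Set.Subset.antisymm
    · rintro _ ⟨x, hx, rfl⟩
      by_contra h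
      have h1 := hφoff _ h
      have h2 := hbij.1 h1
      rw [h2] at h
      exact h hx
    · intro y hy
      obtain ⟨x, hx⟩ := hbij.2 y
      refine ⟨x, ?_, hx⟩
      by_contra h
      have h1 := hφoff x h
      have h2 : φ x = y := hx
      rw [h1] at h2
      rw [h2] at h
      exact h hy
  have hφL : LipschitzWith (1 + Real.toNNReal t * L) φ := by
    apply LipschitzWith.of_dist_le_mul
    intro x y
    have := hu.dist_le_mul x y
    rw [dist_eq_norm] at this ⊢
    calc ‖φ x - φ y‖ = ‖(x - y) + t • (u x - u y)‖ := by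
          simp only [hφ]; congr 1; rw [smul_sub]; abel
      _ ≤ ‖x - y‖ + ‖t • (u x - u y)‖ := norm_add_le _ _
      _ = dist x y + t * ‖u x - u y‖ := by
          rw [norm_smul, Real.norm_of_nonneg ht0, dist_eq_norm]
      _ ≤ dist x y + t * (L * dist x y) := by
          have := mul_le_mul_of_nonneg_left this ht0
          linarith
      _ = _ := by rw [NNReal.coe_add, NNReal.coe_mul, Real.coe_toNNReal t ht0, NNReal.coe_one]; ring
  set D : Set (Fin n → ℝ) := {x | DifferentiableAt ℝ u x} with hD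
  have hDm : MeasurableSet D := measurableSet_of_differentiableAt ℝ u
  have hDae : ∀ᵐ x ∂(volume : Measure (Fin n → ℝ)), x ∈ D := hu.ae_differentiableAt
  have hBm : MeasurableSet B := Metric.isClosed_closedBall.measurableSet
  -- volume of the image of the differentiability points
  have hvol : volume (φ '' (B ∩ D)) = volume B := by
    have h1 : φ '' B = φ '' (B ∩ D) ∪ φ '' (B \ D) := by
      rw [← Set.image_union, Set.inter_union_sdiff]
    have h2 : volume (φ '' (B \ D)) = 0 := by
      apply image_null hφL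
      refine measure_mono_null (t := Dᶜ) (fun x hx => hx.2) ?_
      exact hDae
    apply le_antisymm
    · calc volume (φ '' (B ∩ D)) ≤ volume (φ '' B) := measure_mono (Set.image_mono Set.inter_subset_left)
        _ = volume B := by rw [hφB]
    · calc volume B = volume (φ '' (B ∩ D) ∪ φ '' (B \ D)) := by rw [← h1, hφB]
        _ ≤ volume (φ '' (B ∩ D)) + volume (φ '' (B \ D)) := measure_union_le _ _
        _ = volume (φ '' (B ∩ D)) := by rw [h2, add_zero]
  have hder : ∀ x ∈ B ∩ D, HasFDerivWithinAt φ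
      ((1 : (Fin n → ℝ) →L[ℝ] (Fin n → ℝ)) + t • fderiv ℝ u x) (B ∩ D) x := by
    intro x hx
    have h1 : HasFDerivAt u (fderiv ℝ u x) x := (hx.2 : DifferentiableAt ℝ u x).hasFDerivAt
    have h2 : HasFDerivAt φ ((1 : (Fin n → ℝ) →L[ℝ] (Fin n → ℝ)) + t • fderiv ℝ u x) x :=
      (hasFDerivAt_id x).add (h1.const_smul t)
    exact h2.hasFDerivWithinAt
  have hcv := integral_image_eq_integral_abs_det_fderiv_smul volume (hBm.inter hDm) hder
    hbij.1.injOn (fun _ => (1 : ℝ))
  simp only [smul_eq_mul, mul_one] at hcv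
  rw [setIntegral_const, smul_eq_mul, mul_one, Measure.real, hvol] at hcv
  rw [hcv]
  -- now compare the integrals
  have hnorm : ∀ x, ‖fderiv ℝ u x‖ ≤ L := fun x => norm_fderiv_le_of_lipschitz ℝ hu
  have h1 : ∫ x in B ∩ D, |((1 : (Fin n → ℝ) →L[ℝ] (Fin n → ℝ)) + t • fderiv ℝ u x).det| =
      ∫ x in B ∩ D, ((1 : (Fin n → ℝ) →L[ℝ] (Fin n → ℝ)) + t • fderiv ℝ u x).det := by
    congr 1
    funext x
    exact abs_of_pos (hpos _ (hnorm x))
  rw [h1]
  apply setIntegral_congr_set
  filter_upwards [hDae] with x hx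
  apply propext
  constructor
  · intro h; exact ⟨h, hx⟩
  · intro h; exact h.1

lemma det_zero_clm (hn : 0 < n) : (0 : (Fin n → ℝ) →L[ℝ] (Fin n → ℝ)).det = 0 := by
  rw [ContinuousLinearMap.det, ContinuousLinearMap.toLinearMap_zero]
  have : Nonempty (Fin n) := ⟨⟨0, hn⟩⟩
  rw [← LinearMap.det_toMatrix', map_zero]
  exact Matrix.det_zero

/-- L0 -/
lemma int_det_zero (hn : 0 < n) {u : (Fin n → ℝ) → (Fin n → ℝ)} {L : ℝ≥0}
    (hu : LipschitzWith L u) {R : ℝ}
    (hR : ∀ x, x ∉ Metric.closedBall (0 : Fin n → ℝ) R → u x = 0) :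
    Integrable (fun x => (fderiv ℝ u x).det) ∧ ∫ x, (fderiv ℝ u x).det = 0 := by
  set B := Metric.closedBall (0 : Fin n → ℝ) R with hB
  have hBm : MeasurableSet B := Metric.isClosed_closedBall.measurableSet
  have hBf : volume B < ⊤ := measure_closedBall_lt_top
  have hnorm : ∀ x, ‖fderiv ℝ u x‖ ≤ L := fun x => norm_fderiv_le_of_lipschitz ℝ hu
  have hzero : ∀ x, x ∉ B → (fderiv ℝ u x).det = 0 := by
    intro x hx
    have h1 : u =ᶠ[𝓝 x] fun _ => 0 := by
      filter_upwards [Metric.isClosed_closedBall.isOpen_compl.mem_nhds hx] with y hy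
      exact hR y hy
    rw [h1.fderiv_eq, fderiv_fun_const]
    exact det_zero_clm hn
  -- the parameters
  obtain ⟨δ, hδ, hδpos⟩ := det_pos_near (n := n)
  set t0 : ℝ := (min (1 / ((L : ℝ) + 1)) (δ / ((L : ℝ) + 1)) : ℝ) / 2 with ht0
  have hL1 : (0 : ℝ) < L + 1 := by positivity
  have hL0 : (0 : ℝ) ≤ L := L.2
  have ht0pos : 0 < t0 := by
    rw [ht0]; positivity
  have ht0a : t0 * L < 1 := by
    have h1 : t0 < 1 / (L + 1) := by
      rw [ht0]
      have := min_le_left (1 / ((L : ℝ) + 1)) (δ / (L + 1))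
      have h2 : 0 < min (1 / ((L : ℝ) + 1)) (δ / (L + 1)) := by positivity
      linarith
    have h2 : t0 * (L + 1) < 1 := by rwa [lt_div_iff₀ hL1] at h1
    nlinarith
  have ht0b : t0 * L < δ := by
    have h1 : t0 < δ / (L + 1) := by
      rw [ht0]
      have := min_le_right (1 / ((L : ℝ) + 1)) (δ / (L + 1))
      have h2 : 0 < min (1 / ((L : ℝ) + 1)) (δ / (L + 1)) := by positivity
      linarith
    have h2 : t0 * (L + 1) < δ := by rwa [lt_div_iff₀ hL1] at h1
    nlinarith
  set τ : Fin (n + 1) → ℝ := fun j => t0 * ((j : ℕ) / (n + 1 : ℝ)) with hτ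
  have hn1 : (0 : ℝ) < n + 1 := by positivity
  have hτinj : Function.Injective τ := by
    intro i j hij
    simp only [hτ] at hij
    have h1 := mul_left_cancel₀ ht0pos.ne' hij
    have h2 : ((i : ℕ) : ℝ) = ((j : ℕ) : ℝ) := by
      field_simp at h1
      exact h1
    exact Fin.ext (by exact_mod_cast h2)
  have hτ0 : ∀ j, 0 ≤ τ j := by
    intro j; simp only [hτ]; positivity
  have hτ1 : ∀ j, τ j ≤ t0 := by
    intro j
    simp only [hτ]
    have : ((j : ℕ) : ℝ) / (n + 1) ≤ 1 := by
      rw [div_le_one hn1]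
      have := j.2
      exact_mod_cast this.le
    nlinarith
  obtain ⟨w, hw0, hw⟩ := exists_weights hn τ hτinj
  -- integrals over B
  have hval : ∀ j, ∫ x in B, ((1 : (Fin n → ℝ) →L[ℝ] (Fin n → ℝ)) + τ j • fderiv ℝ u x).det =
      (volume B).toReal := by
    intro j
    refine int_perturb hu hR (hτ0 j) ?_ ?_
    · nlinarith [hτ1 j]
    · intro M hM
      apply hδpos
      rw [norm_smul, Real.norm_of_nonneg (hτ0 j)]
      nlinarith [hτ1 j, hτ0 j]
  have hmeas : ∀ t : ℝ, Measurable (fun x =>
      ((1 : (Fin n → ℝ) →L[ℝ] (Fin n → ℝ)) + t • fderiv ℝ u x).det) := by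
    intro t
    have hc : Continuous (fun M : (Fin n → ℝ) →L[ℝ] (Fin n → ℝ) =>
        ((1 : (Fin n → ℝ) →L[ℝ] (Fin n → ℝ)) + t • M).det) :=
      ContinuousLinearMap.continuous_det.comp (continuous_const.add (continuous_const_smul t))
    exact hc.measurable.comp (measurable_fderiv ℝ u)
  have hint : ∀ j, IntegrableOn (fun x =>
      ((1 : (Fin n → ℝ) →L[ℝ] (Fin n → ℝ)) + τ j • fderiv ℝ u x).det) B := by
    intro j
    obtain ⟨K, hK⟩ := det_bounded (n := n) (1 + t0 * L)
    refine Measure.integrableOn_of_bounded hBf.ne (hmeas (τ j)).aestronglyMeasurable (M := K) ?_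
    refine Filter.Eventually.of_forall (fun x => hK _ ?_)
    refine (norm_add_le _ _).trans ?_
    have h1 : ‖(1 : (Fin n → ℝ) →L[ℝ] (Fin n → ℝ))‖ ≤ 1 := ContinuousLinearMap.norm_id_le
    have h2 : ‖τ j • fderiv ℝ u x‖ ≤ t0 * L := by
      rw [norm_smul, Real.norm_of_nonneg (hτ0 j)]
      exact mul_le_mul (hτ1 j) (hnorm x) (norm_nonneg _) ht0pos.le
    linarith
  have hrepr : ∀ x, (fderiv ℝ u x).det =
      ∑ j, w j * ((1 : (Fin n → ℝ) →L[ℝ] (Fin n → ℝ)) + τ j • fderiv ℝ u x).det :=
    fun x => hw _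
  have hintB : IntegrableOn (fun x => (fderiv ℝ u x).det) B := by
    have h1 : (fun x => (fderiv ℝ u x).det) = fun x =>
        ∑ j, w j * ((1 : (Fin n → ℝ) →L[ℝ] (Fin n → ℝ)) + τ j • fderiv ℝ u x).det :=
      funext hrepr
    rw [h1]
    apply integrable_finsetSum
    intro j _
    exact (hint j).const_mul (w j)
  have hzB : ∫ x in B, (fderiv ℝ u x).det = 0 := by
    calc ∫ x in B, (fderiv ℝ u x).det = ∫ x in B,
          ∑ j, w j * ((1 : (Fin n → ℝ) →L[ℝ] (Fin n → ℝ)) + τ j • fderiv ℝ u x).det := by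
          congr 1; funext x; exact hrepr x
      _ = ∑ j, ∫ x in B, w j *
            ((1 : (Fin n → ℝ) →L[ℝ] (Fin n → ℝ)) + τ j • fderiv ℝ u x).det :=
          integral_finsetSum _ (fun j _ => (hint j).const_mul (w j))
      _ = ∑ j, w j * (volume B).toReal := by
          apply Finset.sum_congr rfl
          intro j _
          rw [integral_const_mul, hval j]
      _ = 0 := by rw [← Finset.sum_mul, hw0, zero_mul]
  constructor
  · rw [← integrableOn_iff_integrable_of_support_subset (s := B)]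
    · exact hintB
    · intro x hx
      by_contra h
      exact hx (hzero x h)
  · rw [← setIntegral_eq_integral_of_forall_compl_eq_zero (s := B) hzero]
    exact hzB

/-- a locally Lipschitz function with compact support is Lipschitz -/
lemma lipschitz_of_support {u : (Fin n → ℝ) → (Fin n → ℝ)} (hu : LocallyLipschitz u) {R : ℝ}
    (hR : ∀ x, x ∉ Metric.closedBall (0 : Fin n → ℝ) R → u x = 0) :
    ∃ L : ℝ≥0, LipschitzWith L u := by
  have hc : IsCompact (Metric.closedBall (0 : Fin n → ℝ) (R + 1)) := isCompact_closedBall _ _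
  obtain ⟨K, hK⟩ := LocallyLipschitzOn.exists_lipschitzOnWith_of_compact hc hu.locallyLipschitzOn
  obtain ⟨M, hM⟩ := hc.exists_bound_of_continuousOn hu.continuous.continuousOn
  have key : ∀ x y, x ∈ Metric.closedBall (0 : Fin n → ℝ) (R + 1) →
      dist (u x) (u y) ≤ (K + Real.toNNReal M : ℝ≥0) * dist x y := by
    intro x y hx
    have hMM : M ≤ Real.toNNReal M := Real.le_coe_toNNReal M
    rw [NNReal.coe_add]
    have hKn : (0 : ℝ) ≤ K := K.2
    have hMn : (0 : ℝ) ≤ Real.toNNReal M := (Real.toNNReal M).2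
    have hd : (0 : ℝ) ≤ dist x y := dist_nonneg
    by_cases hy : y ∈ Metric.closedBall (0 : Fin n → ℝ) (R + 1)
    · have := hK.dist_le_mul x hx y hy
      nlinarith
    · have hy0 : u y = 0 := hR y (fun h => hy (Metric.closedBall_subset_closedBall (by linarith) h))
      rw [hy0, dist_zero_right]
      by_cases hx' : x ∈ Metric.closedBall (0 : Fin n → ℝ) R
      · have h1 : 1 ≤ dist x y := by
          rw [mem_closedBall_zero_iff] at hx' hy
          push Not at hy
          have := norm_sub_norm_le y x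
          rw [dist_comm, dist_eq_norm]
          linarith
        have := hM x hx
        nlinarith
      · rw [hR x hx', norm_zero]
        positivity
  refine ⟨K + Real.toNNReal M, LipschitzWith.of_dist_le_mul ?_⟩
  intro x y
  by_cases hx : x ∈ Metric.closedBall (0 : Fin n → ℝ) (R + 1)
  · exact key x y hx
  · by_cases hy : y ∈ Metric.closedBall (0 : Fin n → ℝ) (R + 1)
    · rw [dist_comm, dist_comm x y]
      exact key y x hy
    · have h1 : u x = 0 := hR x (fun h => hx (Metric.closedBall_subset_closedBall (by linarith) h))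
      have h2 : u y = 0 := hR y (fun h => hy (Metric.closedBall_subset_closedBall (by linarith) h))
      rw [h1, h2, dist_self]
      positivity

theorem integral_det_fderiv_sub (hn : 0 < n) {f g : (Fin n → ℝ) → (Fin n → ℝ)}
    (hf : LocallyLipschitz f) (hg : LocallyLipschitz g) {S : Set (Fin n → ℝ)} (hS : IsCompact S)
    (hfg : ∀ x, x ∉ S → f x = g x) :
    Integrable (fun x => (fderiv ℝ f x).det - (fderiv ℝ g x).det) ∧
      ∫ x, ((fderiv ℝ f x).det - (fderiv ℝ g x).det) = 0 := by
  obtain ⟨R, hR⟩ := hS.isBounded.subset_closedBall (0 : Fin n → ℝ)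
  set R1 : ℝ := |R| + 1 with hR1
  have hR1pos : 0 < R1 := by positivity
  have hRR1 : R < R1 := by
    have := le_abs_self R
    linarith
  let θ : ContDiffBump (0 : Fin n → ℝ) := ⟨R1, R1 + 1, hR1pos, by linarith⟩
  have hθL : LocallyLipschitz (θ : (Fin n → ℝ) → ℝ) :=
    (θ.contDiff (n := 1)).locallyLipschitz
  have hsm : LocallyLipschitz (fun p : ℝ × (Fin n → ℝ) => p.1 • p.2) := by
    have : ContDiff ℝ 1 (fun p : ℝ × (Fin n → ℝ) => p.1 • p.2) :=
      contDiff_fst.smul contDiff_snd
    exact this.locallyLipschitz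
  have hprod : ∀ {h : (Fin n → ℝ) → (Fin n → ℝ)}, LocallyLipschitz h →
      LocallyLipschitz (fun x => θ x • h x) := by
    intro h hh
    exact hsm.comp (hθL.prodMk hh)
  have hsupp : ∀ {h : (Fin n → ℝ) → (Fin n → ℝ)}, ∀ x,
      x ∉ Metric.closedBall (0 : Fin n → ℝ) (R1 + 1) → θ x • h x = 0 := by
    intro h x hx
    have : θ x = 0 := by
      apply θ.zero_of_le_dist
      rw [Metric.mem_closedBall] at hx
      push Not at hx
      exact hx.le
    rw [this, zero_smul]
  obtain ⟨Lf, hLf⟩ := lipschitz_of_support (hprod hf) (hsupp (h := f))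
  obtain ⟨Lg, hLg⟩ := lipschitz_of_support (hprod hg) (hsupp (h := g))
  obtain ⟨hif, hzf⟩ := int_det_zero hn hLf (hsupp (h := f))
  obtain ⟨hig, hzg⟩ := int_det_zero hn hLg (hsupp (h := g))
  have hfun : (fun x => (fderiv ℝ f x).det - (fderiv ℝ g x).det) =
      fun x => (fderiv ℝ (fun x => θ x • f x) x).det - (fderiv ℝ (fun x => θ x • g x) x).det := by
    funext x
    by_cases hx : x ∈ S
    · have hx1 : x ∈ Metric.ball (0 : Fin n → ℝ) R1 := by
        have := hR hx
        rw [Metric.mem_closedBall] at this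
        rw [Metric.mem_ball]
        linarith
      have hev : ∀ h : (Fin n → ℝ) → (Fin n → ℝ), (fun x => θ x • h x) =ᶠ[𝓝 x] h := by
        intro h
        filter_upwards [Metric.isOpen_ball.mem_nhds hx1] with y hy
        have : θ y = 1 := θ.one_of_mem_closedBall (Metric.ball_subset_closedBall hy)
        rw [this, one_smul]
      rw [(hev f).fderiv_eq, (hev g).fderiv_eq]
    · have h1 : f =ᶠ[𝓝 x] g := by
        filter_upwards [hS.isClosed.isOpen_compl.mem_nhds hx] with y hy
        exact hfg y hy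
      have h2 : (fun x => θ x • f x) =ᶠ[𝓝 x] (fun x => θ x • g x) := by
        filter_upwards [h1] with y hy
        rw [hy]
      rw [h1.fderiv_eq, h2.fderiv_eq, sub_self, sub_self]
  rw [hfun]
  refine ⟨hif.sub hig, ?_⟩
  rw [integral_sub hif hig, hzf, hzg, sub_zero]

end An

end Pool.Agent.TH620.J57
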