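import Pool.Agent.TH630.Fill.NormDefs

set_option autoImplicit false

/-! Job 78: the word norm of a nilpotent group. -/

open MeasureTheory MvPolynomial
open scoped ENNReal NNReal Topology
open Pool.Agent.TH630

namespace Pool.Agent.TH620.J78

variable {n : ℕ} (G : NilLaw n)

/-- the product of a word -/
noncomputable def wp (l : List (Fin n → ℝ)) : Fin n → ℝ := l.foldr G.mul 0

/-- the letters are small -/
def Adm (l : List (Fin n → ℝ)) : Prop := ∀ s ∈ l, ‖s‖ ≤ 1 ∧ ‖G.inv s‖ ≤ 1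

/-- the total cost -/
noncomputable def tc (l : List (Fin n → ℝ)) : ℝ := (l.map G.cost).sum

lemma mem_costs {x : Fin n → ℝ} {c : ℝ} :
    c ∈ G.costs x ↔ ∃ l, Adm G l ∧ wp G l = x ∧ tc G l = c := Iff.rfl

lemma wp_append (l₁ l₂ : List (Fin n → ℝ)) : wp G (l₁ ++ l₂) = G.mul (wp G l₁) (wp G l₂) := by
  induction l₁ with
  | nil => simp [wp]
  | cons s l ih =>
    have h1 : wp G (s :: l ++ l₂) = G.mul s (wp G (l ++ l₂)) := rfl
    have h2 : wp G (s :: l) = G.mul s (wp G l) := rfl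
    rw [h1, h2, ih, G.mulA]

lemma wp_single (s : Fin n → ℝ) : wp G [s] = s := by simp [wp]

lemma tc_append (l₁ l₂ : List (Fin n → ℝ)) : tc G (l₁ ++ l₂) = tc G l₁ + tc G l₂ := by
  simp [tc]

lemma cost_nonneg (s : Fin n → ℝ) : 0 ≤ G.cost s := by
  unfold NilLaw.cost; positivity

lemma tc_nonneg (l : List (Fin n → ℝ)) : 0 ≤ tc G l := by
  unfold tc
  apply List.sum_nonneg
  intro c hc
  obtain ⟨s, _, rfl⟩ := List.mem_map.1 hc
  exact cost_nonneg G s

lemma adm_append {l₁ l₂ : List (Fin n → ℝ)} : Adm G (l₁ ++ l₂) ↔ Adm G l₁ ∧ Adm G l₂ := by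
  unfold Adm
  constructor
  · intro h
    exact ⟨fun s hs => h s (List.mem_append_left _ hs), fun s hs => h s (List.mem_append_right _ hs)⟩
  · rintro ⟨h1, h2⟩ s hs
    rcases List.mem_append.1 hs with h | h
    · exact h1 s h
    · exact h2 s h

lemma costs_bdd (x : Fin n → ℝ) : BddBelow (G.costs x) := by
  refine ⟨0, ?_⟩
  rintro c ⟨l, _, _, rfl⟩
  exact tc_nonneg G l

lemma wp_path (p : ℕ → Fin n → ℝ) (h0 : p 0 = 0) (k : ℕ) :
    wp G ((List.range k).map (fun j => G.ldiv (p j) (p (j + 1)))) = p k := by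
  induction k with
  | zero => simp [wp, h0]
  | succ k ih =>
    rw [List.range_succ, List.map_append, wp_append, ih, List.map_singleton, wp_single]
    simp [NilLaw.ldiv]

lemma inv_ldiv (x z : Fin n → ℝ) : G.inv (G.ldiv x z) = G.ldiv z x := by
  simp [NilLaw.ldiv, NilLaw.invMulRev]

theorem costs_nonempty (x : Fin n → ℝ) : (G.costs x).Nonempty := by
  -- uniform continuity
  set F : ℝ × ℝ → Fin n → ℝ := fun p => G.ldiv (p.1 • x) (p.2 • x) with hF
  have hFc : Continuous F := by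
    have h := (G.contDiff_ldiv₂ 0).continuous
    exact h.comp ((continuous_fst.smul continuous_const).prodMk
      (continuous_snd.smul continuous_const))
  have hcomp : IsCompact (Set.Icc (0 : ℝ) 1 ×ˢ Set.Icc (0 : ℝ) 1) :=
    isCompact_Icc.prod isCompact_Icc
  have hu := hcomp.uniformContinuousOn_of_continuous hFc.continuousOn
  rw [Metric.uniformContinuousOn_iff] at hu
  obtain ⟨δ, hδ, hu⟩ := hu 1 one_pos
  have hdiag : ∀ s, F (s, s) = 0 := fun s => G.ldiv_self _
  have hsmall : ∀ s ∈ Set.Icc (0 : ℝ) 1, ∀ t ∈ Set.Icc (0 : ℝ) 1, |s - t| < δ →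
      ‖F (s, t)‖ ≤ 1 := by
    intro s hs t ht hst
    have h := hu (s, t) ⟨hs, ht⟩ (s, s) ⟨hs, hs⟩ (by
      rw [Prod.dist_eq]
      simp only [dist_self, Real.dist_eq]
      rw [max_lt_iff]
      exact ⟨hδ, by rwa [abs_sub_comm]⟩)
    rw [hdiag, dist_zero_right] at h
    exact h.le
  obtain ⟨m, hm⟩ := exists_nat_gt (1 / δ)
  have hmpos : (0 : ℝ) < m := lt_trans (by positivity) hm
  set p : ℕ → Fin n → ℝ := fun j => ((j : ℝ) / m) • x with hp
  refine ⟨_, (List.range m).map (fun j => G.ldiv (p j) (p (j + 1))), ?_, ?_, rfl⟩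
  · intro s hs
    obtain ⟨j, hj, rfl⟩ := List.mem_map.1 hs
    have hj' : (j : ℝ) + 1 ≤ m := by exact_mod_cast (List.mem_range.1 hj)
    have h1 : ((j : ℝ) / m) ∈ Set.Icc (0 : ℝ) 1 :=
      ⟨by positivity, by rw [div_le_one hmpos]; linarith⟩
    have h2 : (((j + 1 : ℕ) : ℝ) / m) ∈ Set.Icc (0 : ℝ) 1 :=
      ⟨by positivity, by rw [div_le_one hmpos]; push_cast; linarith⟩
    have h3 : |((j : ℝ) / m) - (((j + 1 : ℕ) : ℝ) / m)| < δ := by
      rw [div_sub_div_same]
      push_cast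
      rw [show (j : ℝ) - (j + 1) = -1 by ring, abs_div, abs_neg, abs_one, abs_of_pos hmpos,
        div_lt_iff₀ hmpos]
      rw [div_lt_iff₀ hδ] at hm
      linarith
    refine ⟨hsmall _ h1 _ h2 h3, ?_⟩
    rw [inv_ldiv]
    exact hsmall _ h2 _ h1 (by rwa [abs_sub_comm])
  · have h := wp_path G p (by simp [hp]) m
    have h2 : p m = x := by
      simp only [hp]
      rw [div_self hmpos.ne', one_smul]
    rw [h2] at h
    exact h

theorem nrm_nonneg (x : Fin n → ℝ) : 0 ≤ G.nrm x := by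
  apply Real.sInf_nonneg
  rintro c ⟨l, _, _, rfl⟩
  exact tc_nonneg G l

theorem nrm_le {x : Fin n → ℝ} {c : ℝ} (h : c ∈ G.costs x) : G.nrm x ≤ c :=
  csInf_le (costs_bdd G x) h

theorem nrm_zero : G.nrm 0 = 0 := by
  apply le_antisymm _ (nrm_nonneg G 0)
  exact nrm_le G ⟨[], by simp, by simp, by simp⟩

lemma wp_rev (l : List (Fin n → ℝ)) : wp G (l.reverse.map G.inv) = G.inv (wp G l) := by
  induction l with
  | nil => simp [wp]
  | cons s l ih =>
    have h2 : wp G (s :: l) = G.mul s (wp G l) := rfl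
    rw [List.reverse_cons, List.map_append, wp_append, ih, List.map_singleton, wp_single, h2,
      G.invMulRev]

lemma costs_inv_sub (x : Fin n → ℝ) : G.costs x ⊆ G.costs (G.inv x) := by
  intro c hc
  rw [mem_costs] at hc ⊢
  obtain ⟨l, hl, hx, hc⟩ := hc
  refine ⟨l.reverse.map G.inv, ?_, ?_, ?_⟩
  · intro s hs
    obtain ⟨t, ht, rfl⟩ := List.mem_map.1 hs
    have := hl t (List.mem_reverse.1 ht)
    exact ⟨this.2, by rw [G.invInv]; exact this.1⟩
  · rw [wp_rev, hx]
  · rw [← hc]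
    unfold tc
    rw [List.map_map]
    have h1 : G.cost ∘ G.inv = G.cost := by
      funext s
      simp [NilLaw.cost, add_comm]
    rw [h1, List.map_reverse, List.sum_reverse]

theorem nrm_inv (x : Fin n → ℝ) : G.nrm (G.inv x) = G.nrm x := by
  unfold NilLaw.nrm
  congr 1
  apply Set.Subset.antisymm
  · have := costs_inv_sub G (G.inv x)
    rwa [G.invInv] at this
  · exact costs_inv_sub G x

theorem nrm_mul_le (x y : Fin n → ℝ) : G.nrm (G.mul x y) ≤ G.nrm x + G.nrm y := by
  have key : ∀ c₁ ∈ G.costs x, ∀ c₂ ∈ G.costs y, G.nrm (G.mul x y) ≤ c₁ + c₂ := by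
    intro c₁ h₁ c₂ h₂
    rw [mem_costs] at h₁ h₂
    obtain ⟨l₁, ha₁, hx, hc₁⟩ := h₁
    obtain ⟨l₂, ha₂, hy, hc₂⟩ := h₂
    apply nrm_le
    rw [mem_costs]
    exact ⟨l₁ ++ l₂, (adm_append G).2 ⟨ha₁, ha₂⟩, by rw [wp_append, hx, hy],
      by rw [tc_append, hc₁, hc₂]⟩
  have h1 : ∀ c₂ ∈ G.costs y, G.nrm (G.mul x y) - c₂ ≤ G.nrm x := by
    intro c₂ h₂
    apply le_csInf (costs_nonempty G x)
    intro c₁ h₁
    have := key c₁ h₁ c₂ h₂
    linarith
  have h2 : G.nrm (G.mul x y) - G.nrm x ≤ G.nrm y := by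
    apply le_csInf (costs_nonempty G y)
    intro c₂ h₂
    have := h1 c₂ h₂
    linarith
  linarith

theorem nrm_le_small : ∃ δ : ℝ, 0 < δ ∧ ∃ C : ℝ, 0 < C ∧ ∀ y : Fin n → ℝ, ‖y‖ ≤ δ →
    G.nrm y ≤ C * ‖y‖ := by
  have hL : LocallyLipschitz G.inv := (G.contDiff_inv 1).locallyLipschitz
  obtain ⟨K, t, ht, hK⟩ := hL 0
  obtain ⟨ε, hε, hεt⟩ := Metric.mem_nhds_iff.1 ht
  have hK1 : (0 : ℝ) < K + 1 := by positivity
  refine ⟨min (min (ε / 2) 1) (1 / (K + 1)), by positivity, 1 + K, by positivity, ?_⟩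
  intro y hy
  have hy1 : ‖y‖ ≤ 1 := hy.trans ((min_le_left _ _).trans (min_le_right _ _))
  have hy2 : ‖y‖ < ε := lt_of_le_of_lt (hy.trans ((min_le_left _ _).trans (min_le_left _ _)))
    (by linarith)
  have hy3 : ‖y‖ ≤ 1 / (K + 1) := hy.trans (min_le_right _ _)
  have h1 : ‖G.inv y‖ ≤ K * ‖y‖ := by
    have h := hK.dist_le_mul y (hεt (by rwa [Metric.mem_ball, dist_zero_right])) 0
      (hεt (Metric.mem_ball_self hε))
    rwa [G.invZero, dist_zero_right, dist_zero_right] at h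
  have h2 : ‖G.inv y‖ ≤ 1 := by
    refine h1.trans ?_
    rw [le_div_iff₀ hK1] at hy3
    have := norm_nonneg y
    nlinarith
  have h3 : G.cost y ∈ G.costs y := by
    rw [mem_costs]
    refine ⟨[y], ?_, wp_single G y, by simp [tc]⟩
    intro s hs
    rw [List.mem_singleton] at hs
    subst hs
    exact ⟨hy1, h2⟩
  refine (nrm_le G h3).trans ?_
  unfold NilLaw.cost
  linarith

theorem continuous_nrm : Continuous G.nrm := by
  obtain ⟨δ, hδ, C, hC, hsm⟩ := nrm_le_small G
  rw [continuous_iff_continuousAt]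
  intro x
  have h1 : ∀ y, |G.nrm y - G.nrm x| ≤ G.nrm (G.ldiv x y) := by
    intro y
    have h2 : G.nrm y ≤ G.nrm x + G.nrm (G.ldiv x y) := by
      have := nrm_mul_le G x (G.ldiv x y)
      simpa [NilLaw.ldiv] using this
    have h3 : G.nrm x ≤ G.nrm y + G.nrm (G.ldiv x y) := by
      have := nrm_mul_le G y (G.ldiv y x)
      rw [← inv_ldiv G x y, nrm_inv, inv_ldiv G x y] at this
      simpa [NilLaw.ldiv] using this
    rw [abs_le]
    constructor <;> linarith
  have hc : Continuous (fun y => G.ldiv x y) := by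
    have h := (G.contDiff_ldiv₂ 0).continuous
    exact h.comp (continuous_const.prodMk continuous_id)
  have hlim : Filter.Tendsto (fun y => ‖G.ldiv x y‖) (𝓝 x) (𝓝 0) := by
    have := (hc.norm).tendsto x
    simp only [G.ldiv_self, norm_zero] at this
    exact this
  have hlim2 : Filter.Tendsto (fun y => C * ‖G.ldiv x y‖) (𝓝 x) (𝓝 0) := by
    simpa using hlim.const_mul C
  unfold ContinuousAt
  rw [tendsto_iff_dist_tendsto_zero]
  refine squeeze_zero' (Filter.Eventually.of_forall fun _ => dist_nonneg) ?_ hlim2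
  have hev : ∀ᶠ y in 𝓝 x, ‖G.ldiv x y‖ < δ := hlim.eventually (gt_mem_nhds hδ)
  filter_upwards [hev] with y hy
  rw [Real.dist_eq]
  exact (h1 y).trans (hsm _ hy.le)

/-- growth of a polynomial in the first argument, Lipschitz in the second -/
lemma poly_bound (p : MvPolynomial (Fin n ⊕ Fin n) ℝ) : ∃ K : ℝ, 0 ≤ K ∧ ∃ d : ℕ,
    ∀ x s : Fin n → ℝ, ‖s‖ ≤ 1 → |eval (Sum.elim x s) p| ≤ K * (1 + ‖x‖) ^ d ∧
      |eval (Sum.elim x s) p - eval (Sum.elim x 0) p| ≤ K * (1 + ‖x‖) ^ d * ‖s‖ := by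
  induction p using MvPolynomial.induction_on with
  | C a =>
    refine ⟨|a|, abs_nonneg _, 0, fun x s _ => ?_⟩
    simp only [eval_C, pow_zero, mul_one, le_refl, true_and, sub_self, abs_zero]
    positivity
  | add p q hp hq =>
    obtain ⟨K, hK, d, h⟩ := hp
    obtain ⟨K', hK', d', h'⟩ := hq
    refine ⟨K + K', by positivity, max d d', fun x s hs => ?_⟩
    obtain ⟨h1, h2⟩ := h x s hs
    obtain ⟨h1', h2'⟩ := h' x s hs
    have hx1 : (1 : ℝ) ≤ 1 + ‖x‖ := by have := norm_nonneg x; linarith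
    have hp1 : (1 + ‖x‖) ^ d ≤ (1 + ‖x‖) ^ (max d d') := pow_le_pow_right₀ hx1 (le_max_left _ _)
    have hp2 : (1 + ‖x‖) ^ d' ≤ (1 + ‖x‖) ^ (max d d') := pow_le_pow_right₀ hx1 (le_max_right _ _)
    have hKa := mul_le_mul_of_nonneg_left hp1 hK
    have hKb := mul_le_mul_of_nonneg_left hp2 hK'
    have hsn := norm_nonneg s
    have hKa' := mul_le_mul_of_nonneg_right hKa hsn
    have hKb' := mul_le_mul_of_nonneg_right hKb hsn
    constructor
    · rw [map_add]
      refine (abs_add_le _ _).trans ?_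
      linarith
    · rw [map_add, map_add]
      have : eval (Sum.elim x s) p + eval (Sum.elim x s) q -
          (eval (Sum.elim x 0) p + eval (Sum.elim x 0) q) =
          (eval (Sum.elim x s) p - eval (Sum.elim x 0) p) +
          (eval (Sum.elim x s) q - eval (Sum.elim x 0) q) := by ring
      rw [this]
      refine (abs_add_le _ _).trans ?_
      linarith
  | mul_X p i hp =>
    obtain ⟨K, hK, d, h⟩ := hp
    refine ⟨K, hK, d + 1, fun x s hs => ?_⟩
    obtain ⟨h1, h2⟩ := h x s hs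
    have hx0 := norm_nonneg x
    have hsn := norm_nonneg s
    have hx1 : (1 : ℝ) ≤ 1 + ‖x‖ := by linarith
    have hpw : (0 : ℝ) ≤ (1 + ‖x‖) ^ d := by positivity
    cases i with
    | inl a =>
      have hxa : |x a| ≤ 1 + ‖x‖ := by
        have := norm_le_pi_norm x a
        rw [Real.norm_eq_abs] at this
        linarith
      have hxa0 := abs_nonneg (x a)
      constructor
      · rw [map_mul, eval_X, Sum.elim_inl, abs_mul, pow_succ, ← mul_assoc]
        exact mul_le_mul h1 hxa hxa0 (by positivity)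
      · rw [map_mul, map_mul, eval_X, eval_X, Sum.elim_inl, Sum.elim_inl, ← sub_mul, abs_mul,
          pow_succ]
        calc _ ≤ (K * (1 + ‖x‖) ^ d * ‖s‖) * (1 + ‖x‖) :=
              mul_le_mul h2 hxa hxa0 (by positivity)
          _ = _ := by ring
    | inr a =>
      have hsa : |s a| ≤ ‖s‖ := by
        have := norm_le_pi_norm s a
        rwa [Real.norm_eq_abs] at this
      have hsa0 := abs_nonneg (s a)
      have hpp : K * (1 + ‖x‖) ^ d ≤ K * (1 + ‖x‖) ^ (d + 1) :=
        mul_le_mul_of_nonneg_left (pow_le_pow_right₀ hx1 (Nat.le_succ d)) hK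
      constructor
      · rw [map_mul, eval_X, Sum.elim_inr, abs_mul]
        calc _ ≤ (K * (1 + ‖x‖) ^ d) * 1 :=
              mul_le_mul h1 (hsa.trans hs) hsa0 (by positivity)
          _ ≤ _ := by rw [mul_one]; exact hpp
      · rw [map_mul, map_mul, eval_X, eval_X, Sum.elim_inr, Sum.elim_inr, Pi.zero_apply, mul_zero,
          sub_zero, abs_mul]
        calc _ ≤ (K * (1 + ‖x‖) ^ d) * ‖s‖ :=
              mul_le_mul h1 hsa hsa0 (by positivity)
          _ ≤ _ := mul_le_mul_of_nonneg_right hpp hsn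

/-- the corrections grow polynomially in the lower coordinates -/
lemma P_bound (i : Fin n) : ∃ K : ℝ, 0 ≤ K ∧ ∃ d : ℕ, ∀ (x s : Fin n → ℝ) (R : ℝ), 0 ≤ R →
    (∀ a, a < i → |x a| ≤ R) → ‖s‖ ≤ 1 →
    |eval (Sum.elim x s) (G.P i)| ≤ K * (1 + R) ^ d * ‖s‖ := by
  obtain ⟨K, hK, d, h⟩ := poly_bound (G.P i)
  refine ⟨K, hK, d, fun x s R hR hx hs => ?_⟩
  set x' : Fin n → ℝ := fun a => if a < i then x a else 0 with hx'
  have h1 : eval (Sum.elim x s) (G.P i) = eval (Sum.elim x' s) (G.P i) := by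
    apply G.tri i
    · intro j hj; simp [hx', hj]
    · intro j _; rfl
  have h2 : eval (Sum.elim x' 0) (G.P i) = 0 := by
    have h := congrFun (G.mulZero x') i
    rw [NilLaw.mul_apply] at h
    simpa using h
  have h3 : ‖x'‖ ≤ R := by
    rw [pi_norm_le_iff_of_nonneg hR]
    intro a
    simp only [hx']
    split_ifs with ha
    · exact hx a ha
    · simpa using hR
  have h4 := (h x' s hs).2
  rw [h2, sub_zero] at h4
  rw [h1]
  refine h4.trans ?_
  apply mul_le_mul_of_nonneg_right _ (norm_nonneg s)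
  apply mul_le_mul_of_nonneg_left _ hK
  apply pow_le_pow_left₀ (by positivity)
  linarith

lemma coord_bound (i : ℕ) : ∃ C : ℝ, 0 ≤ C ∧ ∃ D : ℕ, ∀ l : List (Fin n → ℝ), Adm G l →
    ∀ a : Fin n, (a : ℕ) < i → |wp G l a| ≤ C * (1 + tc G l) ^ D := by
  induction i with
  | zero => exact ⟨0, le_rfl, 0, fun l _ a ha => absurd ha (Nat.not_lt_zero _)⟩
  | succ i ih =>
    obtain ⟨C, hC, D, h⟩ := ih
    by_cases hi : i < n
    swap
    · refine ⟨C, hC, D, fun l hl a ha => h l hl a ?_⟩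
      have := a.2
      omega
    obtain ⟨K, hK, d, hP⟩ := P_bound G ⟨i, hi⟩
    -- the bound for the coordinate i
    set B : ℝ → ℝ := fun T => 1 + K * (1 + C * (1 + T) ^ D) ^ d with hB
    have hBmono : ∀ S T : ℝ, 0 ≤ S → S ≤ T → B S ≤ B T := by
      intro S T hS hST
      simp only [hB]
      have h1 : (1 + S) ^ D ≤ (1 + T) ^ D := pow_le_pow_left₀ (by positivity) (by linarith) _
      have h2 : (1 + C * (1 + S) ^ D) ^ d ≤ (1 + C * (1 + T) ^ D) ^ d := by
        apply pow_le_pow_left₀ (by positivity)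
        have := mul_le_mul_of_nonneg_left h1 hC
        linarith
      have := mul_le_mul_of_nonneg_left h2 hK
      linarith
    have hB0 : ∀ T : ℝ, 0 ≤ T → 0 ≤ B T := by
      intro T hT; simp only [hB]; positivity
    have key : ∀ l : List (Fin n → ℝ), Adm G l → |wp G l ⟨i, hi⟩| ≤ tc G l * B (tc G l) := by
      intro l
      induction l using List.reverseRecOn with
      | nil => intro _; simp [wp, tc]
      | append_singleton l s ihl =>
        intro hadm
        obtain ⟨hal, has⟩ := (adm_append G).1 hadm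
        have hs : ‖s‖ ≤ 1 := (has s (by simp)).1
        have hT := tc_nonneg G l
        have hcs := cost_nonneg G s
        have htc : tc G (l ++ [s]) = tc G l + G.cost s := by rw [tc_append]; simp [tc]
        rw [wp_append, wp_single, NilLaw.mul_apply, htc]
        have h1 := ihl hal
        have h2 := hP (wp G l) s (C * (1 + tc G l) ^ D) (by positivity)
          (fun a ha => h l hal a ha) hs
        have h3 : |s ⟨i, hi⟩| ≤ ‖s‖ := by
          have := norm_le_pi_norm s ⟨i, hi⟩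
          rwa [Real.norm_eq_abs] at this
        have h4 : ‖s‖ ≤ G.cost s := by
          unfold NilLaw.cost
          have := norm_nonneg (G.inv s)
          linarith
        have h5 : B (tc G l) ≤ B (tc G l + G.cost s) := hBmono _ _ hT (by linarith)
        have h6 : |s ⟨i, hi⟩| + K * (1 + C * (1 + tc G l) ^ D) ^ d * ‖s‖ ≤
            G.cost s * B (tc G l) := by
          calc _ ≤ ‖s‖ + K * (1 + C * (1 + tc G l) ^ D) ^ d * ‖s‖ := by linarith
            _ = ‖s‖ * B (tc G l) := by simp only [hB]; ring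
            _ ≤ _ := mul_le_mul_of_nonneg_right h4 (hB0 _ hT)
        calc _ ≤ |wp G l ⟨i, hi⟩| + |s ⟨i, hi⟩| + |eval (Sum.elim (wp G l) s) (G.P ⟨i, hi⟩)| := by
              refine (abs_add_le _ _).trans ?_
              have := abs_add_le (wp G l ⟨i, hi⟩) (s ⟨i, hi⟩)
              linarith
          _ ≤ tc G l * B (tc G l) + G.cost s * B (tc G l) := by linarith
          _ = (tc G l + G.cost s) * B (tc G l) := by ring
          _ ≤ _ := mul_le_mul_of_nonneg_left h5 (by linarith)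
    -- a polynomial bound for T * B T
    have hTB : ∀ T : ℝ, 0 ≤ T → T * B T ≤ (1 + K * (1 + C) ^ d) * (1 + T) ^ (D * d + 1) := by
      intro T hT
      have h1T : (1 : ℝ) ≤ 1 + T := by linarith
      have hpD : (1 : ℝ) ≤ (1 + T) ^ D := one_le_pow₀ h1T
      have h1 : (1 + C * (1 + T) ^ D) ^ d ≤ (1 + C) ^ d * (1 + T) ^ (D * d) := by
        rw [pow_mul, ← mul_pow]
        apply pow_le_pow_left₀ (by positivity)
        nlinarith
      have hpDd : (1 : ℝ) ≤ (1 + T) ^ (D * d) := one_le_pow₀ h1T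
      have h2 : B T ≤ (1 + K * (1 + C) ^ d) * (1 + T) ^ (D * d) := by
        simp only [hB]
        have := mul_le_mul_of_nonneg_left h1 hK
        nlinarith
      calc T * B T ≤ (1 + T) * B T := mul_le_mul_of_nonneg_right (by linarith) (hB0 T hT)
        _ ≤ (1 + T) * ((1 + K * (1 + C) ^ d) * (1 + T) ^ (D * d)) :=
            mul_le_mul_of_nonneg_left h2 (by linarith)
        _ = _ := by ring
    refine ⟨max C (1 + K * (1 + C) ^ d), le_max_of_le_left hC, max D (D * d + 1), ?_⟩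
    intro l hl a ha
    have hT := tc_nonneg G l
    have h1T : (1 : ℝ) ≤ 1 + tc G l := by linarith
    rcases Nat.lt_succ_iff_lt_or_eq.1 ha with ha | ha
    · refine (h l hl a ha).trans ?_
      exact mul_le_mul (le_max_left _ _) (pow_le_pow_right₀ h1T (le_max_left _ _))
        (by positivity) (le_max_of_le_left hC)
    · have : a = ⟨i, hi⟩ := Fin.ext ha
      subst this
      refine (key l hl).trans ((hTB _ hT).trans ?_)
      exact mul_le_mul (le_max_right _ _) (pow_le_pow_right₀ h1T (le_max_right _ _))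
        (by positivity) (le_max_of_le_left hC)

theorem nrm_growth : ∃ C : ℝ, 0 < C ∧ ∃ D : ℕ, ∀ x : Fin n → ℝ,
    ‖x‖ ≤ C * (1 + G.nrm x) ^ D := by
  obtain ⟨C, hC, D, h⟩ := coord_bound G n
  refine ⟨(C + 1) * 2 ^ D, by positivity, D, fun x => ?_⟩
  have hx0 := nrm_nonneg G x
  obtain ⟨c, hc, hlt⟩ := exists_lt_of_csInf_lt (costs_nonempty G x)
    (show sInf (G.costs x) < G.nrm x + 1 by unfold NilLaw.nrm; linarith)
  rw [mem_costs] at hc
  obtain ⟨l, hl, hwx, htc⟩ := hc
  have hT := tc_nonneg G l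
  rw [pi_norm_le_iff_of_nonneg (by positivity)]
  intro a
  have h1 := h l hl a a.2
  rw [hwx] at h1
  rw [Real.norm_eq_abs]
  refine h1.trans ?_
  have h2 : (1 + tc G l) ^ D ≤ (2 * (1 + G.nrm x)) ^ D := by
    apply pow_le_pow_left₀ (by positivity)
    rw [htc]
    linarith
  calc C * (1 + tc G l) ^ D ≤ (C + 1) * (2 * (1 + G.nrm x)) ^ D :=
        mul_le_mul (by linarith) h2 (by positivity) (by positivity)
    _ = _ := by rw [mul_pow]; ring

end Pool.Agent.TH620.J78
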