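import Pool.Agent.TH630.Fill.Basic

set_option autoImplicit false

/-! Job 79: a quadratically distorted central one-parameter subgroup. -/

open MeasureTheory MvPolynomial
open scoped ENNReal NNReal
open Pool.Agent.TH630

namespace Pool.Agent.TH620.J79

section Grp

variable {Γ : Type*} [Group Γ]

/-- commutator -/
def cm (a y : Γ) : Γ := (y * a)⁻¹ * (a * y)

lemma cm_conj (a y : Γ) : y⁻¹ * a * y = a * cm a y := by
  unfold cm; group

lemma cm_mul (a y₁ y₂ c : Γ) (hc : ∀ x, c * x = x * c) (h₁ : ∀ x, cm a y₁ * x = x * cm a y₁) :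
    cm a (y₁ * y₂ * c) = cm a y₁ * cm a y₂ := by
  have h1 := cm_conj a y₁
  have h2 : cm a (y₁ * y₂ * c) = a⁻¹ * (c⁻¹ * (y₂⁻¹ * (y₁⁻¹ * a * y₁) * y₂) * c) := by
    unfold cm; group
  rw [h2, h1]
  have h3 : y₂⁻¹ * (a * cm a y₁) * y₂ = cm a y₁ * (y₂⁻¹ * a * y₂) := by
    rw [← h₁ a, ← mul_assoc, ← h₁ y₂⁻¹]; group
  rw [h3]
  have h4 : c⁻¹ * (cm a y₁ * (y₂⁻¹ * a * y₂)) * c = cm a y₁ * (y₂⁻¹ * a * y₂) := by
    rw [mul_assoc, ← hc]; group
  rw [h4, ← mul_assoc, ← h₁ a⁻¹]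
  unfold cm; group

lemma cm_central (a y c : Γ) (hc : ∀ x, c * x = x * c) : cm a (y * c) = cm a y := by
  have h2 : cm a (y * c) = a⁻¹ * (c⁻¹ * ((y⁻¹ * a * y) * c)) := by
    unfold cm; group
  rw [h2, ← hc]
  unfold cm; group

lemma cm_pow (a y : Γ) (h : ∀ x, cm a y * x = x * cm a y) (m : ℕ) :
    cm (a ^ m) y = (cm a y) ^ m := by
  have h1 : y⁻¹ * a ^ m * y = (y⁻¹ * a * y) ^ m := by
    have := conj_pow (a := y⁻¹) (b := a) (i := m)
    rw [inv_inv] at this
    exact this.symm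
  have h2 : cm (a ^ m) y = (a ^ m)⁻¹ * (y⁻¹ * a ^ m * y) := by
    unfold cm; group
  rw [h2, h1, cm_conj]
  have hc : Commute a (cm a y) := (h a).symm
  rw [hc.mul_pow]
  group

end Grp

variable {n : ℕ} (G : NilLaw n)

/-- the subgroup of the central series -/
def Gi (n i : ℕ) : Set (Fin n → ℝ) := {x | ∀ j : Fin n, (j : ℕ) < i → x j = 0}

/-- every element of `Gi i` is central -/
def Cen (i : ℕ) : Prop := ∀ y ∈ Gi n i, ∀ x : Fin n → ℝ, G.mul y x = G.mul x y

/-- commutator in coordinates -/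
noncomputable def cr (a y : Fin n → ℝ) : Fin n → ℝ := G.ldiv (G.mul y a) (G.mul a y)

/-- powers in coordinates -/
noncomputable def pw (a : Fin n → ℝ) (m : ℕ) : Fin n → ℝ :=
  @HPow.hPow G.Pt ℕ G.Pt _ a m

lemma pw_zero (a : Fin n → ℝ) : pw G a 0 = 0 := pow_zero (M := G.Pt) a
lemma pw_succ (a : Fin n → ℝ) (m : ℕ) : pw G a (m + 1) = G.mul (pw G a m) a :=
  pow_succ (M := G.Pt) a m
lemma pw_succ' (a : Fin n → ℝ) (m : ℕ) : pw G a (m + 1) = G.mul a (pw G a m) :=
  pow_succ' (M := G.Pt) a m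

lemma cr_mul (a y₁ y₂ c : Fin n → ℝ) (hc : ∀ x, G.mul c x = G.mul x c)
    (h₁ : ∀ x, G.mul (cr G a y₁) x = G.mul x (cr G a y₁)) :
    cr G a (G.mul (G.mul y₁ y₂) c) = G.mul (cr G a y₁) (cr G a y₂) :=
  cm_mul (Γ := G.Pt) a y₁ y₂ c hc h₁

lemma cr_pow (a y : Fin n → ℝ) (h : ∀ x, G.mul (cr G a y) x = G.mul x (cr G a y)) (m : ℕ) :
    cr G (pw G a m) y = pw G (cr G a y) m :=
  cm_pow (Γ := G.Pt) a y h m

lemma eval_right_zero (x y : Fin n → ℝ) (j : Fin n) (hy : ∀ a, a < j → y a = 0) :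
    eval (Sum.elim x y) (G.P j) = 0 := by
  have h := congrFun (G.mulZero x) j
  rw [NilLaw.mul_apply] at h
  rw [G.tri j x x y 0 (fun _ _ => rfl) (fun a ha => by simpa using hy a ha)]
  simpa using h

lemma eval_left_zero (x y : Fin n → ℝ) (j : Fin n) (hy : ∀ a, a < j → y a = 0) :
    eval (Sum.elim y x) (G.P j) = 0 := by
  have h := congrFun (G.zeroMul x) j
  rw [NilLaw.mul_apply] at h
  rw [G.tri j y 0 x x (fun a ha => by simpa using hy a ha) (fun _ _ => rfl)]
  simpa using h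

lemma mul_coord {i : ℕ} (x y : Fin n → ℝ) (hy : y ∈ Gi n i) (j : Fin n) (hj : (j : ℕ) ≤ i) :
    G.mul x y j = x j + y j := by
  rw [NilLaw.mul_apply, eval_right_zero G x y j (fun a ha => hy a (lt_of_lt_of_le ha hj)), add_zero]

lemma mul_coord' {i : ℕ} (x y : Fin n → ℝ) (hy : y ∈ Gi n i) (j : Fin n) (hj : (j : ℕ) ≤ i) :
    G.mul y x j = y j + x j := by
  rw [NilLaw.mul_apply, eval_left_zero G x y j (fun a ha => hy a (lt_of_lt_of_le ha hj)), add_zero]

lemma ldiv_mem {i : ℕ} (u v : Fin n → ℝ) (h : ∀ j : Fin n, (j : ℕ) ≤ i → u j = v j) :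
    G.ldiv v u ∈ Gi n (i + 1) := by
  intro j hj
  have h1 := G.ldiv_tri v v u v j (fun _ _ => rfl)
    (fun a ha => h a (by have : (a : ℕ) < j := ha; omega))
  rw [NilLaw.ldiv_self] at h1
  have h2 := h j (by omega)
  rw [h2] at h1
  simpa using h1

lemma cr_mem {i : ℕ} (a y : Fin n → ℝ) (hy : y ∈ Gi n i) : cr G a y ∈ Gi n (i + 1) := by
  unfold cr
  apply ldiv_mem
  intro j hj
  rw [mul_coord G a y hy j hj, mul_coord' G a y hy j hj, add_comm]

/-- the one-parameter direction -/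
def bb (i : Fin n) (s : ℝ) : Fin n → ℝ := Pi.single i s

lemma bb_mem (i : Fin n) (s : ℝ) : bb i s ∈ Gi n i := by
  intro j hj
  have : j ≠ i := by rintro rfl; exact lt_irrefl _ hj
  exact Pi.single_eq_of_ne this _

lemma mul_ldiv (u v : Fin n → ℝ) : G.mul v (G.ldiv v u) = u := by simp [NilLaw.ldiv]

lemma bb_add (i : Fin n) (s t : ℝ) :
    ∃ c ∈ Gi n ((i : ℕ) + 1), bb i (s + t) = G.mul (G.mul (bb i s) (bb i t)) c := by
  refine ⟨G.ldiv (G.mul (bb i s) (bb i t)) (bb i (s + t)), ?_, (mul_ldiv G _ _).symm⟩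
  apply ldiv_mem
  intro j hj
  rw [mul_coord G _ _ (bb_mem i t) j hj]
  simp only [bb, Pi.single_add, Pi.add_apply]

/-- the maximal index of a noncentral term -/
lemma exists_index (hG : ∃ x y, G.mul x y ≠ G.mul y x) :
    ∃ i : Fin n, ¬ Cen G i ∧ Cen G ((i : ℕ) + 1) := by
  classical
  have hn : Cen G n := by
    intro y hy x
    have : y = 0 := by funext j; exact hy j j.2
    rw [this]; simp
  have hex : ∃ m, Cen G m := ⟨n, hn⟩
  have h0 : ¬ Cen G 0 := by
    intro h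
    obtain ⟨x, y, hxy⟩ := hG
    exact hxy (h x (fun j hj => absurd hj (Nat.not_lt_zero _)) y)
  set m := Nat.find hex with hm
  have hmc : Cen G m := Nat.find_spec hex
  have hm0 : m ≠ 0 := by
    intro h
    rw [h] at hmc
    exact h0 hmc
  have hmn : m ≤ n := Nat.find_min' hex hn
  refine ⟨⟨m - 1, by omega⟩, ?_, ?_⟩
  · exact Nat.find_min hex (by show m - 1 < m; omega)
  · have : m - 1 + 1 = m := by omega
    simp only [this]
    exact hmc

lemma exists_bb (i : Fin n) (h1 : ¬ Cen G i) (h2 : Cen G ((i : ℕ) + 1)) :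
    ∃ (s : ℝ) (a : Fin n → ℝ), G.mul (bb i s) a ≠ G.mul a (bb i s) := by
  by_contra hcon
  push Not at hcon
  apply h1
  intro y hy x
  have hc : G.ldiv (bb i (y i)) y ∈ Gi n ((i : ℕ) + 1) := by
    apply ldiv_mem
    intro j hj
    by_cases hji : j = i
    · subst hji; simp [bb]
    · rw [bb, Pi.single_eq_of_ne hji]
      exact hy j (lt_of_le_of_ne hj (fun h => hji (Fin.ext h)))
  have h3 := mul_ldiv G y (bb i (y i))
  set c := G.ldiv (bb i (y i)) y
  rw [← h3, G.mulA, h2 c hc x, ← G.mulA, hcon, G.mulA]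

lemma N_pw (N : (Fin n → ℝ) → ℝ) (hmul : ∀ x y, N (G.mul x y) ≤ N x + N y) (a : Fin n → ℝ)
    (m : ℕ) : N (pw G a m) ≤ m * N a + N 0 := by
  induction m with
  | zero => rw [pw_zero]; simp
  | succ m ih =>
    rw [pw_succ]
    have := hmul (pw G a m) a
    push_cast
    linarith

lemma bb_nat (i : Fin n) (h2 : Cen G ((i : ℕ) + 1)) (m : ℕ) (r : ℝ) :
    ∃ c ∈ Gi n ((i : ℕ) + 1), bb i (m + r) = G.mul (G.mul (pw G (bb i 1) m) (bb i r)) c := by
  induction m with
  | zero =>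
    refine ⟨0, fun j _ => rfl, ?_⟩
    rw [pw_zero]; simp
  | succ m ih =>
    obtain ⟨c, hc, hce⟩ := ih
    obtain ⟨c', hc', hce'⟩ := bb_add G i 1 (m + r)
    refine ⟨G.mul c c', ?_, ?_⟩
    · intro j hj
      rw [mul_coord G c c' hc' j (by omega), hc j hj, hc' j hj, add_zero]
    · have h3 : ((m + 1 : ℕ) : ℝ) + r = 1 + (m + r) := by push_cast; ring
      have h4 : pw G (bb i 1) (m + 1) = G.mul (bb i 1) (pw G (bb i 1) m) := pw_succ' G _ m
      rw [h3, hce', hce, h4]
      simp only [G.mulA]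

lemma z_mem (i : Fin n) (h2 : Cen G ((i : ℕ) + 1)) (a : Fin n → ℝ) (s : ℝ) (x : Fin n → ℝ) :
    G.mul (cr G a (bb i s)) x = G.mul x (cr G a (bb i s)) :=
  h2 _ (cr_mem G a _ (bb_mem i s)) x

lemma z_add (i : Fin n) (h2 : Cen G ((i : ℕ) + 1)) (a : Fin n → ℝ) (s t : ℝ) :
    cr G a (bb i (s + t)) = G.mul (cr G a (bb i s)) (cr G a (bb i t)) := by
  obtain ⟨c, hc, hce⟩ := bb_add G i s t
  rw [hce]
  exact cr_mul G a _ _ c (fun x => h2 c hc x) (z_mem G i h2 a s)

lemma z_zero (i : Fin n) (a : Fin n → ℝ) : cr G a (bb i 0) = 0 := by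
  simp [cr, bb, NilLaw.ldiv]

lemma z_nat (i : Fin n) (h2 : Cen G ((i : ℕ) + 1)) (a : Fin n → ℝ) (s : ℝ) (m : ℕ) :
    cr G a (bb i (m * s)) = pw G (cr G a (bb i s)) m := by
  induction m with
  | zero => rw [pw_zero]; simpa using z_zero G i a
  | succ m ih =>
    have : ((m + 1 : ℕ) : ℝ) * s = m * s + s := by push_cast; ring
    rw [this, z_add G i h2, ih, pw_succ]

lemma contDiff_z (i : Fin n) (a : Fin n → ℝ) :
    ContDiff ℝ 1 (fun s : ℝ => cr G a (bb i s)) := by
  have hb : ContDiff ℝ 1 (fun s : ℝ => (bb i s : Fin n → ℝ)) := by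
    rw [contDiff_pi]
    intro j
    by_cases h : j = i
    · subst h
      have : (fun s : ℝ => (bb j s : Fin n → ℝ) j) = id := by
        funext s
        simp [bb]
      rw [this]
      exact contDiff_id
    · have : (fun s : ℝ => bb i s j) = fun _ => 0 := by
        funext s
        exact Pi.single_eq_of_ne h _
      rw [this]
      exact contDiff_const
  exact (G.contDiff_ldiv₂ 1).comp
    ((G.contDiff_mul hb contDiff_const).prodMk (G.contDiff_mul contDiff_const hb))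

theorem exists_distorted (hG : ∃ x y, G.mul x y ≠ G.mul y x) (N : (Fin n → ℝ) → ℝ)
    (h0 : ∀ x, 0 ≤ N x) (hmul : ∀ x y, N (G.mul x y) ≤ N x + N y)
    (hinv : ∀ x, N (G.inv x) = N x) (hb : ∀ r : ℝ, ∃ C : ℝ, ∀ x, ‖x‖ ≤ r → N x ≤ C) :
    ∃ (z : ℝ → Fin n → ℝ) (Z : Fin n → ℝ), Z ≠ 0 ∧ HasDerivAt z Z 0 ∧
      (∀ s t, z (s + t) = G.mul (z s) (z t)) ∧ (∀ s x, G.mul (z s) x = G.mul x (z s)) ∧
      ∃ C : ℝ, 0 < C ∧ ∀ τ : ℝ, N (z τ) ≤ C * (1 + √ |τ|) := by
  obtain ⟨i, hi1, hi2⟩ := exists_index G hG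
  obtain ⟨s0, a, hs0⟩ := exists_bb G i hi1 hi2
  set z : ℝ → Fin n → ℝ := fun s => cr G a (bb i s) with hz
  have hzadd : ∀ s t, z (s + t) = G.mul (z s) (z t) := z_add G i hi2 a
  have hzC : ContDiff ℝ 1 z := contDiff_z G i a
  have hzd : Differentiable ℝ z := hzC.differentiable (by norm_num)
  have hz0 : z 0 = 0 := z_zero G i a
  have hzs0 : z s0 ≠ 0 := by
    intro h
    apply hs0
    have h1 := mul_ldiv G (G.mul a (bb i s0)) (G.mul (bb i s0) a)
    have h2 : G.ldiv (G.mul (bb i s0) a) (G.mul a (bb i s0)) = 0 := h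
    rw [h2, G.mulZero] at h1
    exact h1
  refine ⟨z, deriv z 0, ?_, (hzd 0).hasDerivAt, hzadd, z_mem G i hi2 a, ?_⟩
  · -- the derivative is nonzero
    intro hZ
    have hder : ∀ s, deriv z s = 0 := by
      intro s
      have h1 : HasDerivAt (fun t => z (s + t)) (deriv z s) 0 := by
        have h := (hzd (s + 0)).hasDerivAt.comp_const_add s 0
        rwa [add_zero] at h
      have h2 : HasDerivAt (fun t => G.mul (z s) (z t)) (fderiv ℝ (G.mul (z s)) (z 0) 0) 0 := by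
        have h3 : HasDerivAt z 0 0 := by
          have := (hzd 0).hasDerivAt
          rwa [hZ] at this
        exact (G.differentiable_mulLeft (z s) (z 0)).hasFDerivAt.comp_hasDerivAt 0 h3
      rw [map_zero] at h2
      have h3 : (fun t => z (s + t)) = fun t => G.mul (z s) (z t) := funext (hzadd s)
      rw [h3] at h1
      exact h1.unique h2
    have hconst := is_const_of_deriv_eq_zero hzd hder s0 0
    rw [hz0] at hconst
    exact hzs0 hconst
  · obtain ⟨C0, hC0⟩ := hb 1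
    have hN0 : N 0 ≤ C0 := hC0 0 (by simp)
    have hC0n : 0 ≤ C0 := (h0 0).trans hN0
    set C : ℝ := 2 * (N a + N (bb i 1) + 3 * C0) + 1 with hC
    have hNa := h0 a
    have hNb := h0 (bb i 1)
    have hCpos : 0 < C := by rw [hC]; positivity
    have hNinvmul : ∀ x y, N (cr G x y) ≤ 2 * (N x + N y) := by
      intro x y
      have h1 : N (cr G x y) ≤ N (G.inv (G.mul y x)) + N (G.mul x y) := hmul _ _
      rw [hinv] at h1
      have h2 := hmul y x
      have h3 := hmul x y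
      linarith
    have hpos : ∀ τ : ℝ, 0 ≤ τ → N (z τ) ≤ C * (1 + √ τ) := by
      intro τ hτ
      set q := √ τ with hq
      have hq0 : 0 ≤ q := Real.sqrt_nonneg τ
      set m : ℕ := ⌊q⌋₊ + 1 with hm
      have hm1 : (m : ℝ) ≤ q + 1 := by
        rw [hm]; push_cast
        have := Nat.floor_le hq0
        linarith
      have hm2 : q < m := by
        rw [hm]; push_cast
        exact Nat.lt_floor_add_one q
      have hmpos : (0 : ℝ) < m := lt_of_le_of_lt hq0 hm2
      set s : ℝ := τ / m with hs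
      have hs1 : (m : ℝ) * s = τ := by rw [hs]; field_simp
      have hs0' : 0 ≤ s := by positivity
      have hsq : s ≤ q := by
        rw [hs, div_le_iff₀ hmpos]
        have h1 : τ = q * q := (Real.mul_self_sqrt hτ).symm
        rw [h1]
        exact mul_le_mul_of_nonneg_left hm2.le hq0
      set m' : ℕ := ⌊s⌋₊ with hm'
      set r : ℝ := s - m' with hr
      have hr0 : 0 ≤ r := by
        have := Nat.floor_le hs0'
        rw [hr]; linarith
      have hr1 : r ≤ 1 := by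
        have := Nat.lt_floor_add_one s
        rw [hr]; linarith
      have hm'q : (m' : ℝ) ≤ q := (Nat.floor_le hs0').trans hsq
      obtain ⟨c, hc, hce⟩ := bb_nat G i hi2 m' r
      have hsm : (m' : ℝ) + r = s := by rw [hr]; ring
      rw [hsm] at hce
      have h1 : z τ = cr G (pw G a m) (bb i s) := by
        rw [cr_pow G a _ (z_mem G i hi2 a s) m, ← z_nat G i hi2 a s m, hs1]
      have h2 : cr G (pw G a m) (bb i s) =
          cr G (pw G a m) (G.mul (pw G (bb i 1) m') (bb i r)) := by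
        rw [hce]
        have h3 : G.mul (G.mul (pw G (bb i 1) m') (bb i r)) c =
            G.mul (G.mul (G.mul (pw G (bb i 1) m') (bb i r)) 0) c := by
          rw [G.mulZero]
        have hcc : ∀ x, G.mul c x = G.mul x c := fun x => hi2 c hc x
        exact cm_central (Γ := G.Pt) (pw G a m) (G.mul (pw G (bb i 1) m') (bb i r)) c hcc
      have h3 : N (bb i r) ≤ C0 := by
        apply hC0
        rw [bb, Pi.norm_single, Real.norm_of_nonneg hr0]
        exact hr1
      have h4 := N_pw G N hmul a m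
      have h5 := N_pw G N hmul (bb i 1) m'
      have h6 := hmul (pw G (bb i 1) m') (bb i r)
      have h7 := hNinvmul (pw G a m) (G.mul (pw G (bb i 1) m') (bb i r))
      rw [h1, h2]
      have h8 : (m : ℝ) * N a ≤ (q + 1) * N a := mul_le_mul_of_nonneg_right hm1 hNa
      have h9 : (m' : ℝ) * N (bb i 1) ≤ q * N (bb i 1) := mul_le_mul_of_nonneg_right hm'q hNb
      rw [hC]
      nlinarith
    refine ⟨C, hCpos, ?_⟩
    intro τ
    rcases le_total 0 τ with hτ | hτ
    · rw [abs_of_nonneg hτ]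
      exact hpos τ hτ
    · rw [abs_of_nonpos hτ]
      have h1 : G.mul (z (-τ)) (z τ) = 0 := by
        rw [← hzadd, neg_add_cancel, hz0]
      have h2 : z τ = G.inv (z (-τ)) := by
        have h3 := G.invMulCancelLeft (z (-τ)) (z τ)
        rw [h1, G.mulZero] at h3
        exact h3.symm
      rw [h2, hinv]
      exact hpos (-τ) (by linarith)

end Pool.Agent.TH620.J79
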