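import Pool.Agent.TH630.Fill.BarDefs
import Pool.Agent.TH630.Fill.Chain

set_option autoImplicit false

/-! Job 84: barycentric simplices in nilpotent groups. -/

open MeasureTheory MvPolynomial
open scoped ENNReal NNReal Topology
open Pool.Agent.TH630

namespace Pool.Agent.TH620.J84

variable {n : ℕ} (G : NilLaw n)

section Bar

variable {ι : Type*} [Fintype ι]

lemma barStep_congr (t : ι → ℝ) (g : ι → Fin n → ℝ) (c c' : Fin n → ℝ) (i : Fin n)
    (h : ∀ j, j < i → c j = c' j) : G.barStep t g c i = G.barStep t g c' i := by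
  simp only [NilLaw.barStep]
  apply Finset.sum_congr rfl
  intro j _
  have := G.ldiv_tri c c' (g j) (g j) i h (fun _ _ => rfl)
  congr 1
  linarith

lemma barIter_eq_of_fixed (t : ι → ℝ) (g : ι → Fin n → ℝ) (c : Fin n → ℝ)
    (hc : G.barStep t g c = c) (m : ℕ) : ∀ i : Fin n, (i : ℕ) < m → G.barIter t g m i = c i := by
  induction m with
  | zero => intro i hi; omega
  | succ m ih =>
    intro i hi
    have h1 : G.barIter t g (m + 1) i = G.barStep t g (G.barIter t g m) i := rfl
    rw [h1, barStep_congr G t g _ c i (fun j hj => ih j (by have : (j : ℕ) < i := hj; omega)), hc]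

lemma bar_eq_of_fixed (t : ι → ℝ) (g : ι → Fin n → ℝ) (c : Fin n → ℝ)
    (hc : G.barStep t g c = c) : G.bar t g = c := by
  funext i
  exact barIter_eq_of_fixed G t g c hc n i i.2

lemma barIter_stable (t : ι → ℝ) (g : ι → Fin n → ℝ) (m : ℕ) :
    ∀ i : Fin n, (i : ℕ) < m → G.barIter t g (m + 1) i = G.barIter t g m i := by
  induction m with
  | zero => intro i hi; omega
  | succ m ih =>
    intro i hi
    have h1 : G.barIter t g (m + 1 + 1) i = G.barStep t g (G.barIter t g (m + 1)) i := rfl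
    have h2 : G.barIter t g (m + 1) i = G.barStep t g (G.barIter t g m) i := rfl
    rw [h1, h2]
    exact barStep_congr G t g _ _ i (fun j hj => ih j (by have : (j : ℕ) < i := hj; omega))

lemma barStep_bar (t : ι → ℝ) (g : ι → Fin n → ℝ) : G.barStep t g (G.bar t g) = G.bar t g := by
  funext i
  exact barIter_stable G t g n i i.2

lemma barStep_apply (t : ι → ℝ) (ht : ∑ j, t j = 1) (g : ι → Fin n → ℝ) (c : Fin n → ℝ)
    (i : Fin n) : G.barStep t g c i = ∑ j, t j * G.ldiv c (g j) i + c i := by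
  simp only [NilLaw.barStep, mul_add, Finset.sum_add_distrib, ← Finset.sum_mul, ht, one_mul]

lemma ldiv_mulLeft (x c g : Fin n → ℝ) : G.ldiv (G.mul x c) (G.mul x g) = G.ldiv c g := by
  simp only [NilLaw.ldiv, NilLaw.invMulRev, NilLaw.mulA, NilLaw.invMulCancelLeft]

theorem bar_mulLeft (t : ι → ℝ) (ht : ∑ j, t j = 1) (x : Fin n → ℝ)
    (g : ι → Fin n → ℝ) : G.bar t (fun j => G.mul x (g j)) = G.mul x (G.bar t g) := by
  apply bar_eq_of_fixed
  funext i
  rw [barStep_apply G t ht]
  simp only [ldiv_mulLeft]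
  have h := congrFun (barStep_bar G t g) i
  rw [barStep_apply G t ht] at h
  linarith

end Bar

lemma barStep_insertNth {k : ℕ} (t : Fin (k + 1) → ℝ) (g : Fin (k + 2) → Fin n → ℝ)
    (i : Fin (k + 2)) (c : Fin n → ℝ) :
    G.barStep (i.insertNth (0 : ℝ) t : Fin (k + 2) → ℝ) g c =
      G.barStep t (fun j => g (i.succAbove j)) c := by
  funext a
  simp only [NilLaw.barStep]
  rw [Fin.sum_univ_succAbove _ i]
  simp

lemma barIter_insertNth {k : ℕ} (t : Fin (k + 1) → ℝ) (g : Fin (k + 2) → Fin n → ℝ)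
    (i : Fin (k + 2)) (m : ℕ) :
    G.barIter (i.insertNth (0 : ℝ) t : Fin (k + 2) → ℝ) g m =
      G.barIter t (fun j => g (i.succAbove j)) m := by
  induction m with
  | zero => rfl
  | succ m ih =>
    change G.barStep _ g (G.barIter _ g m) = G.barStep t _ (G.barIter t _ m)
    rw [ih, barStep_insertNth]

theorem barSimplex_face {k : ℕ} (g : Fin (k + 2) → Fin n → ℝ) (i : Fin (k + 2)) :
    (G.barSimplex g).face i = G.barSimplex (fun j => g (i.succAbove j)) := by
  ext1
  funext t
  exact barIter_insertNth G t.1 g i n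

theorem barSimplex_zero (g : Fin 1 → Fin n → ℝ) : G.barSimplex g = ptSimplex (g 0) := by
  ext1
  funext t
  change G.bar t.1 g = g 0
  apply bar_eq_of_fixed
  have ht : ∑ j, t.1 j = 1 := t.2.2
  funext i
  rw [barStep_apply G t.1 ht, Fin.sum_univ_one, G.ldiv_self]
  simp

/-! ### Volume bound -/

lemma continuous_triv : Continuous (fun p : (Fin n → ℝ) × (Fin n → ℝ) => G.triv p.1 p.2) := by
  have h1 : ContDiff ℝ 1 (Function.uncurry
      (fun (x : Fin n → ℝ) (y : Fin n → ℝ) => G.mul (G.inv x) y)) :=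
    G.contDiff_mul ((G.contDiff_inv 1).comp contDiff_fst) contDiff_snd
  have h2 : ContDiff ℝ 0 (fun x : Fin n → ℝ =>
      fderiv ℝ (fun y => G.mul (G.inv x) y) x) :=
    ContDiff.fderiv h1 contDiff_id (by norm_num)
  exact (h2.continuous.comp continuous_fst).clm_apply continuous_snd

lemma continuous_metric (B : Matrix (Fin n) (Fin n) ℝ) :
    Continuous (fun p : (Fin n → ℝ) × (Fin n → ℝ) × (Fin n → ℝ) => G.metric B p.1 p.2.1 p.2.2) := by
  unfold NilLaw.metric
  have h := continuous_triv G
  have h1 : Continuous (fun p : (Fin n → ℝ) × (Fin n → ℝ) × (Fin n → ℝ) => G.triv p.1 p.2.1) :=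
    h.comp (continuous_fst.prodMk (continuous_fst.comp continuous_snd))
  have h2 : Continuous (fun p : (Fin n → ℝ) × (Fin n → ℝ) × (Fin n → ℝ) => G.triv p.1 p.2.2) :=
    h.comp (continuous_fst.prodMk (continuous_snd.comp continuous_snd))
  exact h1.dotProduct (continuous_const.matrix_mulVec h2)

lemma contDiff_bary (k : ℕ) (m : WithTop ℕ∞) : ContDiff ℝ m (bary : (Fin k → ℝ) → _) := by
  rw [contDiff_pi]
  intro i
  refine Fin.cases ?_ (fun j => ?_) i
  · have : (fun t : Fin k → ℝ => bary t 0) = fun t => 1 - ∑ i, t i := by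
      funext t; simp [bary]
    rw [this]
    exact contDiff_const.sub (ContDiff.sum fun i _ => contDiff_apply ℝ ℝ i)
  · have : (fun t : Fin k → ℝ => bary t j.succ) = fun t => t j := by
      funext t; simp [bary]
    rw [this]
    exact contDiff_apply ℝ ℝ j

lemma param_bar_eventuallyEq {k : ℕ} (g : Fin (k + 1) → Fin n → ℝ) {t : Fin k → ℝ}
    (ht : t ∈ ocorner k) : (G.barSimplex g).param =ᶠ[nhds t] fun s => G.bar (bary s) g := by
  filter_upwards [(isOpen_ocorner k).mem_nhds ht] with s hs
  have h := (bary_mem_iff s).2 (ocorner_subset k hs)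
  simp [LipSimplex.param, h, NilLaw.barSimplex]

theorem vol_barSimplex_le (B : Matrix (Fin n) (Fin n) ℝ) (k : ℕ) (r : ℝ) :
    ∃ C : ℝ, 0 < C ∧ ∀ g : Fin (k + 1) → Fin n → ℝ, (∀ j, ‖g j‖ ≤ r) →
      G.vol B (G.barSimplex g) ≤ ENNReal.ofReal C := by
  -- the Gram determinant as a continuous function
  set H : (Fin k → ℝ) × (Fin (k + 1) → Fin n → ℝ) → ℝ := fun p =>
    √ (G.gram B (fun s => G.bar (bary s) p.2) p.1).det with hH
  have hΦ : ContDiff ℝ 1 (Function.uncurry
      (fun (p : (Fin k → ℝ) × (Fin (k + 1) → Fin n → ℝ)) (s : Fin k → ℝ) =>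
        G.bar (bary s) p.2)) :=
    (G.contDiff_bar 1).comp (((contDiff_bary k 1).comp contDiff_snd).prodMk
      (contDiff_snd.comp contDiff_fst))
  have hD : ContDiff ℝ 0 (fun p : (Fin k → ℝ) × (Fin (k + 1) → Fin n → ℝ) =>
      fderiv ℝ (fun s => G.bar (bary s) p.2) p.1) :=
    ContDiff.fderiv hΦ contDiff_fst (by norm_num)
  have hbar : Continuous (fun p : (Fin k → ℝ) × (Fin (k + 1) → Fin n → ℝ) =>
      G.bar (bary p.1) p.2) :=
    ((G.contDiff_bar 0).comp (((contDiff_bary k 0).comp contDiff_fst).prodMk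
      contDiff_snd)).continuous
  have hHc : Continuous H := by
    apply Real.continuous_sqrt.comp
    apply Continuous.matrix_det
    apply continuous_matrix
    intro i j
    simp only [NilLaw.gram, Matrix.of_apply]
    have h1 : Continuous (fun p : (Fin k → ℝ) × (Fin (k + 1) → Fin n → ℝ) =>
        fderiv ℝ (fun s => G.bar (bary s) p.2) p.1 (Pi.single i 1)) :=
      hD.continuous.clm_apply continuous_const
    have h2 : Continuous (fun p : (Fin k → ℝ) × (Fin (k + 1) → Fin n → ℝ) =>
        fderiv ℝ (fun s => G.bar (bary s) p.2) p.1 (Pi.single j 1)) :=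
      hD.continuous.clm_apply continuous_const
    exact (continuous_metric G B).comp (hbar.prodMk (h1.prodMk h2))
  have hcomp : IsCompact (corner k ×ˢ Metric.closedBall (0 : Fin (k + 1) → Fin n → ℝ) |r|) :=
    (isCompact_corner k).prod (isCompact_closedBall _ _)
  obtain ⟨M, hM⟩ := hcomp.exists_bound_of_continuousOn hHc.continuousOn
  refine ⟨|M| * (volume (corner k)).toReal + 1, by positivity, ?_⟩
  intro g hg
  have hg' : g ∈ Metric.closedBall (0 : Fin (k + 1) → Fin n → ℝ) |r| := by
    rw [mem_closedBall_zero_iff, pi_norm_le_iff_of_nonneg (abs_nonneg r)]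
    intro j
    exact (hg j).trans (le_abs_self r)
  have hle : G.vol B (G.barSimplex g) ≤ ∫⁻ _ in corner k, ENNReal.ofReal |M| := by
    rw [NilLaw.vol]
    apply lintegral_mono_ae
    filter_upwards [ae_mem_ocorner k] with t ht
    apply ENNReal.ofReal_le_ofReal
    rw [G.gram_congr B (param_bar_eventuallyEq G g ht)]
    have h1 := hM (t, g) ⟨ocorner_subset k ht, hg'⟩
    have h2 := le_abs_self (H (t, g))
    rw [Real.norm_eq_abs] at h1
    exact (h2.trans h1).trans (le_abs_self M)
  refine hle.trans ?_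
  rw [setLIntegral_const]
  calc ENNReal.ofReal |M| * volume (corner k)
      = ENNReal.ofReal |M| * ENNReal.ofReal (volume (corner k)).toReal := by
        rw [ENNReal.ofReal_toReal (volume_corner_lt_top k).ne]
    _ = ENNReal.ofReal (|M| * (volume (corner k)).toReal) := by
        rw [ENNReal.ofReal_mul (abs_nonneg M)]
    _ ≤ _ := ENNReal.ofReal_le_ofReal (by linarith)

end Pool.Agent.TH620.J84
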