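import Pool.Agent.TH620.J78
import Pool.Agent.TH620.J84

set_option autoImplicit false

/-! Job 83: path chains. -/

open MeasureTheory MvPolynomial
open scoped ENNReal NNReal Topology
open Pool.Agent.TH630 Pool.Agent.TH620.J78 Pool.Agent.TH620.J84

namespace Pool.Agent.TH620.J83

variable {n : ℕ} (G : NilLaw n)

/-- the straight segment from `0` to `s` -/
noncomputable def seg (s : Fin n → ℝ) : LipSimplex n 1 :=
  ⟨fun t => t.1 1 • s, ‖s‖₊, by
    apply LipschitzWith.of_dist_le_mul
    intro a b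
    rw [dist_eq_norm, ← sub_smul, norm_smul, mul_comm]
    apply mul_le_mul_of_nonneg_left _ (norm_nonneg s)
    rw [Subtype.dist_eq, ← dist_eq_norm]
    exact dist_le_pi_dist a.1 b.1 1⟩

lemma pt_unique (t : stdSimplex ℝ (Fin 1)) : t.1 0 = 1 := by
  have := t.2.2
  rwa [Fin.sum_univ_one] at this

lemma seg_face_zero (s : Fin n → ℝ) : (seg s).face 0 = ptSimplex s := by
  ext1
  funext t
  change (faceMap 0 t).1 1 • s = s
  have : (faceMap 0 t).1 1 = t.1 0 := rfl
  rw [this, pt_unique, one_smul]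

lemma seg_face_one (s : Fin n → ℝ) : (seg s).face 1 = ptSimplex 0 := by
  ext1
  funext t
  change (faceMap 1 t).1 1 • s = 0
  have : (faceMap 1 t).1 1 = 0 := by
    change (Fin.insertNth (α := fun _ => ℝ) (1 : Fin 2) 0 t.1) 1 = 0
    exact Fin.insertNth_apply_same _ _ _
  rw [this, zero_smul]

lemma bdry_seg (s : Fin n → ℝ) : bdry (Finsupp.single (seg s) 1) =
    Finsupp.single (ptSimplex s) 1 - Finsupp.single (ptSimplex 0) 1 := by
  rw [bdry_single, Fin.sum_univ_two, seg_face_zero, seg_face_one]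
  simp [sub_eq_add_neg]

lemma tr_pt {k : ℕ} (g x : Fin n → ℝ) :
    G.tr g (ptSimplex x : LipSimplex n k) = ptSimplex (G.mul g x) := rfl

lemma trC_single {k : ℕ} (g : Fin n → ℝ) (σ : LipSimplex n k) (a : ℤ) :
    G.trC g (Finsupp.single σ a) = Finsupp.single (G.tr g σ) a := Finsupp.mapDomain_single

lemma trC_sub {k : ℕ} (g : Fin n → ℝ) (a b : Chain n k) :
    G.trC g (a - b) = G.trC g a - G.trC g b := by
  have h : a = (a - b) + b := by abel
  have h2 : G.trC g a = G.trC g (a - b) + G.trC g b := by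
    conv_lhs => rw [h]
    exact G.trC_add g _ _
  rw [h2]; abel

lemma trC_zero {k : ℕ} (g : Fin n → ℝ) : G.trC g (0 : Chain n k) = 0 := Finsupp.mapDomain_zero

lemma param_seg (s : Fin n → ℝ) {t : Fin 1 → ℝ} (ht : t ∈ ocorner 1) :
    (seg s).param =ᶠ[nhds t] fun u => u 0 • s := by
  filter_upwards [(isOpen_ocorner 1).mem_nhds ht] with u hu
  have h := (bary_mem_iff u).2 (ocorner_subset 1 hu)
  simp only [LipSimplex.param, h, dif_pos, seg]
  rfl

lemma metric_bound (B : Matrix (Fin n) (Fin n) ℝ) : ∃ M : ℝ, 0 ≤ M ∧ ∀ x v : Fin n → ℝ,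
    ‖x‖ ≤ 1 → G.metric B x v v ≤ M * ‖v‖ ^ 2 := by
  have hcomp : IsCompact (Metric.closedBall (0 : Fin n → ℝ) 1 ×ˢ
      Metric.closedBall (0 : Fin n → ℝ) 1) := (isCompact_closedBall _ _).prod (isCompact_closedBall _ _)
  have hc : Continuous (fun p : (Fin n → ℝ) × (Fin n → ℝ) => G.metric B p.1 p.2 p.2) :=
    (continuous_metric G B).comp (continuous_fst.prodMk (continuous_snd.prodMk continuous_snd))
  obtain ⟨M, hM⟩ := hcomp.exists_bound_of_continuousOn hc.continuousOn
  refine ⟨|M|, abs_nonneg M, fun x v hx => ?_⟩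
  have hsm : ∀ (a : ℝ) (u : Fin n → ℝ), G.metric B x (a • u) (a • u) = a ^ 2 * G.metric B x u u := by
    intro a u
    simp only [NilLaw.metric, NilLaw.triv, map_smul, Matrix.mulVec_smul, smul_dotProduct,
      dotProduct_smul, smul_eq_mul]
    ring
  by_cases hv : v = 0
  · subst hv
    have := hsm 0 0
    simp only [smul_zero] at this
    rw [this]
    simp
  · have hv' : ‖v‖ ≠ 0 := norm_ne_zero_iff.2 hv
    set u : Fin n → ℝ := ‖v‖⁻¹ • v with hu
    have hvu : v = ‖v‖ • u := by rw [hu, smul_smul, mul_inv_cancel₀ hv', one_smul]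
    have hun : ‖u‖ ≤ 1 := by
      rw [hu, norm_smul, norm_inv, norm_norm, inv_mul_cancel₀ hv']
    have h1 := hM (x, u) ⟨by rwa [mem_closedBall_zero_iff], by rwa [mem_closedBall_zero_iff]⟩
    rw [Real.norm_eq_abs] at h1
    have h2 : G.metric B x u u ≤ |M| := (le_abs_self _).trans (h1.trans (le_abs_self M))
    have h3 := hsm ‖v‖ u
    rw [← hvu] at h3
    rw [h3, mul_comm]
    exact mul_le_mul_of_nonneg_right h2 (sq_nonneg _)

lemma vol_seg_le (B : Matrix (Fin n) (Fin n) ℝ) : ∃ C : ℝ, 0 < C ∧ ∀ s : Fin n → ℝ, ‖s‖ ≤ 1 →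
    G.vol B (seg s) ≤ ENNReal.ofReal (C * ‖s‖) := by
  obtain ⟨M, hM0, hM⟩ := metric_bound G B
  refine ⟨√ M * (volume (corner 1)).toReal + 1, by positivity, fun s hs => ?_⟩
  have hle : G.vol B (seg s) ≤ ∫⁻ _ in corner 1, ENNReal.ofReal (√ M * ‖s‖) := by
    rw [NilLaw.vol]
    apply lintegral_mono_ae
    filter_upwards [ae_mem_ocorner 1] with t ht
    apply ENNReal.ofReal_le_ofReal
    rw [G.gram_congr B (param_seg s ht), Matrix.det_fin_one, NilLaw.gram, Matrix.of_apply]
    have hd : fderiv ℝ (fun u : Fin 1 → ℝ => u 0 • s) t (Pi.single 0 1) = s := by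
      have h1 : HasFDerivAt (fun u : Fin 1 → ℝ => u 0 • s)
          ((ContinuousLinearMap.proj (R := ℝ) (φ := fun _ : Fin 1 => ℝ) 0).smulRight s) t :=
        (hasFDerivAt_apply (𝕜 := ℝ) (0 : Fin 1) t).smul_const s
      rw [h1.fderiv]
      simp
    rw [hd]
    have ht1 : ‖t 0 • s‖ ≤ 1 := by
      have h0 := (ht.1 0).le
      have h1 : t 0 ≤ 1 := by
        have := ht.2
        rw [Fin.sum_univ_one] at this
        exact this.le
      rw [norm_smul, Real.norm_of_nonneg h0]
      have := norm_nonneg s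
      nlinarith
    have h2 := hM (t 0 • s) s ht1
    calc √ (G.metric B (t 0 • s) s s) ≤ √ (M * ‖s‖ ^ 2) := Real.sqrt_le_sqrt h2
      _ = √ M * ‖s‖ := by rw [Real.sqrt_mul hM0, Real.sqrt_sq (norm_nonneg s)]
  refine hle.trans ?_
  rw [setLIntegral_const]
  calc ENNReal.ofReal (√ M * ‖s‖) * volume (corner 1)
      = ENNReal.ofReal (√ M * ‖s‖) * ENNReal.ofReal (volume (corner 1)).toReal := by
        rw [ENNReal.ofReal_toReal (volume_corner_lt_top 1).ne]
    _ = ENNReal.ofReal (√ M * ‖s‖ * (volume (corner 1)).toReal) := by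
        rw [← ENNReal.ofReal_mul (by positivity)]
    _ ≤ _ := ENNReal.ofReal_le_ofReal (by
        have := norm_nonneg s
        nlinarith)

theorem exists_path (hne : ∀ x, (G.costs x).Nonempty) (B : Matrix (Fin n) (Fin n) ℝ) :
    ∃ C : ℝ, 0 < C ∧ ∀ x : Fin n → ℝ, ∃ c : Chain n 1,
      bdry c = Finsupp.single (ptSimplex x) 1 - Finsupp.single (ptSimplex 0) 1 ∧
      G.mass B c ≤ ENNReal.ofReal (C * (G.nrm x + 1)) := by
  obtain ⟨C, hC, hvol⟩ := vol_seg_le G B
  have key : ∀ l : List (Fin n → ℝ), Adm G l → ∃ c : Chain n 1,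
      bdry c = Finsupp.single (ptSimplex (wp G l)) 1 - Finsupp.single (ptSimplex 0) 1 ∧
      G.mass B c ≤ ENNReal.ofReal (C * tc G l) := by
    intro l
    induction l with
    | nil =>
      intro _
      refine ⟨0, ?_, ?_⟩
      · rw [bdry_zero]
        simp [wp]
      · rw [G.mass_zero]; simp
    | cons s l ih =>
      intro hadm
      have hs := hadm s (List.mem_cons_self)
      have hl : Adm G l := fun t ht => hadm t (List.mem_cons_of_mem _ ht)
      obtain ⟨c, hc1, hc2⟩ := ih hl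
      refine ⟨Finsupp.single (seg s) 1 + G.trC s c, ?_, ?_⟩
      · rw [bdry_add, bdry_seg, G.bdry_trC, hc1, trC_sub, trC_single, trC_single, tr_pt, tr_pt,
          G.mulZero]
        have : wp G (s :: l) = G.mul s (wp G l) := rfl
        rw [this]
        abel
      · refine (G.mass_add_le B _ _).trans ?_
        rw [G.mass_single, G.mass_trC]
        have h1 : ((1 : ℤ).natAbs : ℝ≥0∞) = 1 := by simp
        rw [h1, one_mul]
        have hcost : ‖s‖ ≤ G.cost s := by
          unfold NilLaw.cost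
          have := norm_nonneg (G.inv s)
          linarith
        have htc : tc G (s :: l) = G.cost s + tc G l := by simp [tc]
        have hn := norm_nonneg s
        have htn := tc_nonneg G l
        calc G.vol B (seg s) + G.mass B c
            ≤ ENNReal.ofReal (C * ‖s‖) + ENNReal.ofReal (C * tc G l) :=
              add_le_add (hvol s hs.1) hc2
          _ = ENNReal.ofReal (C * ‖s‖ + C * tc G l) :=
              (ENNReal.ofReal_add (by positivity) (by positivity)).symm
          _ ≤ _ := by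
              apply ENNReal.ofReal_le_ofReal
              rw [htc]
              nlinarith
  refine ⟨C, hC, fun x => ?_⟩
  obtain ⟨c, hc, hlt⟩ := exists_lt_of_csInf_lt (hne x)
    (show sInf (G.costs x) < G.nrm x + 1 by unfold NilLaw.nrm; linarith)
  rw [mem_costs] at hc
  obtain ⟨l, hl, hwx, htc⟩ := hc
  obtain ⟨c', h1, h2⟩ := key l hl
  rw [hwx] at h1
  refine ⟨c', h1, h2.trans (ENNReal.ofReal_le_ofReal ?_)⟩
  rw [htc]
  nlinarith

end Pool.Agent.TH620.J83
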