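import Pool.Agent.TH620.J84

set_option autoImplicit false

/-! Job 85: signed volume of barycentric simplices. -/

open MeasureTheory MvPolynomial
open scoped ENNReal NNReal Topology
open Pool.Agent.TH630 Pool.Agent.TH620.J84

namespace Pool.Agent.TH620.J85

/-! ### Polynomial functions with parameters -/

section Poly

variable {n : ℕ} {κ : Type*}

/-- polynomial functions of `t` and the parameters `y` -/
def IsP (f : (Fin n → ℝ) → (κ → ℝ) → ℝ) : Prop :=
  ∃ p : MvPolynomial (Fin n ⊕ κ) ℝ, ∀ t y, f t y = eval (Sum.elim t y) p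

lemma IsP.const (a : ℝ) : IsP (fun (_ : Fin n → ℝ) (_ : κ → ℝ) => a) := ⟨C a, by simp⟩

lemma IsP.add {f g : (Fin n → ℝ) → (κ → ℝ) → ℝ} (hf : IsP f) (hg : IsP g) :
    IsP (fun t y => f t y + g t y) := by
  obtain ⟨p, hp⟩ := hf
  obtain ⟨q, hq⟩ := hg
  exact ⟨p + q, fun t y => by simp only [map_add, hp, hq]⟩

lemma IsP.mul {f g : (Fin n → ℝ) → (κ → ℝ) → ℝ} (hf : IsP f) (hg : IsP g) :
    IsP (fun t y => f t y * g t y) := by
  obtain ⟨p, hp⟩ := hf
  obtain ⟨q, hq⟩ := hg
  exact ⟨p * q, fun t y => by simp only [map_mul, hp, hq]⟩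

lemma IsP.sub {f g : (Fin n → ℝ) → (κ → ℝ) → ℝ} (hf : IsP f) (hg : IsP g) :
    IsP (fun t y => f t y - g t y) := by
  obtain ⟨p, hp⟩ := hf
  obtain ⟨q, hq⟩ := hg
  exact ⟨p - q, fun t y => by simp only [map_sub, hp, hq]⟩

lemma IsP.sum {ι : Type*} (s : Finset ι) {f : ι → (Fin n → ℝ) → (κ → ℝ) → ℝ}
    (hf : ∀ i ∈ s, IsP (f i)) : IsP (fun t y => ∑ i ∈ s, f i t y) := by
  classical
  induction s using Finset.induction_on with
  | empty => simpa using IsP.const 0
  | insert a s ha ih =>
    simp only [Finset.sum_insert ha]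
    exact (hf a (Finset.mem_insert_self _ _)).add
      (ih (fun i hi => hf i (Finset.mem_insert_of_mem hi)))

lemma IsP.prod {ι : Type*} (s : Finset ι) {f : ι → (Fin n → ℝ) → (κ → ℝ) → ℝ}
    (hf : ∀ i ∈ s, IsP (f i)) : IsP (fun t y => ∏ i ∈ s, f i t y) := by
  classical
  induction s using Finset.induction_on with
  | empty => simpa using IsP.const 1
  | insert a s ha ih =>
    simp only [Finset.prod_insert ha]
    exact (hf a (Finset.mem_insert_self _ _)).mul
      (ih (fun i hi => hf i (Finset.mem_insert_of_mem hi)))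

lemma IsP.coord (i : Fin n) : IsP (fun (t : Fin n → ℝ) (_ : κ → ℝ) => t i) :=
  ⟨X (Sum.inl i), by simp⟩

lemma IsP.param (q : κ) : IsP (fun (_ : Fin n → ℝ) (y : κ → ℝ) => y q) :=
  ⟨X (Sum.inr q), by simp⟩

lemma IsP.comp {σ : Type*} (P : MvPolynomial σ ℝ) {f : σ → (Fin n → ℝ) → (κ → ℝ) → ℝ}
    (hf : ∀ i, IsP (f i)) : IsP (fun t y => eval (fun i => f i t y) P) := by
  induction P using MvPolynomial.induction_on with
  | C a => simpa using IsP.const a
  | add p q hp hq => simpa using hp.add hq
  | mul_X p i hp => simpa using hp.mul (hf i)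

lemma IsP.bary (a : Fin (n + 1)) : IsP (fun (t : Fin n → ℝ) (_ : κ → ℝ) => bary t a) := by
  refine Fin.cases ?_ (fun j => ?_) a
  · have h : (fun (t : Fin n → ℝ) (_ : κ → ℝ) => Pool.Agent.TH630.bary t 0) =
        fun t _ => 1 - ∑ i, t i := by
      funext t y; simp [Pool.Agent.TH630.bary]
    rw [h]
    exact (IsP.const 1).sub (IsP.sum _ (fun i _ => IsP.coord i))
  · have h : (fun (t : Fin n → ℝ) (_ : κ → ℝ) => Pool.Agent.TH630.bary t j.succ) =
        fun t _ => t j := by
      funext t y; simp [Pool.Agent.TH630.bary]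
    rw [h]
    exact IsP.coord j

/-- partial derivatives of polynomials -/
lemma hasDerivAt_eval (p : MvPolynomial (Fin n ⊕ κ) ℝ) (t : Fin n → ℝ) (y : κ → ℝ) (j : Fin n) :
    HasDerivAt (fun s : ℝ => eval (Sum.elim (t + s • (Pi.single j 1 : Fin n → ℝ)) y) p)
      (eval (Sum.elim t y) (pderiv (Sum.inl j) p)) 0 := by
  classical
  induction p using MvPolynomial.induction_on with
  | C a => simpa using hasDerivAt_const (0 : ℝ) a
  | add p q hp hq => simpa using hp.fun_add hq
  | mul_X p i hp =>
    have h2 : HasDerivAt (fun s : ℝ => eval (Sum.elim (t + s • (Pi.single j 1 : Fin n → ℝ)) y)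
        (X i)) (eval (Sum.elim t y) (pderiv (Sum.inl j) (X i : MvPolynomial (Fin n ⊕ κ) ℝ))) 0 := by
      cases i with
      | inl i =>
        simp only [eval_X, Sum.elim_inl, Pi.add_apply, Pi.smul_apply, smul_eq_mul]
        have h3 : eval (Sum.elim t y) (pderiv (Sum.inl j) (X (Sum.inl i) :
            MvPolynomial (Fin n ⊕ κ) ℝ)) = (Pi.single j 1 : Fin n → ℝ) i := by
          rw [pderiv_X]
          by_cases h : i = j
          · subst h; simp
          · have h' : (Sum.inl i : Fin n ⊕ κ) ≠ Sum.inl j := fun e => h (Sum.inl.inj e)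
            rw [Pi.single_eq_of_ne h, Pi.single_eq_of_ne h']
            simp
        rw [h3]
        simpa using ((hasDerivAt_id (0 : ℝ)).mul_const ((Pi.single j 1 : Fin n → ℝ) i)).const_add
          (t i)
      | inr q =>
        simp only [eval_X, Sum.elim_inr]
        have h3 : eval (Sum.elim t y) (pderiv (Sum.inl j) (X (Sum.inr q) :
            MvPolynomial (Fin n ⊕ κ) ℝ)) = 0 := by
          rw [pderiv_X_of_ne (by simp)]
          simp
        rw [h3]
        exact hasDerivAt_const _ _
    have h := hp.fun_mul h2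
    have h0 : t + (0 : ℝ) • (Pi.single j 1 : Fin n → ℝ) = t := by simp
    rw [h0] at h
    have h4 : eval (Sum.elim t y) (pderiv (Sum.inl j) (p * X i)) =
        eval (Sum.elim t y) (pderiv (Sum.inl j) p) * eval (Sum.elim t y) (X i) +
        eval (Sum.elim t y) p * eval (Sum.elim t y) (pderiv (Sum.inl j) (X i)) := by
      rw [Derivation.leibniz]
      simp only [smul_eq_mul, map_add, map_mul]
      ring
    rw [h4]
    simpa using h

lemma IsP.contDiff {f : (Fin n → ℝ) → (κ → ℝ) → ℝ} (hf : IsP f) (m : WithTop ℕ∞) (y : κ → ℝ) :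
    ContDiff ℝ m (fun t => f t y) := by
  obtain ⟨p, hp⟩ := hf
  have h : (fun t => f t y) = fun t => eval (Sum.elim t y) p := by
    funext t; exact hp t y
  rw [h]
  clear hp h
  induction p using MvPolynomial.induction_on with
  | C a => simpa using contDiff_const
  | add p q hp hq => simpa using hp.add hq
  | mul_X p i hp =>
    cases i with
    | inl i => simpa using hp.mul (contDiff_apply ℝ ℝ i)
    | inr q => simpa using hp.mul contDiff_const

/-- the Jacobian matrix of a polynomial map is polynomial -/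
lemma IsP.fderiv {f : Fin n → (Fin n → ℝ) → (κ → ℝ) → ℝ} (hf : ∀ i, IsP (f i)) (i j : Fin n) :
    IsP (fun t y => fderiv ℝ (fun s => fun i => f i s y) t (Pi.single j 1) i) := by
  obtain ⟨p, hp⟩ := hf i
  refine ⟨pderiv (Sum.inl j) p, fun t y => ?_⟩
  have hd : DifferentiableAt ℝ (fun s => fun i => f i s y) t := by
    have : ContDiff ℝ 1 (fun s => fun i => f i s y) := by
      rw [contDiff_pi]
      intro i
      exact (hf i).contDiff 1 y
    exact (this.differentiable (by norm_num)) t
  have hl : HasDerivAt (fun s : ℝ => t + s • (Pi.single j 1 : Fin n → ℝ))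
      (Pi.single j 1) 0 := by
    simpa using ((hasDerivAt_id (0 : ℝ)).smul_const (Pi.single j 1 : Fin n → ℝ)).const_add t
  have h1 : HasDerivAt (fun s : ℝ => (fun i => f i (t + s • (Pi.single j 1 : Fin n → ℝ)) y))
      (_root_.fderiv ℝ (fun s => fun i => f i s y) t (Pi.single j 1)) 0 := by
    have := HasFDerivAt.comp_hasDerivAt (x := (0 : ℝ)) (f := fun s : ℝ =>
      t + s • (Pi.single j 1 : Fin n → ℝ)) (l := fun s => fun i => f i s y)
      (l' := _root_.fderiv ℝ (fun s => fun i => f i s y) t) (by simpa using hd.hasFDerivAt) hl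
    exact this
  have h2 := (hasDerivAt_pi.1 h1) i
  have h3 := hasDerivAt_eval p t y j
  have h4 : (fun s : ℝ => f i (t + s • (Pi.single j 1 : Fin n → ℝ)) y) =
      fun s : ℝ => eval (Sum.elim (t + s • (Pi.single j 1 : Fin n → ℝ)) y) p := by
    funext s; exact hp _ _
  rw [h4] at h2
  exact h2.unique h3

lemma det_eq_matrix (T : (Fin n → ℝ) →L[ℝ] (Fin n → ℝ)) :
    T.det = (Matrix.of fun i j => T (Pi.single j 1) i).det := by
  rw [ContinuousLinearMap.det, ← LinearMap.det_toMatrix']
  congr 1

lemma IsP.det {f : Fin n → (Fin n → ℝ) → (κ → ℝ) → ℝ} (hf : ∀ i, IsP (f i)) :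
    IsP (fun t y => (_root_.fderiv ℝ (fun s => fun i => f i s y) t).det) := by
  simp only [det_eq_matrix, Matrix.det_apply, Matrix.of_apply]
  refine IsP.sum _ (fun σ _ => ?_)
  have h1 : IsP (fun (t : Fin n → ℝ) (y : κ → ℝ) => ∏ i,
      _root_.fderiv ℝ (fun s => fun i => f i s y) t (Pi.single i 1) (σ i)) :=
    IsP.prod _ (fun i _ => IsP.fderiv hf (σ i) i)
  have h2 := (IsP.const (κ := κ) (n := n) ((Equiv.Perm.sign σ : ℤ) : ℝ)).mul h1
  have h3 : (fun (t : Fin n → ℝ) (y : κ → ℝ) => ((Equiv.Perm.sign σ : ℤ) : ℝ) * ∏ i,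
      _root_.fderiv ℝ (fun s => fun i => f i s y) t (Pi.single i 1) (σ i)) =
      fun t y => Equiv.Perm.sign σ • ∏ i,
      _root_.fderiv ℝ (fun s => fun i => f i s y) t (Pi.single i 1) (σ i) := by
    funext t y
    rw [Units.smul_def, zsmul_eq_mul]
  rw [h3] at h2
  exact h2

/-- integrals of polynomials over the corner are polynomials in the parameters -/
lemma exists_integral (p : MvPolynomial (Fin n ⊕ κ) ℝ) : ∀ w : (Fin n → ℝ) → ℝ, Continuous w →
    ∃ Q : MvPolynomial κ ℝ, ∀ y : κ → ℝ,
      ∫ t in corner n, w t * eval (Sum.elim t y) p = eval y Q := by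
  induction p using MvPolynomial.induction_on with
  | C a =>
    intro w _
    exact ⟨C (∫ t in corner n, w t * a), fun y => by simp⟩
  | add p q hp hq =>
    intro w hw
    obtain ⟨Q, hQ⟩ := hp w hw
    obtain ⟨Q', hQ'⟩ := hq w hw
    refine ⟨Q + Q', fun y => ?_⟩
    have hint : ∀ r : MvPolynomial (Fin n ⊕ κ) ℝ,
        IntegrableOn (fun t => w t * eval (Sum.elim t y) r) (corner n) := by
      intro r
      apply ContinuousOn.integrableOn_compact (isCompact_corner n)
      apply Continuous.continuousOn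
      exact hw.mul ((IsP.contDiff (f := fun t y => eval (Sum.elim t y) r) ⟨r, fun _ _ => rfl⟩ 0 y).continuous)
    rw [map_add, ← hQ y, ← hQ' y, ← integral_add (hint p) (hint q)]
    congr 1
    funext t
    rw [map_add]; ring
  | mul_X p i hp =>
    intro w hw
    cases i with
    | inl i =>
      obtain ⟨Q, hQ⟩ := hp (fun t => w t * t i) (hw.mul (continuous_apply i))
      refine ⟨Q, fun y => ?_⟩
      rw [← hQ y]
      congr 1
      funext t
      rw [map_mul, eval_X, Sum.elim_inl]; ring
    | inr q =>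
      obtain ⟨Q, hQ⟩ := hp w hw
      refine ⟨Q * X q, fun y => ?_⟩
      rw [map_mul, eval_X, ← hQ y, ← integral_mul_const]
      congr 1
      funext t
      rw [map_mul, eval_X, Sum.elim_inr]; ring

/-- division by a parameter -/
lemma exists_div (p : MvPolynomial (Fin n ⊕ Unit) ℝ) : ∃ p₁ : MvPolynomial (Fin n ⊕ Unit) ℝ,
    ∀ (t : Fin n → ℝ) (s : ℝ), eval (Sum.elim t (fun _ => s)) p =
      eval (Sum.elim t (fun _ => 0)) p + s * eval (Sum.elim t (fun _ => s)) p₁ := by
  induction p using MvPolynomial.induction_on with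
  | C a => exact ⟨0, by simp⟩
  | add p q hp hq =>
    obtain ⟨p₁, h₁⟩ := hp
    obtain ⟨q₁, h₂⟩ := hq
    refine ⟨p₁ + q₁, fun t s => ?_⟩
    rw [map_add, map_add, map_add, h₁ t s, h₂ t s]; ring
  | mul_X p i hp =>
    obtain ⟨p₁, h₁⟩ := hp
    cases i with
    | inl i =>
      refine ⟨p₁ * X (Sum.inl i), fun t s => ?_⟩
      rw [map_mul, map_mul, map_mul, h₁ t s]
      simp only [eval_X, Sum.elim_inl]
      ring
    | inr q =>
      refine ⟨p, fun t s => ?_⟩
      rw [map_mul, map_mul]
      simp only [eval_X, Sum.elim_inr]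
      ring

end Poly

variable {n : ℕ} (G : NilLaw n)

/-- barycentres are polynomial -/
lemma isP_barIter {κ : Type*} (γ : (κ → ℝ) → Fin (n + 1) → Fin n → ℝ)
    (hγ : ∀ a i, IsP (fun (_ : Fin n → ℝ) y => γ y a i)) (m : ℕ) :
    ∀ i, IsP (fun (t : Fin n → ℝ) (y : κ → ℝ) => G.barIter (bary t) (γ y) m i) := by
  induction m with
  | zero => intro i; simpa [NilLaw.barIter] using IsP.const 0
  | succ m ih =>
    intro i
    have h1 : (fun (t : Fin n → ℝ) (y : κ → ℝ) => G.barIter (bary t) (γ y) (m + 1) i) =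
        fun t y => ∑ a, bary t a * (eval (Sum.elim (G.barIter (bary t) (γ y) m) (γ y a)) (G.Q i) +
          G.barIter (bary t) (γ y) m i) := by
      funext t y
      simp only [NilLaw.barIter, NilLaw.barStep, G.eval_Q]
    rw [h1]
    refine IsP.sum _ (fun a _ => (IsP.bary a).mul (IsP.add ?_ (ih i)))
    have h2 : (fun (t : Fin n → ℝ) (y : κ → ℝ) =>
        eval (Sum.elim (G.barIter (bary t) (γ y) m) (γ y a)) (G.Q i)) =
        fun t y => eval (fun q => (Sum.elim (fun j t y => G.barIter (bary t) (γ y) m j)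
          (fun j _ y => γ y a j) : Fin n ⊕ Fin n → (Fin n → ℝ) → (κ → ℝ) → ℝ) q t y) (G.Q i) := by
      funext t y
      congr 2
      funext q
      cases q <;> rfl
    rw [h2]
    apply IsP.comp
    intro q
    cases q with
    | inl j => exact ih j
    | inr j => exact hγ a j

lemma sgnVol_bar (g : Fin (n + 1) → Fin n → ℝ) : sgnVol (G.barSimplex g) =
    ∫ t in corner n, (fderiv ℝ (fun s => G.bar (bary s) g) t).det := by
  rw [sgnVol]
  apply integral_congr_ae
  filter_upwards [ae_mem_ocorner n] with t ht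
  rw [(param_bar_eventuallyEq G g ht).fderiv_eq]

theorem exists_barPoly : ∃ Q : MvPolynomial (Fin (n + 1) × Fin n) ℝ,
    ∀ g : Fin (n + 1) → Fin n → ℝ,
      sgnVol (G.barSimplex g) = MvPolynomial.eval (fun p => g p.1 p.2) Q := by
  have h1 : ∀ i, IsP (fun (t : Fin n → ℝ) (y : Fin (n + 1) × Fin n → ℝ) =>
      G.barIter (bary t) (fun a i => y (a, i)) n i) :=
    isP_barIter G (fun y a i => y (a, i)) (fun a i => IsP.param (a, i)) n
  obtain ⟨p, hp⟩ := IsP.det h1
  obtain ⟨Q, hQ⟩ := exists_integral p (fun _ => 1) continuous_const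
  refine ⟨Q, fun g => ?_⟩
  rw [sgnVol_bar, ← hQ]
  congr 1
  funext t
  rw [one_mul, ← hp]
  rfl

theorem sgnVol_barSimplex_degenerate (g : Fin (n + 1) → Fin n → ℝ) (j : Fin n)
    (h : g j.succ = g 0) : sgnVol (G.barSimplex g) = 0 := by
  rw [sgnVol_bar]
  -- the barycentre does not depend on the coordinate j
  have hstep : ∀ (t : Fin n → ℝ) (s : ℝ) (c : Fin n → ℝ),
      G.barStep (bary (t + s • (Pi.single j 1 : Fin n → ℝ))) g c = G.barStep (bary t) g c := by
    intro t s c
    funext i
    simp only [NilLaw.barStep]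
    rw [Fin.sum_univ_succ, Fin.sum_univ_succ]
    have e0 : bary (t + s • (Pi.single j 1 : Fin n → ℝ)) 0 = bary t 0 - s := by
      simp only [bary, Fin.cons_zero, Pi.add_apply, Pi.smul_apply, smul_eq_mul,
        Finset.sum_add_distrib, ← Finset.mul_sum, Finset.sum_pi_single', Finset.mem_univ, if_true]
      ring
    have e1 : ∀ a : Fin n, bary (t + s • (Pi.single j 1 : Fin n → ℝ)) a.succ =
        bary t a.succ + s * (Pi.single j 1 : Fin n → ℝ) a := by
      intro a
      simp [bary]
    rw [e0]
    simp only [e1, add_mul, Finset.sum_add_distrib]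
    have e2 : ∑ a : Fin n, s * (Pi.single j 1 : Fin n → ℝ) a * (G.ldiv c (g a.succ) i + c i) =
        s * (G.ldiv c (g j.succ) i + c i) := by
      rw [Finset.sum_eq_single j]
      · simp
      · intro b _ hb
        rw [Pi.single_eq_of_ne hb]
        ring
      · intro hj; exact absurd (Finset.mem_univ j) hj
    rw [e2, h]
    ring
  have hiter : ∀ (t : Fin n → ℝ) (s : ℝ) (m : ℕ),
      G.barIter (bary (t + s • (Pi.single j 1 : Fin n → ℝ))) g m = G.barIter (bary t) g m := by
    intro t s m
    induction m with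
    | zero => rfl
    | succ m ih =>
      change G.barStep _ g (G.barIter _ g m) = G.barStep _ g (G.barIter _ g m)
      rw [ih, hstep]
  have hder : ∀ t : Fin n → ℝ, fderiv ℝ (fun s => G.bar (bary s) g) t (Pi.single j 1) = 0 := by
    intro t
    have hd : DifferentiableAt ℝ (fun s => G.bar (bary s) g) t := by
      have : ContDiff ℝ 1 (fun s : Fin n → ℝ => G.bar (bary s) g) :=
        (G.contDiff_bar_left 1 g).comp (contDiff_bary n 1)
      exact (this.differentiable (by norm_num)) t
    have hl : HasDerivAt (fun s : ℝ => t + s • (Pi.single j 1 : Fin n → ℝ))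
        (Pi.single j 1) 0 := by
      simpa using ((hasDerivAt_id (0 : ℝ)).smul_const (Pi.single j 1 : Fin n → ℝ)).const_add t
    have h1 : HasDerivAt (fun s : ℝ => G.bar (bary (t + s • (Pi.single j 1 : Fin n → ℝ))) g)
        (fderiv ℝ (fun s => G.bar (bary s) g) t (Pi.single j 1)) 0 := by
      have := HasFDerivAt.comp_hasDerivAt (x := (0 : ℝ)) (f := fun s : ℝ =>
        t + s • (Pi.single j 1 : Fin n → ℝ)) (l := fun s => G.bar (bary s) g)
        (l' := fderiv ℝ (fun s => G.bar (bary s) g) t) (by simpa using hd.hasFDerivAt) hl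
      exact this
    have h2 : (fun s : ℝ => G.bar (bary (t + s • (Pi.single j 1 : Fin n → ℝ))) g) =
        fun _ => G.bar (bary t) g := by
      funext s
      exact hiter t s n
    rw [h2] at h1
    exact h1.unique (hasDerivAt_const _ _)
  have hdet : ∀ t : Fin n → ℝ, (fderiv ℝ (fun s => G.bar (bary s) g) t).det = 0 := by
    intro t
    rw [det_eq_matrix]
    apply Matrix.det_eq_zero_of_column_eq_zero j
    intro i
    rw [Matrix.of_apply, hder]
    rfl
  simp only [hdet, integral_zero]

/-- the vertices `0, s v_1, ..., s v_n` -/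
noncomputable def vert (v : Fin n → Fin n → ℝ) (s : ℝ) : Fin (n + 1) → Fin n → ℝ :=
  Fin.cons 0 (fun j => s • v j)

lemma isP_vert (v : Fin n → Fin n → ℝ) (a : Fin (n + 1)) (i : Fin n) :
    IsP (fun (_ : Fin n → ℝ) (y : Unit → ℝ) => vert v (y ()) a i) := by
  refine Fin.cases ?_ (fun j => ?_) a
  · simpa [vert] using IsP.const 0
  · have h : (fun (_ : Fin n → ℝ) (y : Unit → ℝ) => vert v (y ()) j.succ i) =
        fun _ y => y () * v j i := by
      funext t y; simp [vert]
    rw [h]
    exact (IsP.param ()).mul (IsP.const _)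

lemma bar_zero {ι : Type*} [Fintype ι] (w : ι → ℝ) :
    G.bar w (fun _ => (0 : Fin n → ℝ)) = 0 := by
  apply bar_eq_of_fixed
  funext i
  simp [NilLaw.barStep, G.ldiv_self]

/-- the derivative of left division at the identity -/
lemma hasDerivAt_ldiv {c g : ℝ → Fin n → ℝ} {c' g' : Fin n → ℝ} (hc : HasDerivAt c c' 0)
    (hg : HasDerivAt g g' 0) (hc0 : c 0 = 0) (hg0 : g 0 = 0) :
    HasDerivAt (fun s => G.ldiv (c s) (g s)) (g' - c') 0 := by
  set Λ : (Fin n → ℝ) × (Fin n → ℝ) → Fin n → ℝ := fun p => G.ldiv p.1 p.2 with hΛ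
  have hΛd : Differentiable ℝ Λ := (G.contDiff_ldiv₂ 1).differentiable (by norm_num)
  set L := fderiv ℝ Λ (0, 0) with hL
  have hgen : ∀ (a b : ℝ → Fin n → ℝ) (a' b' : Fin n → ℝ), HasDerivAt a a' 0 →
      HasDerivAt b b' 0 → a 0 = 0 → b 0 = 0 →
      HasDerivAt (fun s => G.ldiv (a s) (b s)) (L (a', b')) 0 := by
    intro a b a' b' ha hb ha0 hb0
    have hF : HasFDerivAt Λ L (a 0, b 0) := by
      rw [ha0, hb0]
      exact (hΛd _).hasFDerivAt
    exact hF.comp_hasDerivAt 0 (ha.prodMk hb)
  have hline : ∀ u : Fin n → ℝ, HasDerivAt (fun s : ℝ => s • u) u 0 := by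
    intro u
    simpa using (hasDerivAt_id (0 : ℝ)).smul_const u
  have h1 : ∀ u : Fin n → ℝ, L (0, u) = u := by
    intro u
    have h := hgen (fun _ => 0) (fun s => s • u) 0 u (hasDerivAt_const _ _) (hline u) rfl (by simp)
    have h2 : (fun s : ℝ => G.ldiv 0 (s • u)) = fun s => s • u := by
      funext s; exact G.ldiv_zero_left _
    rw [h2] at h
    exact h.unique (hline u)
  have h2 : ∀ u : Fin n → ℝ, L (u, u) = 0 := by
    intro u
    have h := hgen (fun s => s • u) (fun s => s • u) u u (hline u) (hline u) (by simp) (by simp)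
    have h2 : (fun s : ℝ => G.ldiv (s • u) (s • u)) = fun _ => 0 := by
      funext s; exact G.ldiv_self _
    rw [h2] at h
    exact h.unique (hasDerivAt_const _ _)
  have h3 : L (c', g') = g' - c' := by
    have : ((c', g') : (Fin n → ℝ) × (Fin n → ℝ)) = (c', c') + (0, g' - c') := by
      simp
    rw [this, map_add, h1, h2, zero_add]
  rw [← h3]
  exact hgen c g c' g' hc hg hc0 hg0

lemma hasDerivAt_bar (v : Fin n → Fin n → ℝ) (t : Fin n → ℝ) :
    HasDerivAt (fun s : ℝ => G.bar (bary t) (vert v s)) (fun i => ∑ j, t j * v j i) 0 := by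
  set c : ℝ → Fin n → ℝ := fun s => G.bar (bary t) (vert v s) with hc
  have hvert : ContDiff ℝ 1 (fun s : ℝ => vert v s) := by
    rw [contDiff_pi]
    intro a
    refine Fin.cases ?_ (fun j => ?_) a
    · have : (fun s : ℝ => vert v s 0) = fun _ => 0 := by funext s; simp [vert]
      rw [this]; exact contDiff_const
    · have : (fun s : ℝ => vert v s j.succ) = fun s => s • v j := by funext s; simp [vert]
      rw [this]; exact contDiff_id.smul contDiff_const
  have hcd : ContDiff ℝ 1 c :=
    (G.contDiff_bar 1).comp (contDiff_const.prodMk hvert)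
  have hcdiff : DifferentiableAt ℝ c 0 := (hcd.differentiable (by norm_num)) 0
  have hv0 : vert v 0 = fun _ => (0 : Fin n → ℝ) := by
    funext a
    refine Fin.cases ?_ (fun j => ?_) a <;> simp [vert]
  have hc0 : c 0 = 0 := by
    simp only [hc, hv0]
    exact bar_zero G _
  have hder := hcdiff.hasDerivAt
  set c' := deriv c 0 with hc'
  -- the fixed point equation
  have hfix : ∀ (i : Fin n) (s : ℝ), c s i = ∑ a, bary t a * (G.ldiv (c s) (vert v s a) i + c s i) := by
    intro i s
    have := congrFun (barStep_bar G (bary t) (vert v s)) i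
    exact this.symm
  have hsum : ∑ a, bary t a = 1 := by
    rw [Fin.sum_univ_succ]
    simp [bary]
  have hvd : ∀ a : Fin (n + 1), HasDerivAt (fun s : ℝ => vert v s a)
      ((Fin.cons 0 v : Fin (n + 1) → Fin n → ℝ) a) 0 := by
    intro a
    refine Fin.cases ?_ (fun j => ?_) a
    · have : (fun s : ℝ => vert v s 0) = fun _ => 0 := by funext s; simp [vert]
      rw [this]
      simpa using hasDerivAt_const (0 : ℝ) (0 : Fin n → ℝ)
    · have : (fun s : ℝ => vert v s j.succ) = fun s => s • v j := by funext s; simp [vert]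
      rw [this]
      simpa using (hasDerivAt_id (0 : ℝ)).smul_const (v j)
  have hrhs : ∀ i : Fin n, HasDerivAt (fun s => ∑ a, bary t a * (G.ldiv (c s) (vert v s a) i + c s i))
      (∑ a, bary t a * (((Fin.cons 0 v : Fin (n + 1) → Fin n → ℝ) a - c') i + c' i)) 0 := by
    intro i
    apply HasDerivAt.fun_sum
    intro a _
    apply HasDerivAt.const_mul
    have h1 := hasDerivAt_ldiv G hder (hvd a) hc0 (by rw [hv0])
    exact ((hasDerivAt_pi.1 h1) i).fun_add ((hasDerivAt_pi.1 hder) i)
  have hci : ∀ i, c' i = ∑ j, t j * v j i := by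
    intro i
    have h1 := (hasDerivAt_pi.1 hder) i
    have h2 := hrhs i
    have h3 : (fun s => c s i) = fun s => ∑ a, bary t a * (G.ldiv (c s) (vert v s a) i + c s i) :=
      funext (hfix i)
    rw [h3] at h1
    rw [h1.unique h2]
    simp only [Pi.sub_apply, sub_add_cancel]
    rw [Fin.sum_univ_succ]
    simp [bary]
  have : c' = fun i => ∑ j, t j * v j i := funext hci
  rw [← this]
  exact hder

theorem tendsto_sgnVol_barSimplex (v : Fin n → Fin n → ℝ) :
    Filter.Tendsto (fun s : ℝ => (s⁻¹) ^ n *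
        sgnVol (G.barSimplex (Fin.cons 0 (fun j => s • v j) : Fin (n + 1) → Fin n → ℝ)))
      (𝓝[≠] 0) (𝓝 ((Matrix.of v).det * (volume (corner n)).toReal)) := by
  classical
  -- the polynomials
  have hP : ∀ i, IsP (fun (t : Fin n → ℝ) (y : Unit → ℝ) =>
      G.barIter (bary t) (vert v (y ())) n i) :=
    isP_barIter G (fun y => vert v (y ())) (isP_vert v) n
  choose p hp using hP
  choose p₁ hp₁ using fun i => exists_div (p i)
  have hbar : ∀ (t : Fin n → ℝ) (s : ℝ) (i : Fin n),
      G.bar (bary t) (vert v s) i = eval (Sum.elim t (fun _ => s)) (p i) := by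
    intro t s i
    exact hp i t (fun _ => s)
  have hv0 : vert v 0 = fun _ => (0 : Fin n → ℝ) := by
    funext a
    refine Fin.cases ?_ (fun j => ?_) a <;> simp [vert]
  have hfac : ∀ (t : Fin n → ℝ) (s : ℝ) (i : Fin n),
      G.bar (bary t) (vert v s) i = s * eval (Sum.elim t (fun _ => s)) (p₁ i) := by
    intro t s i
    rw [hbar, hp₁ i t s, ← hbar, hv0, bar_zero]
    simp
  -- the polynomial map c1
  set f : Fin n → (Fin n → ℝ) → (Unit → ℝ) → ℝ := fun i t y => eval (Sum.elim t y) (p₁ i) with hf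
  have hfP : ∀ i, IsP (f i) := fun i => ⟨p₁ i, fun _ _ => rfl⟩
  obtain ⟨q, hq⟩ := IsP.det hfP
  obtain ⟨Q, hQ⟩ := exists_integral q (fun _ => 1) continuous_const
  -- for s ≠ 0
  have hne : ∀ s : ℝ, s ≠ 0 → (s⁻¹) ^ n *
      sgnVol (G.barSimplex (Fin.cons 0 (fun j => s • v j) : Fin (n + 1) → Fin n → ℝ)) =
      eval (fun _ => s) Q := by
    intro s hs
    rw [sgnVol_bar, ← hQ, ← integral_const_mul]
    congr 1
    funext t
    rw [one_mul, ← hq]
    have h1 : (fun u => G.bar (bary u) (Fin.cons 0 (fun j => s • v j) : Fin (n + 1) → Fin n → ℝ)) =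
        fun u => s • (fun i => f i u (fun _ => s)) := by
      funext u i
      exact hfac u s i
    rw [h1]
    have hd : DifferentiableAt ℝ (fun u => fun i => f i u (fun _ => s)) t := by
      have : ContDiff ℝ 1 (fun u => fun i => f i u (fun _ => s)) := by
        rw [contDiff_pi]
        intro i
        exact (hfP i).contDiff 1 _
      exact (this.differentiable (by norm_num)) t
    rw [fderiv_fun_const_smul hd]
    have h2 : (s • fderiv ℝ (fun u => fun i => f i u (fun _ => s)) t).det =
        s ^ n * (fderiv ℝ (fun u => fun i => f i u (fun _ => s)) t).det := by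
      rw [ContinuousLinearMap.det, ContinuousLinearMap.toLinearMap_smul, LinearMap.det_smul]
      simp [ContinuousLinearMap.det]
    rw [h2, ← mul_assoc, ← mul_pow, inv_mul_cancel₀ hs, one_pow, one_mul]
  -- the value at zero
  have hval : eval (fun _ => (0 : ℝ)) Q = (Matrix.of v).det * (volume (corner n)).toReal := by
    have hf0 : ∀ (t : Fin n → ℝ) (i : Fin n), f i t (fun _ => 0) = ∑ j, t j * v j i := by
      intro t i
      have h1 := (hasDerivAt_pi.1 (hasDerivAt_bar G v t)) i
      have h2 : (fun s : ℝ => G.bar (bary t) (vert v s) i) =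
          fun s => s * eval (Sum.elim t (fun _ => s)) (p₁ i) := by
        funext s; exact hfac t s i
      rw [h2] at h1
      have hcont : Continuous (fun s : ℝ => eval (Sum.elim t (fun _ : Unit => s)) (p₁ i)) := by
        have h3 := (contDiff_eval (p₁ i) 0).continuous
        refine h3.comp ?_
        apply continuous_pi
        intro a
        cases a with
        | inl a => exact continuous_const
        | inr a => exact continuous_id
      have h4 : HasDerivAt (fun s : ℝ => s * eval (Sum.elim t (fun _ : Unit => s)) (p₁ i))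
          (eval (Sum.elim t (fun _ => 0)) (p₁ i)) 0 := by
        rw [hasDerivAt_iff_tendsto_slope]
        have h5 : Filter.Tendsto (fun s : ℝ => eval (Sum.elim t (fun _ : Unit => s)) (p₁ i))
            (𝓝[≠] 0) (𝓝 (eval (Sum.elim t (fun _ => 0)) (p₁ i))) :=
          (hcont.tendsto 0).mono_left nhdsWithin_le_nhds
        refine h5.congr' ?_
        filter_upwards [self_mem_nhdsWithin] with s hs
        have hs' : s ≠ 0 := hs
        rw [slope_def_field]
        field_simp
        ring
      exact h4.unique h1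
    have hdet : ∀ t : Fin n → ℝ, eval (Sum.elim t (fun _ => (0 : ℝ))) q = (Matrix.of v).det := by
      intro t
      rw [← hq]
      have h1 : (fun s => fun i => f i s (fun _ => 0)) = fun s : Fin n → ℝ =>
          (Matrix.toLin' (Matrix.of v).transpose).toContinuousLinearMap s := by
        funext s i
        rw [hf0]
        simp [Matrix.mulVec, dotProduct, mul_comm]
      change (fderiv ℝ (fun s => fun i => f i s (fun _ => 0)) t).det = _
      rw [h1, ContinuousLinearMap.fderiv, ContinuousLinearMap.det]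
      simp
    rw [← hQ]
    simp only [hdet, one_mul]
    rw [setIntegral_const]
    simp [Measure.real, mul_comm]
  rw [← hval]
  have hcont : Continuous (fun s : ℝ => eval (fun _ : Unit => s) Q) := by
    have h3 := (contDiff_eval Q 0).continuous
    exact h3.comp (continuous_pi fun _ => continuous_id)
  have hlim : Filter.Tendsto (fun s : ℝ => eval (fun _ : Unit => s) Q) (𝓝[≠] 0)
      (𝓝 (eval (fun _ : Unit => 0) Q)) := (hcont.tendsto 0).mono_left nhdsWithin_le_nhds
  refine hlim.congr' ?_
  filter_upwards [self_mem_nhdsWithin] with s hs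
  exact (hne s hs).symm

end Pool.Agent.TH620.J85
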