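import Pool.Agent.TH806.LS.Defs

set_option autoImplicit false

/-!
LS ZR: Hardy's function is real and continuous (MP_112ba8_nt).
-/

namespace Pool.Agent.TH620.LS_ZR

open Complex Filter Topology
open scoped ComplexConjugate

lemma GammaR_conj (s : ℂ) : Gammaℝ (conj s) = conj (Gammaℝ s) := by
  rw [Gammaℝ_def, Gammaℝ_def, map_mul, ← Complex.Gamma_conj]
  congr 1
  · have h := Complex.cpow_conj (Real.pi : ℂ) (-s / 2) (by
      rw [Complex.arg_ofReal_of_nonneg Real.pi_pos.le]; exact Real.pi_pos.ne)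
    rw [Complex.conj_ofReal] at h
    rw [← h]
    congr 1
    rw [map_div₀, map_neg, Complex.conj_ofNat]
  · congr 1
    rw [map_div₀, Complex.conj_ofNat]

lemma line_ne_zero (t : ℝ) : (1 / 2 + t * Complex.I : ℂ) ≠ 0 := by
  intro h
  have := congrArg Complex.re h
  norm_num at this

lemma line_ne_one (t : ℝ) : (1 / 2 + t * Complex.I : ℂ) ≠ 1 := by
  intro h
  have := congrArg Complex.re h
  norm_num at this

lemma GammaR_line_ne (t : ℝ) : Gammaℝ (1 / 2 + t * Complex.I) ≠ 0 := by
  apply Gammaℝ_ne_zero_of_re_pos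
  norm_num

lemma line_conj (t : ℝ) : conj (1 / 2 + t * Complex.I : ℂ) = 1 - (1 / 2 + t * Complex.I) := by
  apply Complex.ext
  · simp
    norm_num
  · simp

lemma prod_eq (t : ℝ) : Gammaℝ (1 / 2 + t * Complex.I) * riemannZeta (1 / 2 + t * Complex.I) =
    completedRiemannZeta (1 / 2 + t * Complex.I) := by
  rw [riemannZeta_def_of_ne_zero (line_ne_zero t), mul_div_cancel₀ _ (GammaR_line_ne t)]

lemma completed_conj (t : ℝ) : conj (completedRiemannZeta (1 / 2 + t * Complex.I)) =
    completedRiemannZeta (1 / 2 + t * Complex.I) := by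
  have h1 : completedRiemannZeta (conj (1 / 2 + t * Complex.I : ℂ)) =
      conj (completedRiemannZeta (1 / 2 + t * Complex.I)) := by
    rw [← prod_eq t, map_mul, ← GammaR_conj, ← riemannZeta_conj]
    have h0 : conj (1 / 2 + t * Complex.I : ℂ) ≠ 0 := by
      intro h
      have := congrArg Complex.re h
      norm_num at this
    rw [riemannZeta_def_of_ne_zero h0]
    have h2 : Gammaℝ (conj (1 / 2 + t * Complex.I : ℂ)) ≠ 0 := by
      apply Gammaℝ_ne_zero_of_re_pos
      norm_num
    rw [mul_div_cancel₀ _ h2]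
  rw [← h1, line_conj, completedRiemannZeta_one_sub]

lemma main_im (t : ℝ) : (Gammaℝ (1 / 2 + t * Complex.I) /
    (‖Gammaℝ (1 / 2 + t * Complex.I)‖ : ℂ) * riemannZeta (1 / 2 + t * Complex.I)) =
    completedRiemannZeta (1 / 2 + t * Complex.I) / (‖Gammaℝ (1 / 2 + t * Complex.I)‖ : ℂ) := by
  rw [← prod_eq t]
  ring

lemma main_conj (t : ℝ) : (((Gammaℝ (1 / 2 + t * Complex.I) /
    (‖Gammaℝ (1 / 2 + t * Complex.I)‖ : ℂ) * riemannZeta (1 / 2 + t * Complex.I)).re : ℝ) : ℂ) =
    (Gammaℝ (1 / 2 + t * Complex.I) /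
    (‖Gammaℝ (1 / 2 + t * Complex.I)‖ : ℂ) * riemannZeta (1 / 2 + t * Complex.I)) := by
  rw [← Complex.conj_eq_iff_re, main_im, map_div₀, completed_conj, Complex.conj_ofReal]

lemma line_cont : Continuous fun t : ℝ => (1 / 2 + t * Complex.I : ℂ) := by fun_prop

lemma zeta_line_cont : Continuous fun t : ℝ => riemannZeta (1 / 2 + t * Complex.I) := by
  rw [continuous_iff_continuousAt]
  intro t
  have h := (differentiableAt_riemannZeta (line_ne_one t)).continuousAt
  exact ContinuousAt.comp (f := fun t : ℝ => (1 / 2 + t * Complex.I : ℂ)) h line_cont.continuousAt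

lemma GammaR_line_cont : Continuous fun t : ℝ => Gammaℝ (1 / 2 + t * Complex.I) := by
  have h : Continuous fun t : ℝ => (Gammaℝ (1 / 2 + t * Complex.I))⁻¹ :=
    differentiable_Gammaℝ_inv.continuous.comp line_cont
  have h2 : Continuous fun t : ℝ => ((Gammaℝ (1 / 2 + t * Complex.I))⁻¹)⁻¹ :=
    h.inv₀ fun t => inv_ne_zero (GammaR_line_ne t)
  simpa using h2

lemma Z_cont : Continuous fun t : ℝ => (Gammaℝ (1 / 2 + t * Complex.I) /
    (‖Gammaℝ (1 / 2 + t * Complex.I)‖ : ℂ) * riemannZeta (1 / 2 + t * Complex.I)) := by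
  refine Continuous.mul (Continuous.div GammaR_line_cont
    (Complex.continuous_ofReal.comp GammaR_line_cont.norm) fun t => ?_) zeta_line_cont
  have := norm_ne_zero_iff.2 (GammaR_line_ne t)
  exact_mod_cast this

lemma Z_norm (t : ℝ) : ‖(Gammaℝ (1 / 2 + t * Complex.I) /
    (‖Gammaℝ (1 / 2 + t * Complex.I)‖ : ℂ) * riemannZeta (1 / 2 + t * Complex.I))‖ =
    ‖riemannZeta (1 / 2 + t * Complex.I)‖ := by
  rw [norm_mul, norm_div, Complex.norm_real, norm_norm,
    div_self (norm_ne_zero_iff.2 (GammaR_line_ne t)), one_mul]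

theorem t_ZR : Pool.Agent.TH806.LS.P_ZR := by
  refine ⟨fun t => main_conj t, fun t => ?_, ?_⟩
  · have h := main_conj t
    have h2 := Z_norm t
    rw [← h, Complex.norm_real, Real.norm_eq_abs] at h2
    exact h2
  · exact Complex.continuous_re.comp Z_cont

end Pool.Agent.TH620.LS_ZR
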